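import Mathlib

/-!
# Differential polynomials (project PD, `MP_2c9d0b_al`)

`MvPolynomial (ι × ℕ) R` is the ring of differential polynomials in the unknowns `x j`, `j : ι`;
the variable `(j, k)` stands for the `k`-th derivative of `x j`.
-/

open MvPolynomial

namespace Pool.Agent.Helper21.PD

/-- A derivation of a commutative ring `A` into itself (over `ℤ`). -/
structure Der (A : Type*) [CommRing A] where
  /-- the underlying map -/
  toFun : A → A
  /-- additivity -/
  add' : ∀ a b, toFun (a + b) = toFun a + toFun b
  /-- Leibniz rule -/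
  mul' : ∀ a b, toFun (a * b) = a * toFun b + b * toFun a

instance {A : Type*} [CommRing A] : CoeFun (Der A) (fun _ => A → A) := ⟨Der.toFun⟩

namespace Der

variable {A : Type*} [CommRing A] (D : Der A)

theorem add (a b : A) : D (a + b) = D a + D b := D.add' a b

theorem mul (a b : A) : D (a * b) = a * D b + b * D a := D.mul' a b

@[simp] theorem zero : D 0 = 0 := by
  have := D.add 0 0
  simpa using this

@[simp] theorem one : D 1 = 0 := by
  have := D.mul 1 1
  simpa using this

theorem neg (a : A) : D (-a) = -D a := by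
  have := D.add a (-a)
  rw [add_neg_cancel, D.zero] at this
  exact (neg_eq_of_add_eq_zero_right this.symm).symm

theorem sub (a b : A) : D (a - b) = D a - D b := by
  rw [sub_eq_add_neg, D.add, D.neg, sub_eq_add_neg]

/-- The underlying additive map. -/
def toAddHom : A →+ A where
  toFun := D
  map_zero' := D.zero
  map_add' := D.add

theorem sum {κ : Type*} (s : Finset κ) (f : κ → A) : D (∑ i ∈ s, f i) = ∑ i ∈ s, D (f i) :=
  map_sum D.toAddHom f s

@[simp] theorem natCast (n : ℕ) : D (n : A) = 0 := by
  induction n with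
  | zero => simp
  | succ n ih => rw [Nat.cast_succ, D.add, ih, D.one, add_zero]

@[simp] theorem intCast (n : ℤ) : D (n : A) = 0 := by
  cases n with
  | ofNat n => simp
  | negSucc n => rw [Int.cast_negSucc, D.neg, D.natCast, neg_zero]

theorem pow (a : A) (n : ℕ) : D (a ^ n) = n * a ^ (n - 1) * D a := by
  induction n with
  | zero => simp
  | succ n ih =>
    rw [pow_succ, D.mul, ih]
    rcases n with _ | n
    · simp
    · simp only [Nat.add_sub_cancel]
      push_cast
      ring

theorem iterate_add (k : ℕ) (a b : A) : (D)^[k] (a + b) = (D)^[k] a + (D)^[k] b := by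
  induction k generalizing a b with
  | zero => rfl
  | succ k ih => rw [Function.iterate_succ_apply, Function.iterate_succ_apply,
      Function.iterate_succ_apply, D.add, ih]

@[simp] theorem iterate_zero (k : ℕ) : (D)^[k] (0 : A) = 0 := by
  induction k with
  | zero => rfl
  | succ k ih => rw [Function.iterate_succ_apply, D.zero, ih]

/-- The derivation attached to a bundled Mathlib derivation. -/
def ofDerivation {k A : Type*} [CommRing k] [CommRing A] [Algebra k A] (D : Derivation k A A) :
    Der A where
  toFun := D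
  add' := map_add D
  mul' a b := by
    rw [D.leibniz, smul_eq_mul, smul_eq_mul]

/-- A ring homomorphism `A → A[ε]` which is a section of `A[ε] → A` is a derivation. -/
noncomputable def ofHom {A : Type*} [CommRing A] (φ : A →+* TrivSqZeroExt A A)
    (h : ∀ a, (φ a).fst = a) : Der A where
  toFun a := (φ a).snd
  add' a b := by simp
  mul' a b := by
    simp [h, mul_comm]

end Der

variable {R : Type*} [CommRing R] {ι : Type*}

/-- The homomorphism behind `dext`. -/
noncomputable def dextHom (d : Der R) :
    MvPolynomial (ι × ℕ) R →+*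
      TrivSqZeroExt (MvPolynomial (ι × ℕ) R) (MvPolynomial (ι × ℕ) R) :=
  eval₂Hom
    { toFun := fun a => (C a, C (d a))
      map_one' := by
        ext <;> simp
      map_mul' := fun a b => by
        ext <;> simp [d.mul, mul_comm]
      map_zero' := by
        ext <;> simp
      map_add' := fun a b => by
        ext <;> simp [d.add] }
    (fun v => (X v, X (v.1, v.2 + 1)))

theorem dextHom_C (d : Der R) (a : R) :
    dextHom (ι := ι) d (C a) = ((C a, C (d a)) : TrivSqZeroExt _ _) := by
  rw [dextHom, coe_eval₂Hom, eval₂_C]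
  rfl

theorem dextHom_X (d : Der R) (v : ι × ℕ) :
    dextHom (ι := ι) d (X v) = ((X v, X (v.1, v.2 + 1)) : TrivSqZeroExt _ _) := by
  rw [dextHom, coe_eval₂Hom, eval₂_X]

theorem dextHom_fst (d : Der R) (f : MvPolynomial (ι × ℕ) R) :
    (dextHom d f).fst = f := by
  have : (TrivSqZeroExt.fstHom (MvPolynomial (ι × ℕ) R) (MvPolynomial (ι × ℕ) R)
      (MvPolynomial (ι × ℕ) R)).toRingHom.comp (dextHom d) = RingHom.id _ := by
    refine MvPolynomial.ringHom_ext ?_ ?_
    · intro a
      rw [RingHom.comp_apply, dextHom_C]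
      rfl
    · intro v
      rw [RingHom.comp_apply, dextHom_X]
      rfl
  exact RingHom.congr_fun this f

/-- The extension of a derivation `d` of `R` to the ring of differential polynomials, with
`(x j)^(k)` going to `(x j)^(k+1)`. -/
noncomputable def dext (d : Der R) : Der (MvPolynomial (ι × ℕ) R) :=
  Der.ofHom (dextHom d) (dextHom_fst d)

@[simp] theorem dext_C (d : Der R) (a : R) :
    dext (ι := ι) d (C a) = C (d a) := by
  change (dextHom d (C a)).snd = _
  rw [dextHom_C]
  rfl

@[simp] theorem dext_X (d : Der R) (v : ι × ℕ) :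
    dext d (X v) = X (v.1, v.2 + 1) := by
  change (dextHom d (X v)).snd = _
  rw [dextHom_X]
  rfl

/-- Two derivations (along a homomorphism) of a polynomial ring which agree on constants and on
variables are equal. -/
theorem derivation_ext {σ : Type*} {A : Type*} [CommRing A] (ψ : MvPolynomial σ R →+* A)
    (D₁ D₂ : MvPolynomial σ R → A)
    (add₁ : ∀ f g, D₁ (f + g) = D₁ f + D₁ g) (add₂ : ∀ f g, D₂ (f + g) = D₂ f + D₂ g)
    (mul₁ : ∀ f g, D₁ (f * g) = ψ f * D₁ g + ψ g * D₁ f)
    (mul₂ : ∀ f g, D₂ (f * g) = ψ f * D₂ g + ψ g * D₂ f)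
    (hC : ∀ a, D₁ (C a) = D₂ (C a)) (hX : ∀ v, D₁ (X v) = D₂ (X v))
    (f : MvPolynomial σ R) : D₁ f = D₂ f := by
  induction f using MvPolynomial.induction_on with
  | C a => exact hC a
  | add f g hf hg => rw [add₁, add₂, hf, hg]
  | mul_X f v hf => rw [mul₁, mul₂, hf, hX]

theorem dext_unique (d : Der R) (D : Der (MvPolynomial (ι × ℕ) R))
    (hC : ∀ a, D (C a) = C (d a)) (hX : ∀ v, D (X v) = X (v.1, v.2 + 1))
    (f : MvPolynomial (ι × ℕ) R) : D f = dext d f := by
  refine derivation_ext (RingHom.id _) D (dext d) D.add (dext d).add D.mul (dext d).mul ?_ ?_ f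
  · intro a
    rw [hC, dext_C]
  · intro v
    rw [hX, dext_X]

/-- Naturality of `dext`. -/
theorem map_dext {R' : Type*} [CommRing R'] (ψ : R →+* R') (d : Der R)
    (d' : Der R') (h : ∀ a, ψ (d a) = d' (ψ a)) (f : MvPolynomial (ι × ℕ) R) :
    MvPolynomial.map ψ (dext d f) = dext d' (MvPolynomial.map ψ f) := by
  refine derivation_ext (MvPolynomial.map ψ) (fun f => MvPolynomial.map ψ (dext d f))
    (fun f => dext d' (MvPolynomial.map ψ f)) (by simp [Der.add]) (by simp [Der.add])
    (by simp [Der.mul]) (by simp [Der.mul]) ?_ ?_ f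
  · intro a
    simp [h]
  · intro v
    simp

theorem map_dext_iterate {R' : Type*} [CommRing R'] (ψ : R →+* R') (d : Der R)
    (d' : Der R') (h : ∀ a, ψ (d a) = d' (ψ a)) (l : ℕ)
    (f : MvPolynomial (ι × ℕ) R) :
    MvPolynomial.map ψ ((dext d)^[l] f) = (dext d')^[l] (MvPolynomial.map ψ f) := by
  induction l with
  | zero => rfl
  | succ l ih => rw [Function.iterate_succ_apply', Function.iterate_succ_apply',
      map_dext ψ d d' h, ih]

/-- Evaluation of a differential polynomial with coefficients in `R` at a point `x` of a ring `S`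
with derivation `δ`, along `f : R → S`. -/
noncomputable def ev {S : Type*} [CommRing S] (f : R →+* S) (δ : Der S) (x : ι → S) :
    MvPolynomial (ι × ℕ) R →+* S :=
  eval₂Hom f (fun v => (δ)^[v.2] (x v.1))

@[simp] theorem ev_C {S : Type*} [CommRing S] (f : R →+* S) (δ : Der S) (x : ι → S)
    (a : R) : ev f δ x (C a) = f a := by
  simp [ev]

@[simp] theorem ev_X {S : Type*} [CommRing S] (f : R →+* S) (δ : Der S) (x : ι → S)
    (v : ι × ℕ) : ev f δ x (X v) = (δ)^[v.2] (x v.1) := by
  simp [ev]

/-- Evaluation is differential. -/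
theorem ev_dext {S : Type*} [CommRing S] (f : R →+* S) (δ : Der S) (x : ι → S)
    (d : Der R) (h : ∀ a, f (d a) = δ (f a)) (g : MvPolynomial (ι × ℕ) R) :
    ev f δ x (dext d g) = δ (ev f δ x g) := by
  refine derivation_ext (ev f δ x) (fun g => ev f δ x (dext d g))
    (fun g => δ (ev f δ x g)) (by simp [Der.add]) (by simp [Der.add])
    (by simp [Der.mul]) (by simp [Der.mul]) ?_ ?_ g
  · intro a
    simp [h]
  · intro v
    simp only [dext_X, ev_X, Function.iterate_succ_apply']

theorem ev_dext_iterate {S : Type*} [CommRing S] (f : R →+* S) (δ : Der S) (x : ι → S)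
    (d : Der R) (h : ∀ a, f (d a) = δ (f a)) (l : ℕ) (g : MvPolynomial (ι × ℕ) R) :
    ev f δ x ((dext d)^[l] g) = (δ)^[l] (ev f δ x g) := by
  induction l with
  | zero => rfl
  | succ l ih => rw [Function.iterate_succ_apply', Function.iterate_succ_apply',
      ev_dext f δ x d h, ih]

/-- The differential ideal generated by the `u m`. -/
noncomputable def diffIdeal {σ : Type*} (d : Der R) (u : σ → MvPolynomial (ι × ℕ) R) :
    Ideal (MvPolynomial (ι × ℕ) R) :=
  Ideal.span (Set.range fun ml : σ × ℕ => (dext d)^[ml.2] (u ml.1))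

/-- Order weight of a differential monomial: the sum of the orders of its factors. -/
def wt (γ : (ι × ℕ) →₀ ℕ) : ℕ := γ.sum fun v e => e * v.2

/-- All monomials of `f` have order weight at most `Ω`. -/
def HasWt (Ω : ℕ) (f : MvPolynomial (ι × ℕ) R) : Prop := ∀ γ ∈ f.support, wt γ ≤ Ω

/-- The derivation `d/dz` of `κ[z]`. -/
noncomputable def ddz (κ : Type*) [CommRing κ] : Der (Polynomial κ) where
  toFun := Polynomial.derivative
  add' _ _ := Polynomial.derivative_add
  mul' a b := by
    rw [Polynomial.derivative_mul]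
    ring

/-- The field generated over `K` by all derivatives of the elements `t i`. -/
def dClosure {L : Type*} [Field L] (D : Der L) (K : Subfield L) {τ : Type*} (t : τ → L) :
    Subfield L :=
  Subfield.closure ((K : Set L) ∪ Set.range (fun v : τ × ℕ => (D)^[v.2] (t v.1)))

/-- The field generated over `K` by the derivatives of order at most `c` of the elements `t i`
and by a finite set `Z`. -/
def dClosureLE {L : Type*} [Field L] (D : Der L) (K : Subfield L) {τ : Type*} (t : τ → L)
    (c : ℕ) (Z : Finset L) : Subfield L :=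
  Subfield.closure ((K : Set L) ∪ (fun v : τ × ℕ => (D)^[v.2] (t v.1)) '' {v | v.2 ≤ c} ∪
    (Z : Set L))

end Pool.Agent.Helper21.PD
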