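import Mathlib
import Pool.Agent.Helper21.PD.Defs

/-! PD-1: points in large positive characteristic. -/

open MvPolynomial

namespace Pool.Agent.Helper21.PD

theorem P1.isJacobsonRing_int : IsJacobsonRing ℤ := by
  rw [isJacobsonRing_iff_prime_eq]
  intro P hP
  by_cases h : P = ⊥
  · subst h
    refine le_antisymm ?_ Ideal.le_jacobson
    intro x hx
    have h1 := Ideal.mem_jacobson_bot.mp hx x
    rw [Int.isUnit_iff] at h1
    rw [Ideal.mem_bot]
    rcases h1 with h1 | h1
    · have : x * x = 0 := by linarith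
      exact mul_self_eq_zero.mp this
    · nlinarith [mul_self_nonneg x]
  · have : P.IsMaximal := IsPrime.to_maximal_ideal h
    exact Ideal.jacobson_eq_self_of_isMaximal

theorem exists_char_p_point {τ : Type} {K : Type} [Field K] [CharZero K]
    (ε : MvPolynomial τ ℤ →+* K) (Z : Finset (MvPolynomial τ ℤ)) (hZ : ∀ g ∈ Z, ε g = 0)
    (s : MvPolynomial τ ℤ) (hs : ε s ≠ 0) (N : ℕ) :
    ∃ (p : ℕ) (κ : Type) (_ : Field κ) (_ : CharP κ p) (φ : MvPolynomial τ ℤ →+* κ),
      p.Prime ∧ N < p ∧ (∀ g ∈ Z, φ g = 0) ∧ φ s ≠ 0 := by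
  classical
  -- the variables which occur
  let V : Finset τ := s.vars ∪ Z.biUnion fun g => g.vars
  let a : K := ε s * (N.factorial : K)
  have ha : a ≠ 0 := mul_ne_zero hs (by exact_mod_cast N.factorial_ne_zero)
  let ψ : MvPolynomial (Option V) ℤ →+* K :=
    eval₂Hom (Int.castRingHom K) (fun o => o.elim a⁻¹ (fun v => ε (X v)))
  let π : MvPolynomial τ ℤ →+* MvPolynomial (Option V) ℤ :=
    eval₂Hom (Int.castRingHom _) (fun t => if h : t ∈ V then X (some ⟨t, h⟩) else 0)
  have hπ : ∀ g : MvPolynomial τ ℤ, g.vars ⊆ V → ψ (π g) = ε g := by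
    intro g hg
    have := hom_congr_vars (f₁ := ψ.comp π) (f₂ := ε) (p₁ := g) (p₂ := g)
      (RingHom.ext_int _ _) ?_ rfl
    · exact this
    · intro t ht _
      have htV : t ∈ V := hg ht
      simp [ψ, π, htV]
  have hker : RingHom.ker ψ ≠ ⊤ := RingHom.ker_ne_top ψ
  obtain ⟨M, hM, hle⟩ := Ideal.exists_le_maximal _ hker
  let : Field (MvPolynomial (Option V) ℤ ⧸ M) := Ideal.Quotient.field M
  obtain ⟨p, hp⟩ := CharP.exists (MvPolynomial (Option V) ℤ ⧸ M)
  have hfin : Module.Finite ℤ (MvPolynomial (Option V) ℤ ⧸ M) := by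
    have := P1.isJacobsonRing_int
    have : Algebra.FiniteType ℤ (MvPolynomial (Option V) ℤ ⧸ M) := inferInstance
    exact finite_of_finite_type_of_isJacobsonRing ℤ (MvPolynomial (Option V) ℤ ⧸ M)
  have hprime : p.Prime := by
    rcases CharP.char_is_prime_or_zero (MvPolynomial (Option V) ℤ ⧸ M) p with h | h
    · exact h
    · exfalso
      subst h
      have hc : CharZero (MvPolynomial (Option V) ℤ ⧸ M) := CharP.charP_to_charZero _
      have : Algebra.IsIntegral ℤ (MvPolynomial (Option V) ℤ ⧸ M) := inferInstance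
      exact Int.not_isField (isField_of_isIntegral_of_isField
        (R := ℤ) (S := MvPolynomial (Option V) ℤ ⧸ M)
        (RingHom.injective_int _) (Field.toIsField _))
  have hs' : (Ideal.Quotient.mk M (π s)) * (N.factorial : MvPolynomial (Option V) ℤ ⧸ M) *
      (Ideal.Quotient.mk M (X none)) = 1 := by
    have h1 : π s * (N.factorial : MvPolynomial (Option V) ℤ) * X none - 1 ∈ M := by
      refine hle ?_
      rw [RingHom.mem_ker, map_sub, map_mul, map_mul, hπ s Finset.subset_union_left, map_one,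
        map_natCast]
      have h2 : ψ (X none) = a⁻¹ := by simp [ψ]
      rw [h2]
      change a * a⁻¹ - 1 = 0
      rw [mul_inv_cancel₀ ha, sub_self]
    have h3 := (Ideal.Quotient.eq (I := M)).mpr h1
    rw [map_mul, map_mul, map_one, map_natCast] at h3
    exact h3
  refine ⟨p, MvPolynomial (Option V) ℤ ⧸ M, inferInstance, hp, (Ideal.Quotient.mk M).comp π,
    hprime, ?_, ?_, ?_⟩
  · by_contra hcon
    push Not at hcon
    have h1 : ((N.factorial : ℕ) : MvPolynomial (Option V) ℤ ⧸ M) = 0 :=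
      (CharP.cast_eq_zero_iff _ p _).mpr ((hprime.dvd_factorial).mpr hcon)
    rw [h1, mul_zero, zero_mul] at hs'
    exact zero_ne_one hs'
  · intro g hg
    have h1 : g.vars ⊆ V := fun t ht =>
      Finset.mem_union_right _ (Finset.mem_biUnion.mpr ⟨g, hg, ht⟩)
    have h2 : π g ∈ M := hle (by rw [RingHom.mem_ker, hπ g h1, hZ g hg])
    rw [RingHom.comp_apply]
    exact Ideal.Quotient.eq_zero_iff_mem.mpr h2
  · intro h
    rw [RingHom.comp_apply] at h
    rw [h, zero_mul, zero_mul] at hs'
    exact zero_ne_one hs'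

end Pool.Agent.Helper21.PD
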