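import Mathlib
import Pool.Agent.Helper21.PD.Defs
import Pool.Agent.Helper21.PD.P1

/-!
# PD-2: Taylor transfer of finitely many identities to `κ[z]` in characteristic `p`
-/

open MvPolynomial

namespace Pool.Agent.Helper21.PD

namespace P2

/-- the zero derivation of `ℤ` -/
def dZ : Der ℤ where
  toFun _ := 0
  add' _ _ := by simp
  mul' _ _ := by simp

section lift

variable {R : Type} [CommRing R] {ι : Type}

/-- coefficientwise lift -/
noncomputable def lift (f : MvPolynomial (ι × ℕ) R) :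
    MvPolynomial (ι × ℕ) (MvPolynomial (R × ℕ) ℤ) :=
  ∑ γ ∈ f.support, monomial γ (X (coeff γ f, 0))

theorem coeff_lift (f : MvPolynomial (ι × ℕ) R) (γ : ι × ℕ →₀ ℕ) (h : coeff γ (lift f) ≠ 0) :
    γ ∈ f.support := by
  classical
  by_contra hγ
  refine h ?_
  rw [lift, coeff_sum]
  refine Finset.sum_eq_zero fun δ hδ => ?_
  rw [coeff_monomial, if_neg]
  rintro rfl
  exact hγ hδ

theorem support_lift (f : MvPolynomial (ι × ℕ) R) : (lift f).support ⊆ f.support := fun γ hγ =>
  coeff_lift f γ (mem_support_iff.1 hγ)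

theorem lift_isHomogeneous {f : MvPolynomial (ι × ℕ) R} {e : ℕ} (hf : f.IsHomogeneous e) :
    (lift f).IsHomogeneous e := by
  intro γ hγ
  exact hf (mem_support_iff.1 (coeff_lift f γ hγ))

theorem map_lift (ε : MvPolynomial (R × ℕ) ℤ →+* R) (hε : ∀ a : R, ε (X (a, 0)) = a)
    (f : MvPolynomial (ι × ℕ) R) : MvPolynomial.map ε (lift f) = f := by
  rw [lift, map_sum]
  conv_rhs => rw [f.as_sum]
  refine Finset.sum_congr rfl fun γ _ => ?_
  rw [map_monomial, hε]

end lift

/-- weights of the monomials -/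
noncomputable def wb {A : Type*} [CommRing A] {ι : Type*} (f : MvPolynomial (ι × ℕ) A) : ℕ :=
  f.support.sup wt

theorem hasWt_of {A : Type*} [CommRing A] {ι : Type*} {f : MvPolynomial (ι × ℕ) A} {Ω : ℕ}
    (h : wb f ≤ Ω) : HasWt Ω f := fun _ hγ => (Finset.le_sup (f := wt) hγ).trans h

theorem HasWt.map {A A' : Type*} [CommRing A] [CommRing A'] {ι : Type*} {Ω : ℕ}
    {f : MvPolynomial (ι × ℕ) A} (hf : HasWt Ω f) (Ψ : A →+* A') :
    HasWt Ω (MvPolynomial.map Ψ f) := fun γ hγ => hf γ (support_map_subset Ψ f hγ)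

/-- the order increases by at most one -/
theorem dext_mem_supported {ι : Type} {n : ℕ} {f : MvPolynomial (ι × ℕ) ℤ}
    (hf : f ∈ supported ℤ {v : ι × ℕ | v.2 ≤ n}) :
    dext dZ f ∈ supported ℤ {v : ι × ℕ | v.2 ≤ n + 1} := by
  have hle : supported ℤ {v : ι × ℕ | v.2 ≤ n} ≤ supported ℤ {v : ι × ℕ | v.2 ≤ n + 1} :=
    supported_mono fun v hv => Nat.le_succ_of_le hv
  rw [supported_eq_adjoin_X] at hf
  induction hf using Algebra.adjoin_induction with
  | mem x hx =>
    obtain ⟨v, hv, rfl⟩ := hx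
    rw [dext_X]
    exact X_mem_supported.2 (Nat.succ_le_succ hv)
  | algebraMap r =>
    rw [algebraMap_eq, dext_C]
    exact Subalgebra.algebraMap_mem _ _
  | add x y _ _ hx hy =>
    rw [Der.add]
    exact add_mem hx hy
  | mul x y hx' hy' hx hy =>
    rw [Der.mul]
    rw [← supported_eq_adjoin_X] at hx' hy'
    exact add_mem (mul_mem (hle hx') hy) (mul_mem (hle hy') hx)

theorem dext_iterate_mem_supported {ι : Type} {n : ℕ} (k : ℕ) {f : MvPolynomial (ι × ℕ) ℤ}
    (hf : f ∈ supported ℤ {v : ι × ℕ | v.2 ≤ n}) :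
    (dext dZ)^[k] f ∈ supported ℤ {v : ι × ℕ | v.2 ≤ n + k} := by
  induction k with
  | zero => exact hf
  | succ k ih =>
    rw [Function.iterate_succ_apply']
    exact dext_mem_supported ih

theorem ddz_iterate {κ : Type} [CommRing κ] (k : ℕ) (f : Polynomial κ) :
    (ddz κ)^[k] f = (Polynomial.derivative)^[k] f := rfl

section taylor

variable {κ : Type} [Field κ] {R : Type} (φ : MvPolynomial (R × ℕ) ℤ →+* κ) (E : ℕ)

/-- Taylor polynomials -/
noncomputable def T (a : R) : Polynomial κ :=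
  ∑ k ∈ Finset.range (E + 1), Polynomial.C (φ (X (a, k)) / (k.factorial : κ)) * Polynomial.X ^ k

theorem coeff_T (a : R) {k : ℕ} (hk : k ≤ E) :
    (T φ E a).coeff k = φ (X (a, k)) / (k.factorial : κ) := by
  rw [T, Polynomial.finsetSum_coeff, Finset.sum_eq_single k]
  · rw [Polynomial.coeff_C_mul_X_pow, if_pos rfl]
  · intro b _ hb
    rw [Polynomial.coeff_C_mul_X_pow, if_neg (Ne.symm hb)]
  · intro h
    exact absurd (Finset.mem_range.2 (Nat.lt_succ_of_le hk)) h

/-- the differential homomorphism `P → κ[z]` -/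
noncomputable def Ψ : MvPolynomial (R × ℕ) ℤ →+* Polynomial κ :=
  ev (Int.castRingHom (Polynomial κ)) (ddz κ) (T φ E)

theorem Ψ_dext (f : MvPolynomial (R × ℕ) ℤ) : Ψ φ E (dext dZ f) = ddz κ (Ψ φ E f) := by
  refine ev_dext _ _ _ dZ (fun a => ?_) f
  change Int.castRingHom (Polynomial κ) 0 = _
  rw [map_zero, eq_intCast, Der.intCast]

theorem Ψ_dext_iterate (k : ℕ) (f : MvPolynomial (R × ℕ) ℤ) :
    Ψ φ E ((dext dZ)^[k] f) = (ddz κ)^[k] (Ψ φ E f) := by
  induction k with
  | zero => rfl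
  | succ k ih => rw [Function.iterate_succ_apply', Function.iterate_succ_apply', Ψ_dext, ih]

theorem factorial_ne_zero {p : ℕ} [CharP κ p] (hp : p.Prime) {k : ℕ} (hk : k < p) :
    (k.factorial : κ) ≠ 0 := by
  rw [Ne, CharP.cast_eq_zero_iff κ p, hp.dvd_factorial]
  omega

theorem coeff_zero_Ψ {p : ℕ} [CharP κ p] (hp : p.Prime) (hE : E < p)
    {f : MvPolynomial (R × ℕ) ℤ} (hf : f ∈ supported ℤ {v : R × ℕ | v.2 ≤ E}) :
    (Ψ φ E f).coeff 0 = φ f := by
  have h : (Polynomial.constantCoeff.comp (Ψ φ E)) f = φ f := by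
    refine hom_congr_vars (RingHom.ext_int _ _) (fun v hv _ => ?_) rfl
    have hv' : v.2 ≤ E := mem_supported.1 hf hv
    rw [RingHom.comp_apply, Ψ, ev_X, ddz_iterate, Polynomial.constantCoeff_apply,
      Polynomial.coeff_iterate_derivative, zero_add, Nat.descFactorial_self, coeff_T φ E v.1 hv',
      nsmul_eq_mul, mul_div_cancel₀ _ (factorial_ne_zero hp (by omega))]
  exact h

theorem X_pow_dvd_Ψ {p : ℕ} [CharP κ p] (hp : p.Prime) (hE : E < p) {B M₁ : ℕ}
    (hM : M₁ + B ≤ E) {f : MvPolynomial (R × ℕ) ℤ}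
    (hf : f ∈ supported ℤ {v : R × ℕ | v.2 ≤ M₁})
    (h0 : ∀ k ≤ B, φ ((dext dZ)^[k] f) = 0) : Polynomial.X ^ B ∣ Ψ φ E f := by
  rw [Polynomial.X_pow_dvd_iff]
  intro k hk
  have h1 : ((ddz κ)^[k] (Ψ φ E f)).coeff 0 = 0 := by
    rw [← Ψ_dext_iterate, coeff_zero_Ψ φ E hp hE, h0 k hk.le]
    refine supported_mono (fun v hv => ?_) (dext_iterate_mem_supported k hf)
    have hv' : v.2 ≤ M₁ + k := hv
    show v.2 ≤ E
    omega
  rw [ddz_iterate, Polynomial.coeff_iterate_derivative, zero_add, Nat.descFactorial_self,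
    nsmul_eq_mul] at h1
  exact (mul_eq_zero.1 h1).resolve_left (factorial_ne_zero hp (by omega))

end taylor

end P2

open P2 in
/-- PD-2: Taylor transfer. -/
theorem exists_transfer {R : Type} [CommRing R] [IsDomain R] [CharZero R] (d : Der R)
    {ι σ : Type} [Fintype ι] [Fintype σ] (u : σ → MvPolynomial (ι × ℕ) R) (e : σ → ℕ)
    (hu : ∀ m, (u m).IsHomogeneous (e m)) (r : R) (hr : r ≠ 0) (N : ℕ)
    (h : ∀ j : ι, C r * X (j, 0) ^ N ∈ diffIdeal d u) :
    ∃ M Ω : ℕ, ∀ B N₀ : ℕ, ∃ (p : ℕ) (κ : Type) (_ : Field κ) (_ : CharP κ p),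
      p.Prime ∧ N₀ < p ∧
      ∃ (v : σ → MvPolynomial (ι × ℕ) (Polynomial κ)) (s : Polynomial κ)
        (a : ι → σ → ℕ → MvPolynomial (ι × ℕ) (Polynomial κ))
        (g : ι → MvPolynomial (ι × ℕ) (Polynomial κ)),
        (∀ m, (v m).IsHomogeneous (e m)) ∧ s.coeff 0 ≠ 0 ∧ (∀ m, HasWt Ω (v m)) ∧
        (∀ j m l, HasWt Ω (a j m l)) ∧ (∀ j, HasWt Ω (g j)) ∧
        ∀ j, C s * X (j, 0) ^ N =
          (∑ m, ∑ l ∈ Finset.range M, a j m l * (dext (ddz κ))^[l] (v m)) +
            C (Polynomial.X ^ B) * g j := by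
  classical
  -- the identities over `R`
  have h1 : ∀ j : ι, ∃ c : σ × ℕ →₀ MvPolynomial (ι × ℕ) R,
      (c.sum fun i a => a * (dext d)^[i.2] (u i.1)) = C r * X (j, 0) ^ N := fun j =>
    Finsupp.mem_ideal_span_range_iff_exists_finsupp.1 (h j)
  choose c hc using h1
  obtain ⟨M, hM⟩ : ∃ M : ℕ, ∀ j, ∀ i ∈ (c j).support, i.2 < M := by
    refine ⟨(Finset.univ.sup fun j => (c j).support.sup fun i => i.2) + 1, fun j i hi => ?_⟩
    have h2 : i.2 ≤ (c j).support.sup fun i => i.2 :=
      Finset.le_sup (f := fun i : σ × ℕ => i.2) hi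
    have h3 : ((c j).support.sup fun i => i.2) ≤
        Finset.univ.sup fun j => (c j).support.sup fun i => i.2 :=
      Finset.le_sup (f := fun j => (c j).support.sup fun i => i.2) (Finset.mem_univ j)
    omega
  have h2 : ∀ j : ι, C r * X (j, 0) ^ N =
      ∑ m, ∑ l ∈ Finset.range M, c j (m, l) * (dext d)^[l] (u m) := by
    intro j
    rw [← hc j, Finsupp.sum_of_support_subset (s := Finset.univ ×ˢ Finset.range M)]
    · rw [Finset.sum_product]
    · intro i hi
      exact Finset.mem_product.2 ⟨Finset.mem_univ _, Finset.mem_range.2 (hM j i hi)⟩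
    · intro i _
      rw [zero_mul]
  -- the universal differential ring
  set D := dext (ι := R) dZ with hD
  set ε : MvPolynomial (R × ℕ) ℤ →+* R := ev (Int.castRingHom R) d (fun a => a) with hε
  have hε0 : ∀ a : R, ε (X (a, 0)) = a := fun a => by
    rw [hε, ev_X]
    rfl
  have hεD : ∀ f, ε (D f) = d (ε f) := fun f => by
    refine ev_dext _ _ _ dZ (fun a => ?_) f
    change Int.castRingHom R 0 = _
    rw [map_zero, eq_intCast, Der.intCast]
  have hεD' : ∀ (k : ℕ) (f), ε ((D)^[k] f) = (d)^[k] (ε f) := by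
    intro k
    induction k with
    | zero => intro f; rfl
    | succ k ih => intro f; rw [Function.iterate_succ_apply, ih, hεD, Function.iterate_succ_apply]
  -- the lifted identities
  let F : ι → MvPolynomial (ι × ℕ) (MvPolynomial (R × ℕ) ℤ) := fun j =>
    C (X (r, 0)) * X (j, 0) ^ N -
      ∑ m, ∑ l ∈ Finset.range M, lift (c j (m, l)) * (dext D)^[l] (lift (u m))
  have hF : ∀ j, MvPolynomial.map ε (F j) = 0 := by
    intro j
    simp only [F, map_sub, map_mul, map_pow, map_sum, map_C, map_X, hε0, map_lift ε hε0,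
      map_dext_iterate ε D d hεD, ← h2 j, sub_self]
  obtain ⟨Ω, hΩ1, hΩ2, hΩ3⟩ : ∃ Ω : ℕ, (∀ m, HasWt Ω (lift (u m))) ∧
      (∀ j m, ∀ l ∈ Finset.range M, HasWt Ω (lift (c j (m, l)))) ∧ ∀ j, HasWt Ω (F j) := by
    refine ⟨(Finset.univ.sup fun m => wb (lift (u m))) +
      (Finset.univ.sup fun j => Finset.univ.sup fun m => (Finset.range M).sup fun l =>
        wb (lift (c j (m, l)))) + Finset.univ.sup fun j => wb (F j), fun m => ?_,
      fun j m l hl => ?_, fun j => ?_⟩
    · refine hasWt_of ?_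
      have := Finset.le_sup (f := fun m => wb (lift (u m))) (Finset.mem_univ m)
      omega
    · refine hasWt_of ?_
      have e1 := Finset.le_sup (f := fun l => wb (lift (c j (m, l)))) hl
      have e2 := Finset.le_sup (f := fun m => (Finset.range M).sup fun l =>
        wb (lift (c j (m, l)))) (Finset.mem_univ m)
      have e3 := Finset.le_sup (f := fun j => Finset.univ.sup fun m => (Finset.range M).sup fun l =>
        wb (lift (c j (m, l)))) (Finset.mem_univ j)
      omega
    · refine hasWt_of ?_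
      have := Finset.le_sup (f := fun j => wb (F j)) (Finset.mem_univ j)
      omega
  -- a bound for the orders of the coefficients
  obtain ⟨M₁, hM₁⟩ : ∃ M₁ : ℕ, ∀ j, ∀ γ ∈ (F j).support,
      coeff γ (F j) ∈ supported ℤ {v : R × ℕ | v.2 ≤ M₁} := by
    refine ⟨Finset.univ.sup fun j => (F j).support.sup fun γ =>
      (coeff γ (F j)).vars.sup fun v => v.2, fun j γ hγ => ?_⟩
    rw [mem_supported]
    intro v hv
    have e1 := Finset.le_sup (f := fun v : R × ℕ => v.2) hv
    have e2 := Finset.le_sup (f := fun γ => (coeff γ (F j)).vars.sup fun v => v.2) hγ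
    have e3 := Finset.le_sup (f := fun j => (F j).support.sup fun γ =>
      (coeff γ (F j)).vars.sup fun v => v.2) (Finset.mem_univ j)
    exact e1.trans (e2.trans e3)
  refine ⟨M, Ω, fun B N₀ => ?_⟩
  -- the point in characteristic `p`
  let K := FractionRing R
  let Z : Finset (MvPolynomial (R × ℕ) ℤ) := Finset.univ.biUnion fun j =>
    (F j).support.biUnion fun γ => (Finset.range (B + 1)).image fun k =>
      (D)^[k] (coeff γ (F j))
  have hK : CharZero K := IsFractionRing.charZero R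
  obtain ⟨p, κ, _, _, φ, hp, hNp, hZ, hs⟩ := exists_char_p_point
    ((algebraMap R K).comp ε) Z (by
      intro g hg
      simp only [Z, Finset.mem_biUnion, Finset.mem_univ, true_and, Finset.mem_image,
        Finset.mem_range] at hg
      obtain ⟨j, γ, _, k, _, rfl⟩ := hg
      have e1 : ε (coeff γ (F j)) = 0 := by
        rw [← coeff_map, hF j, coeff_zero]
      rw [RingHom.comp_apply, hεD', e1, Der.iterate_zero, map_zero]) (X (r, 0)) (by
      rw [RingHom.comp_apply, hε0]
      exact (map_ne_zero_iff _ (IsFractionRing.injective R K)).2 hr) (max N₀ (M₁ + B))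
  have hE : M₁ + B < p := lt_of_le_of_lt (le_max_right _ _) hNp
  refine ⟨p, κ, inferInstance, inferInstance, hp, lt_of_le_of_lt (le_max_left _ _) hNp, ?_⟩
  set Q := Ψ φ (M₁ + B) with hQ
  have hdvd : ∀ j, ∃ g : MvPolynomial (ι × ℕ) (Polynomial κ),
      MvPolynomial.map Q (F j) = C (Polynomial.X ^ B) * g := by
    intro j
    have : C (Polynomial.X ^ B) ∣ MvPolynomial.map Q (F j) := by
      rw [C_dvd_iff_dvd_coeff]
      intro γ
      rw [coeff_map]
      by_cases hγ : γ ∈ (F j).support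
      · refine X_pow_dvd_Ψ φ (M₁ + B) hp hE le_rfl (hM₁ j γ hγ) fun k hk => hZ _ ?_
        simp only [Z, Finset.mem_biUnion, Finset.mem_univ, true_and, Finset.mem_image,
          Finset.mem_range]
        exact ⟨j, γ, hγ, k, Nat.lt_succ_of_le hk, rfl⟩
      · rw [notMem_support_iff.1 hγ, map_zero]
        exact dvd_zero _
    exact this
  choose g hg using hdvd
  refine ⟨fun m => MvPolynomial.map Q (lift (u m)), Q (X (r, 0)), fun j m l =>
    if l ∈ Finset.range M then MvPolynomial.map Q (lift (c j (m, l))) else 0, g,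
    fun m => (lift_isHomogeneous (hu m)).map Q, ?_, fun m => HasWt.map (hΩ1 m) Q, fun j m l => ?_,
    fun j => ?_, fun j => ?_⟩
  · rw [hQ, coeff_zero_Ψ φ (M₁ + B) hp hE (X_mem_supported.2 (Nat.zero_le _))]
    exact hs
  · show HasWt Ω (if l ∈ Finset.range M then MvPolynomial.map Q (lift (c j (m, l))) else 0)
    split_ifs with hl
    · exact HasWt.map (hΩ2 j m l hl) Q
    · intro γ hγ
      simp at hγ
  · intro γ hγ
    refine HasWt.map (hΩ3 j) Q γ ?_
    rw [hg j, mem_support_iff, coeff_C_mul]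
    exact mul_ne_zero (pow_ne_zero _ Polynomial.X_ne_zero) (mem_support_iff.1 hγ)
  · rw [← hg j]
    have e1 : MvPolynomial.map Q (F j) = C (Q (X (r, 0))) * X (j, 0) ^ N -
        ∑ m, ∑ l ∈ Finset.range M, MvPolynomial.map Q (lift (c j (m, l))) *
          (dext (ddz κ))^[l] (MvPolynomial.map Q (lift (u m))) := by
      simp only [F, map_sub, map_mul, map_pow, map_sum, map_C, map_X,
        map_dext_iterate Q D (ddz κ) (Ψ_dext φ (M₁ + B))]
    rw [e1]
    have e2 : ∀ m : σ, ∑ l ∈ Finset.range M, (if l ∈ Finset.range M then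
        MvPolynomial.map Q (lift (c j (m, l))) else 0) *
          (dext (ddz κ))^[l] (MvPolynomial.map Q (lift (u m))) =
        ∑ l ∈ Finset.range M, MvPolynomial.map Q (lift (c j (m, l))) *
          (dext (ddz κ))^[l] (MvPolynomial.map Q (lift (u m))) := by
      intro m
      refine Finset.sum_congr rfl fun l hl => ?_
      rw [if_pos hl]
    simp only [e2]
    ring

end Pool.Agent.Helper21.PD
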