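import Mathlib
import Pool.Agent.Helper21.PD.Defs

open MvPolynomial

namespace Pool.Agent.Helper21.PD

namespace P3

variable {F : Type} [Field F] {Γ₀ : Type} [LinearOrderedCommGroupWithZero Γ₀]
  (ν : Valuation F Γ₀) {σ : Type}

/-- degree at most `d` and integral coefficients -/
def Bdd (d : ℕ) (f : MvPolynomial σ F) : Prop := (∀ γ, ν (coeff γ f) ≤ 1) ∧ f.totalDegree ≤ d

/-- degree at most `d` and small coefficients -/
def Small (d : ℕ) (f : MvPolynomial σ F) : Prop := (∀ γ, ν (coeff γ f) < 1) ∧ f.totalDegree ≤ d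

theorem Small.bdd {d : ℕ} {f : MvPolynomial σ F} (h : Small ν d f) : Bdd ν d f :=
  ⟨fun γ => (h.1 γ).le, h.2⟩

theorem Small.add {d : ℕ} {f g : MvPolynomial σ F} (hf : Small ν d f) (hg : Small ν d g) :
    Small ν d (f + g) := by
  refine ⟨fun γ => ?_, (totalDegree_add _ _).trans (max_le hf.2 hg.2)⟩
  rw [coeff_add]
  exact ν.map_add_lt (hf.1 γ) (hg.1 γ)

theorem Bdd.add {d : ℕ} {f g : MvPolynomial σ F} (hf : Bdd ν d f) (hg : Bdd ν d g) :
    Bdd ν d (f + g) := by
  refine ⟨fun γ => ?_, (totalDegree_add _ _).trans (max_le hf.2 hg.2)⟩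
  rw [coeff_add]
  exact ν.map_add_le (hf.1 γ) (hg.1 γ)

theorem Small.mul {d d' : ℕ} {f g : MvPolynomial σ F} (hf : Small ν d f) (hg : Bdd ν d' g) :
    Small ν (d + d') (f * g) := by
  classical
  refine ⟨fun γ => ?_, (totalDegree_mul _ _).trans (add_le_add hf.2 hg.2)⟩
  rw [coeff_mul]
  refine ν.map_sum_lt one_ne_zero ?_
  rintro ⟨a, b⟩ -
  rw [map_mul]
  calc ν (coeff a f) * ν (coeff b g) ≤ ν (coeff a f) * 1 :=
        mul_le_mul_right (hg.1 b) _
    _ = ν (coeff a f) := mul_one _
    _ < 1 := hf.1 a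

theorem bdd_monomial (a : σ →₀ ℕ) : Bdd ν a.degree (monomial a (1 : F)) := by
  classical
  refine ⟨fun γ => ?_, ?_⟩
  · rw [coeff_monomial]
    split_ifs <;> simp
  · exact (totalDegree_monomial _ one_ne_zero).le

/-- `f` is `X^a` plus small terms of degree at most `|a|` -/
def Good (a : σ →₀ ℕ) (f : MvPolynomial σ F) : Prop := Small ν a.degree (f - monomial a 1)

theorem Good.bdd {a : σ →₀ ℕ} {f : MvPolynomial σ F} (h : Good ν a f) : Bdd ν a.degree f := by
  have := (Small.bdd ν h).add ν (bdd_monomial ν a)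
  rwa [sub_add_cancel] at this

theorem Good.mul {a b : σ →₀ ℕ} {f g : MvPolynomial σ F} (hf : Good ν a f) (hg : Good ν b g) :
    Good ν (a + b) (f * g) := by
  have h1 := Small.mul ν hf hg.bdd
  have h2 := Small.mul ν hg (bdd_monomial ν a)
  rw [add_comm] at h2
  have h3 := h1.add ν h2
  unfold Good
  rw [map_add]
  convert h3 using 1
  have : (monomial (a + b) (1 : F)) = monomial a 1 * monomial b 1 := by
    rw [monomial_mul, mul_one]
  rw [this]
  ring

theorem good_one : Good ν (0 : σ →₀ ℕ) (1 : MvPolynomial σ F) := by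
  have : (1 : MvPolynomial σ F) - monomial 0 1 = 0 := by
    rw [sub_eq_zero]; rfl
  unfold Good
  rw [this]
  exact ⟨fun γ => by simp, by simp⟩

theorem Good.pow {a : σ →₀ ℕ} {f : MvPolynomial σ F} (hf : Good ν a f) (n : ℕ) :
    Good ν (n • a) (f ^ n) := by
  induction n with
  | zero => simpa using good_one ν
  | succ n ih =>
    rw [pow_succ, succ_nsmul]
    exact ih.mul ν hf

theorem Good.prod {ι : Type*} (s : Finset ι) {a : ι → σ →₀ ℕ} {f : ι → MvPolynomial σ F}
    (hf : ∀ i ∈ s, Good ν (a i) (f i)) : Good ν (∑ i ∈ s, a i) (∏ i ∈ s, f i) := by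
  classical
  induction s using Finset.induction_on with
  | empty => simpa using good_one ν
  | insert i s hi ih =>
    rw [Finset.sum_insert hi, Finset.prod_insert hi]
    exact (hf i (Finset.mem_insert_self _ _)).mul ν
      (ih fun j hj => hf j (Finset.mem_insert_of_mem hj))

variable [Fintype σ]

/-- the deformed monomial `b_β` -/
noncomputable def bb (g : σ → MvPolynomial σ F) (e : σ → ℕ) (β : σ →₀ ℕ) : MvPolynomial σ F :=
  ∏ v, (X v ^ (β v % e v) * g v ^ (β v / e v))

omit [Fintype σ] in
theorem good_X_pow (v : σ) (n : ℕ) :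
    Good ν (Finsupp.single v n) (X v ^ n : MvPolynomial σ F) := by
  have : (X v ^ n : MvPolynomial σ F) - monomial (Finsupp.single v n) 1 = 0 := by
    rw [X_pow_eq_monomial, sub_self]
  unfold Good
  rw [this]
  exact ⟨fun γ => by simp, by simp⟩

omit [Fintype σ] in
theorem good_g {e : σ → ℕ} {h : σ → MvPolynomial σ F} (hdeg : ∀ m, (h m).totalDegree ≤ e m)
    (hcoef : ∀ m γ, ν (coeff γ (h m)) < 1) (v : σ) :
    Good ν (Finsupp.single v (e v)) (X v ^ e v - h v) := by
  have : (X v ^ e v - h v : MvPolynomial σ F) - monomial (Finsupp.single v (e v)) 1 = - h v := by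
    rw [X_pow_eq_monomial]; ring
  unfold Good
  rw [this]
  refine ⟨fun γ => ?_, ?_⟩
  · rw [coeff_neg, Valuation.map_neg]
    exact hcoef v γ
  · rw [totalDegree_neg, Finsupp.degree_single]
    exact hdeg v

theorem good_bb {e : σ → ℕ} {h : σ → MvPolynomial σ F} (hdeg : ∀ m, (h m).totalDegree ≤ e m)
    (hcoef : ∀ m γ, ν (coeff γ (h m)) < 1) (β : σ →₀ ℕ) :
    Good ν β (bb (fun m => X m ^ e m - h m) e β) := by
  have h1 : β = ∑ v, (Finsupp.single v (β v % e v) + (β v / e v) • Finsupp.single v (e v)) := by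
    conv_lhs => rw [← Finsupp.univ_sum_single β]
    refine Finset.sum_congr rfl fun v _ => ?_
    rw [Finsupp.smul_single, ← Finsupp.single_add]
    congr 1
    rw [smul_eq_mul, mul_comm]
    exact (Nat.mod_add_div _ _).symm
  have h2 := Good.prod ν (Finset.univ : Finset σ)
    (a := fun v => Finsupp.single v (β v % e v) + (β v / e v) • Finsupp.single v (e v))
    (f := fun v => X v ^ (β v % e v) * (X v ^ e v - h v) ^ (β v / e v))
    (fun v _ => (good_X_pow ν v _).mul ν ((good_g ν hdeg hcoef v).pow ν _))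
  rw [← h1] at h2
  exact h2

theorem mul_bb {e : σ → ℕ} (he : ∀ m, 0 < e m) (g : σ → MvPolynomial σ F) (v : σ)
    (β : σ →₀ ℕ) : g v * bb g e β = bb g e (Finsupp.single v (e v) + β) := by
  classical
  unfold bb
  rw [← Finset.mul_prod_erase Finset.univ _ (Finset.mem_univ v),
    ← Finset.mul_prod_erase Finset.univ (fun w => X w ^ ((Finsupp.single v (e v) + β) w % e w) * _)
      (Finset.mem_univ v)]
  have h1 : (Finsupp.single v (e v) + β) v = e v + β v := by simp
  rw [h1, Nat.add_mod_left, Nat.add_div_left _ (he v), pow_succ, ← mul_assoc]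
  have h2 : ∏ x ∈ Finset.univ.erase v, X x ^ (β x % e x) * g x ^ (β x / e x) =
      ∏ x ∈ Finset.univ.erase v, X x ^ ((Finsupp.single v (e v) + β) x % e x) *
        g x ^ ((Finsupp.single v (e v) + β) x / e x) := by
    refine Finset.prod_congr rfl fun w hw => ?_
    have : (Finsupp.single v (e v) + β) w = β w := by
      simp [(Finset.ne_of_mem_erase hw).symm]
    rw [this]
  rw [h2]
  ring

theorem bb_mem {e : σ → ℕ} (g : σ → MvPolynomial σ F)
    (β : σ →₀ ℕ) {v : σ} (hv : e v ≤ β v) (he : 0 < e v) :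
    bb g e β ∈ Ideal.span (Set.range g) := by
  classical
  unfold bb
  rw [← Finset.mul_prod_erase Finset.univ _ (Finset.mem_univ v)]
  refine Ideal.mul_mem_right _ _ (Ideal.mul_mem_left _ _ ?_)
  have h1 : 0 < β v / e v := Nat.div_pos hv he
  exact Ideal.pow_mem_of_mem _ (Ideal.subset_span (Set.mem_range_self v)) _ h1

/-- the linear map sending `X^β` to `b_β` -/
noncomputable def Phi (g : σ → MvPolynomial σ F) (e : σ → ℕ) :
    MvPolynomial σ F →ₗ[F] MvPolynomial σ F :=
  (basisMonomials σ F).constr F (bb g e)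

theorem Phi_monomial (g : σ → MvPolynomial σ F) (e : σ → ℕ) (β : σ →₀ ℕ) :
    Phi g e (monomial β 1) = bb g e β := by
  have := (basisMonomials σ F).constr_basis F (bb g e) β
  rwa [coe_basisMonomials] at this

theorem Phi_apply (g : σ → MvPolynomial σ F) (e : σ → ℕ) (f : MvPolynomial σ F) :
    Phi g e f = ∑ β ∈ f.support, coeff β f • bb g e β := by
  conv_lhs => rw [f.as_sum]
  rw [map_sum]
  refine Finset.sum_congr rfl fun β _ => ?_
  rw [← Phi_monomial, ← map_smul, smul_monomial, smul_eq_mul, mul_one]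

theorem Phi_mul {e : σ → ℕ} (he : ∀ m, 0 < e m) (g : σ → MvPolynomial σ F) (v : σ)
    (f : MvPolynomial σ F) : Phi g e (X v ^ e v * f) = g v * Phi g e f := by
  induction f using MvPolynomial.induction_on' with
  | monomial β c =>
    have h1 : (monomial β c : MvPolynomial σ F) = c • monomial β 1 := by
      rw [smul_monomial, smul_eq_mul, mul_one]
    rw [h1, mul_smul_comm, map_smul, map_smul, mul_smul_comm, Phi_monomial, mul_bb he,
      ← Phi_monomial, X_pow_eq_monomial, monomial_mul, mul_one]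
  | add p q hp hq => rw [mul_add, map_add, map_add, hp, hq, mul_add]

theorem Phi_injective {g : σ → MvPolynomial σ F} {e : σ → ℕ}
    (hg : ∀ β, Good ν β (bb g e β)) : Function.Injective (Phi g e) := by
  classical
  rw [injective_iff_map_eq_zero]
  intro f hf
  by_contra hne
  have hsupp : f.support.Nonempty := by rwa [support_nonempty]
  obtain ⟨β, hβ, hmax⟩ := Finset.exists_max_image f.support (fun β => ν (coeff β f)) hsupp
  have hM : ν (coeff β f) ≠ 0 := (ν.ne_zero_iff).2 (mem_support_iff.1 hβ)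
  have h1 : ∑ γ ∈ f.support, coeff γ f * coeff β (bb g e γ) = 0 := by
    have := congrArg (coeff β) hf
    rw [Phi_apply, coeff_sum, coeff_zero] at this
    simpa only [coeff_smul, smul_eq_mul] using this
  have h2 : ∑ γ ∈ f.support, coeff γ f * coeff β (bb g e γ - monomial γ 1) =
      - coeff β f := by
    have h3 : ∑ γ ∈ f.support, coeff γ f * coeff β (monomial γ (1 : F)) = coeff β f := by
      rw [Finset.sum_eq_single β]
      · rw [coeff_monomial, if_pos rfl, mul_one]
      · intro γ _ hγ
        rw [coeff_monomial, if_neg hγ, mul_zero]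
      · intro h; exact absurd hβ h
    simp only [coeff_sub, mul_sub, Finset.sum_sub_distrib]
    rw [h1, h3, zero_sub]
  have h4 : ν (∑ γ ∈ f.support, coeff γ f * coeff β (bb g e γ - monomial γ 1)) <
      ν (coeff β f) := by
    refine ν.map_sum_lt hM fun γ hγ => ?_
    rw [map_mul]
    have h5 : ν (coeff β (bb g e γ - monomial γ 1)) < 1 := (hg γ).1 β
    calc ν (coeff γ f) * ν (coeff β (bb g e γ - monomial γ 1))
        ≤ ν (coeff β f) * ν (coeff β (bb g e γ - monomial γ 1)) :=
          mul_le_mul_left (hmax γ hγ) _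
      _ < ν (coeff β f) * 1 := by
          exact mul_lt_mul_of_pos_left h5 (zero_lt_iff.2 hM)
      _ = ν (coeff β f) := mul_one _
  rw [h2, Valuation.map_neg] at h4
  exact lt_irrefl _ h4

theorem Phi_surjective {g : σ → MvPolynomial σ F} {e : σ → ℕ}
    (hg : ∀ β, Good ν β (bb g e β)) : Function.Surjective (Phi g e) := by
  classical
  intro f
  set D := f.totalDegree with hD
  have hfin : Module.Finite F (restrictTotalDegree σ F D) := by
    have : Finite {n : σ →₀ ℕ | (n.sum fun _ e => e) ≤ D} :=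
      (Finsupp.finite_of_degree_le (σ := σ) D).to_subtype
    exact Module.Finite.of_basis (basisRestrictSupport F {n : σ →₀ ℕ | (n.sum fun _ e => e) ≤ D})
  have hmap : ∀ p ∈ restrictTotalDegree σ F D, Phi g e p ∈ restrictTotalDegree σ F D := by
    intro p hp
    rw [mem_restrictTotalDegree] at hp ⊢
    rw [Phi_apply]
    refine totalDegree_finsetSum_le fun β hβ => ?_
    refine (totalDegree_smul_le _ _).trans ((hg β).bdd.2.trans ?_)
    exact (le_totalDegree hβ).trans hp
  have hinj : Function.Injective ((Phi g e).restrict hmap) := by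
    intro a b hab
    apply Subtype.ext
    apply Phi_injective ν hg
    exact congrArg Subtype.val hab
  have hsurj := LinearMap.injective_iff_surjective.1 hinj
  obtain ⟨y, hy⟩ := hsurj ⟨f, (mem_restrictTotalDegree _ _ _).2 le_rfl⟩
  exact ⟨y, congrArg Subtype.val hy⟩

/-- the coefficients at the reduced monomials -/
noncomputable def piR (e : σ → ℕ) : MvPolynomial σ F →ₗ[F] (((v : σ) → Fin (e v)) → F) where
  toFun f a := coeff (Finsupp.equivFunOnFinite.symm fun v => (a v : ℕ)) f
  map_add' f g := by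
    funext a
    simp
  map_smul' c f := by
    funext a
    simp

theorem piR_surjective (e : σ → ℕ) : Function.Surjective (piR (F := F) e) := by
  classical
  intro c
  refine ⟨∑ a : ((v : σ) → Fin (e v)),
    monomial (Finsupp.equivFunOnFinite.symm fun v => (a v : ℕ)) (c a), ?_⟩
  funext b
  change coeff _ _ = _
  rw [coeff_sum, Finset.sum_eq_single b]
  · rw [coeff_monomial, if_pos rfl]
  · intro a _ hab
    rw [coeff_monomial, if_neg]
    intro h
    apply hab
    have h1 := Finsupp.equivFunOnFinite.symm.injective h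
    funext v
    exact Fin.ext (congrFun h1 v)
  · intro h; exact absurd (Finset.mem_univ _) h

theorem piR_eq_zero {e : σ → ℕ} {f : MvPolynomial σ F} :
    piR e f = 0 ↔ ∀ β : σ →₀ ℕ, (∀ v, β v < e v) → coeff β f = 0 := by
  constructor
  · intro h β hβ
    have := congrFun h (fun v => ⟨β v, hβ v⟩)
    change coeff _ _ = _ at this
    rw [Pi.zero_apply] at this
    convert this using 2
    ext v
    rfl
  · intro h
    funext a
    exact h _ fun v => (a v).2

theorem exists_equiv {g : σ → MvPolynomial σ F} {e : σ → ℕ} (he : ∀ m, 0 < e m)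
    (hg : ∀ β, Good ν β (bb g e β)) :
    Nonempty ((MvPolynomial σ F ⧸ Ideal.span (Set.range g)) ≃ₗ[F]
      (((v : σ) → Fin (e v)) → F)) := by
  classical
  let Ψ : MvPolynomial σ F ≃ₗ[F] MvPolynomial σ F :=
    LinearEquiv.ofBijective (Phi g e) ⟨Phi_injective ν hg, Phi_surjective ν hg⟩
  have hΨ : ∀ f, Ψ f = Phi g e f := fun f => rfl
  let π' : MvPolynomial σ F →ₗ[F] (((v : σ) → Fin (e v)) → F) :=
    (piR e).comp (Ψ.symm : MvPolynomial σ F →ₗ[F] MvPolynomial σ F)
  have hπ' : Function.Surjective π' := (piR_surjective e).comp Ψ.symm.surjective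
  let q : MvPolynomial σ F →ₗ[F] (MvPolynomial σ F ⧸ Ideal.span (Set.range g)) :=
    (Ideal.Quotient.mkₐ F (Ideal.span (Set.range g))).toLinearMap
  have hq : Function.Surjective q := Ideal.Quotient.mk_surjective
  have hker : LinearMap.ker q = LinearMap.ker π' := by
    ext f
    rw [LinearMap.mem_ker, LinearMap.mem_ker]
    have hq1 : q f = 0 ↔ f ∈ Ideal.span (Set.range g) := Ideal.Quotient.eq_zero_iff_mem
    rw [hq1]
    constructor
    · intro hf
      obtain ⟨c, hc⟩ := (Ideal.mem_span_range_iff_exists_fun).1 hf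
      have h1 : Ψ.symm f = ∑ v, X v ^ e v * Ψ.symm (c v) := by
        rw [LinearEquiv.symm_apply_eq, map_sum, ← hc]
        refine Finset.sum_congr rfl fun v _ => ?_
        rw [hΨ, Phi_mul he, ← hΨ, LinearEquiv.apply_symm_apply, mul_comm]
      change piR e (Ψ.symm f) = 0
      rw [h1, piR_eq_zero]
      intro β hβ
      rw [coeff_sum]
      refine Finset.sum_eq_zero fun v _ => ?_
      rw [X_pow_eq_monomial, coeff_monomial_mul', if_neg]
      intro h
      have h2 := h v
      rw [Finsupp.single_eq_same] at h2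
      exact absurd (hβ v) (not_lt.2 h2)
    · intro hf
      have h1 : ∀ β : σ →₀ ℕ, (∀ v, β v < e v) → coeff β (Ψ.symm f) = 0 :=
        piR_eq_zero.1 hf
      have h2 : f = ∑ β ∈ (Ψ.symm f).support, coeff β (Ψ.symm f) • bb g e β := by
        rw [← Phi_apply, ← hΨ, LinearEquiv.apply_symm_apply]
      rw [h2]
      refine Ideal.sum_mem _ fun β hβ => ?_
      have h3 : ∃ v, e v ≤ β v := by
        by_contra hno
        push Not at hno
        exact (mem_support_iff.1 hβ) (h1 β hno)
      obtain ⟨v, hv⟩ := h3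
      rw [smul_eq_C_mul]
      exact Ideal.mul_mem_left _ _ (bb_mem g β hv (he v))
  exact ⟨(q.quotKerEquivOfSurjective hq).symm.trans
    ((Submodule.quotEquivOfEq _ _ hker).trans (π'.quotKerEquivOfSurjective hπ'))⟩

end P3

theorem finrank_quotient {F : Type} [Field F] {Γ₀ : Type} [LinearOrderedCommGroupWithZero Γ₀]
    (ν : Valuation F Γ₀) {σ : Type} [Fintype σ] (e : σ → ℕ)
    (he : ∀ m, 0 < e m) (h : σ → MvPolynomial σ F) (hdeg : ∀ m, (h m).totalDegree ≤ e m)
    (hcoef : ∀ m γ, ν (coeff γ (h m)) < 1) :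
    FiniteDimensional F
      (MvPolynomial σ F ⧸ Ideal.span (Set.range fun m => X m ^ e m - h m)) ∧
    Module.finrank F (MvPolynomial σ F ⧸ Ideal.span (Set.range fun m => X m ^ e m - h m)) =
      ∏ m, e m := by
  classical
  obtain ⟨φ⟩ := P3.exists_equiv ν he (P3.good_bb ν hdeg hcoef)
  refine ⟨Module.Finite.equiv φ.symm, ?_⟩
  rw [φ.finrank_eq, Module.finrank_fintype_fun_eq_card, Fintype.card_pi]
  simp

end Pool.Agent.Helper21.PD
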