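import Mathlib

/-!
# PD-4: a residue field of degree prime to `p`
-/

namespace Pool.Agent.Helper21.PD

/-- The dimension over `F` of a module over an `F`-algebra `A`. -/
noncomputable def P4.dm (F A : Type) [Field F] [CommRing A] [Algebra F A] (M : Type)
    [AddCommGroup M] [Module A M] : ℕ :=
  @Module.finrank F M _ _ (Module.compHom M (algebraMap F A))

theorem P4.dm_eq {F A : Type} [Field F] [CommRing A] [Algebra F A] (M : Type)
    [AddCommGroup M] [Module A M] [Module F M] [IsScalarTower F A M] :
    P4.dm F A M = Module.finrank F M := by
  unfold P4.dm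
  have : (Module.compHom M (algebraMap F A) : Module F M) = ‹Module F M› := by
    apply Module.ext'
    intro r m
    exact algebraMap_smul A r m
  rw [this]

theorem P4.dvd_dm {F A : Type} [Field F] [CommRing A] [Algebra F A] [FiniteDimensional F A]
    {p : ℕ} (H : ∀ I : Ideal A, I.IsMaximal → p ∣ Module.finrank F (A ⧸ I)) (M : Type)
    [AddCommGroup M] [Module A M] (hM : Module.Finite A M) : p ∣ P4.dm F A M := by
  have : IsArtinianRing A := IsArtinianRing.of_finite F A
  induction hM using IsNoetherianRing.induction_on_isQuotientEquivQuotientPrime A with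
  | subsingleton N =>
    let _ : Module F N := Module.compHom N (algebraMap F A)
    have : P4.dm F A N = 0 := Module.finrank_zero_of_subsingleton
    rw [this]
    exact dvd_zero _
  | quotient N q f =>
    let _ : Module F N := Module.compHom N (algebraMap F A)
    have : IsScalarTower F A N := ⟨fun a b x => by
      rw [Algebra.smul_def, mul_smul]
      rfl⟩
    rw [P4.dm_eq, LinearEquiv.finrank_eq (f.restrictScalars F)]

    exact H q.1 (Ideal.IsPrime.isMaximal' q.2)
  | exact N₁ N₂ N₃ f g hf hg hfg h₁ h₃ =>
    let _ : Module F N₁ := Module.compHom N₁ (algebraMap F A)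
    let _ : Module F N₂ := Module.compHom N₂ (algebraMap F A)
    let _ : Module F N₃ := Module.compHom N₃ (algebraMap F A)
    have : IsScalarTower F A N₁ := ⟨fun a b x => by
      rw [Algebra.smul_def, mul_smul]
      rfl⟩
    have : IsScalarTower F A N₂ := ⟨fun a b x => by
      rw [Algebra.smul_def, mul_smul]
      rfl⟩
    have : IsScalarTower F A N₃ := ⟨fun a b x => by
      rw [Algebra.smul_def, mul_smul]
      rfl⟩
    have : FiniteDimensional F N₂ := Module.Finite.trans A N₂
    rw [P4.dm_eq] at h₁ h₃ ⊢
    have e := LinearMap.finrank_range_add_finrank_ker (g.restrictScalars F)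
    have e1 : Module.finrank F (LinearMap.range (g.restrictScalars F)) = Module.finrank F N₃ := by
      rw [LinearMap.range_eq_top.mpr (show Function.Surjective (g.restrictScalars F) from hg),
        finrank_top]
    have e2 : Module.finrank F (LinearMap.ker (g.restrictScalars F)) = Module.finrank F N₁ := by
      have : LinearMap.ker (g.restrictScalars F) = LinearMap.range (f.restrictScalars F) := by
        ext x
        rw [LinearMap.mem_ker, LinearMap.mem_range]
        exact hfg x
      rw [this]
      exact (LinearMap.finrank_range_of_inj (f := f.restrictScalars F) hf)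
    rw [e1, e2] at e
    rw [← e]
    exact dvd_add h₃ h₁

theorem exists_maximal {F A : Type} [Field F] [CommRing A] [Algebra F A]
    [FiniteDimensional F A] {p : ℕ} (h : ¬ p ∣ Module.finrank F A) :
    ∃ I : Ideal A, I.IsMaximal ∧ ¬ p ∣ Module.finrank F (A ⧸ I) := by
  by_contra hc
  push Not at hc
  apply h
  rw [← P4.dm_eq (F := F) (A := A) A]
  exact P4.dvd_dm hc A inferInstance

end Pool.Agent.Helper21.PD
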