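import Mathlib
import Pool.Agent.Helper21.PD.Defs

/-!
# PD-5: a place over `0` with ramification prime to `p`
-/

open Polynomial

namespace Pool.Agent.Helper21.PD

namespace P5

/-- A finite extension of degree prime to the characteristic is separable. -/
theorem isSeparable_of_not_dvd {F E : Type*} [Field F] [Field E] [Algebra F E]
    [FiniteDimensional F E] {p : ℕ} [hp : Fact p.Prime] [CharP F p]
    (h : ¬ p ∣ Module.finrank F E) : Algebra.IsSeparable F E := by
  have : ExpChar F p := ExpChar.prime hp.out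
  rw [isSeparable_iff_finInsepDegree_eq_one]
  obtain ⟨n, hn⟩ := finInsepDegree_eq_pow F E p
  rcases Nat.eq_zero_or_pos n with h0 | h0
  · rw [hn, h0, pow_zero]
  · exfalso
    apply h
    rw [← Field.finSepDegree_mul_finInsepDegree F E, hn]
    exact Dvd.dvd.mul_left (dvd_pow_self p h0.ne') _

/-- The place `X = 0` of `κ[X]`. -/
noncomputable def P0 (κ : Type) [Field κ] : IsDedekindDomain.HeightOneSpectrum κ[X] where
  asIdeal := Ideal.span {X}
  isPrime := (Ideal.span_singleton_prime X_ne_zero).2 Polynomial.prime_X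
  ne_bot := by
    rw [Ne, Ideal.span_singleton_eq_bot]
    exact X_ne_zero

theorem valuation_P0_X (κ : Type) [Field κ] :
    (P0 κ).valuation (RatFunc κ) RatFunc.X = WithZero.exp (-1 : ℤ) := by
  rw [← RatFunc.algebraMap_X, IsDedekindDomain.HeightOneSpectrum.valuation_of_algebraMap]
  exact IsDedekindDomain.HeightOneSpectrum.intValuation_singleton (P0 κ) X_ne_zero rfl

end P5

open scoped WithZero in
theorem exists_place {κ : Type} [Field κ] {p : ℕ} [Fact p.Prime] [CharP κ p] {E : Type}
    [Field E] [Algebra (RatFunc κ) E] [FiniteDimensional (RatFunc κ) E]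
    (h : ¬ p ∣ Module.finrank (RatFunc κ) E) :
    ∃ (ν : Valuation E (WithZero (Multiplicative ℤ))) (q : ℕ), 0 < q ∧ ¬ p ∣ q ∧
      (∀ g : Polynomial κ, ν (algebraMap (RatFunc κ) E (algebraMap (Polynomial κ) (RatFunc κ) g)) ≤ 1) ∧
      ν (algebraMap (RatFunc κ) E RatFunc.X) = WithZero.exp (-(q : ℤ)) ∧
      ∃ y : E, ν y = WithZero.exp (-1 : ℤ) := by
  have : CharP (RatFunc κ) p :=
    charP_of_injective_algebraMap (algebraMap κ (RatFunc κ)).injective p
  have : Algebra.IsSeparable (RatFunc κ) E := P5.isSeparable_of_not_dvd h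
  let : Algebra κ[X] E := ((algebraMap (RatFunc κ) E).comp (algebraMap κ[X] (RatFunc κ))).toAlgebra
  have : IsScalarTower κ[X] (RatFunc κ) E := IsScalarTower.of_algebraMap_eq fun _ => rfl
  let B := integralClosure κ[X] E
  have : IsDedekindDomain B := integralClosure.isDedekindDomain κ[X] (RatFunc κ) E
  have : IsFractionRing B E :=
    IsIntegralClosure.isFractionRing_of_finite_extension κ[X] (RatFunc κ) E B
  have : Module.Finite κ[X] B := IsIntegralClosure.finite κ[X] (RatFunc κ) E B
  have hinjE : Function.Injective (algebraMap κ[X] E) :=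
    (algebraMap (RatFunc κ) E).injective.comp (IsFractionRing.injective κ[X] (RatFunc κ))
  have : Module.IsTorsionFree κ[X] E := by
    rw [Module.isTorsionFree_iff_algebraMap_injective]
    exact hinjE
  have : Module.IsTorsionFree κ[X] B := IsIntegralClosure.isTorsionFree κ[X] E
  let P := P5.P0 κ
  have : P.asIdeal.IsMaximal := P.isMaximal
  have hsum := Ideal.sum_ramification_inertia B (RatFunc κ) E (p := P.asIdeal) P.ne_bot
  obtain ⟨Q, hQ, hQp⟩ : ∃ Q ∈ IsDedekindDomain.primesOverFinset P.asIdeal B,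
      ¬ p ∣ P.asIdeal.ramificationIdx' Q := by
    by_contra hcon
    push Not at hcon
    apply h
    rw [← hsum]
    exact Finset.dvd_sum fun Q hQ => Dvd.dvd.mul_right (hcon Q hQ) _
  obtain ⟨hQprime, hQover⟩ := (IsDedekindDomain.mem_primesOverFinset_iff P.ne_bot B).1 hQ
  let w : IsDedekindDomain.HeightOneSpectrum B :=
    { asIdeal := Q
      isPrime := hQprime
      ne_bot := Ideal.ne_bot_of_liesOver_of_ne_bot P.ne_bot Q }
  have hw : w.asIdeal.LiesOver P.asIdeal := hQover
  have hval := fun x => IsDedekindDomain.HeightOneSpectrum.valuation_liesOver (K := RatFunc κ) E P w x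
  refine ⟨w.valuation E, P.asIdeal.ramificationIdx' Q, ?_, hQp, ?_, ?_, ?_⟩
  · exact Nat.pos_of_ne_zero fun h0 => hQp (h0 ▸ dvd_zero p)
  · intro g
    rw [← hval]
    exact pow_le_one₀ zero_le (IsDedekindDomain.HeightOneSpectrum.valuation_le_one P g)
  · rw [← hval, P5.valuation_P0_X, ← WithZero.exp_nsmul]
    simp [w]
  · exact IsDedekindDomain.HeightOneSpectrum.valuation_exists_uniformizer E w

end Pool.Agent.Helper21.PD
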