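import Mathlib
import Pool.Agent.Helper21.PD.Defs
import Pool.Agent.Helper21.PD.P3
import Pool.Agent.Helper21.PD.P4
import Pool.Agent.Helper21.PD.P5

/-!
# PD-6: points of degree prime to `p` on deformed systems of forms
-/

open MvPolynomial

namespace Pool.Agent.Helper21.PD

namespace P6

theorem exists_lt_exp (a : WithZero (Multiplicative ℤ)) :
    ∃ n : ℕ, ∀ A ≥ n, a < WithZero.exp (A : ℤ) := by
  by_cases ha : a = 0
  · refine ⟨0, fun A _ => ?_⟩
    rw [ha]
    exact WithZero.exp_pos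
  · refine ⟨(WithZero.log a).toNat + 1, fun A hA => ?_⟩
    rw [← WithZero.exp_log ha, WithZero.exp_lt_exp]
    have h1 := Int.self_le_toNat (WithZero.log a)
    have h2 : (((WithZero.log a).toNat + 1 : ℕ) : ℤ) ≤ (A : ℤ) := by exact_mod_cast hA
    push_cast at h2
    linarith

theorem totalDegree_eval₂_le {R K ι σ : Type} [CommRing R] [Field K] [Fintype ι]
    (φ : R →+* K) (pt : ι → MvPolynomial σ K) (hpt : ∀ i, (pt i).totalDegree ≤ 1)
    (G : MvPolynomial ι R) (e : ℕ) (hG : G.IsHomogeneous e) :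
    (eval₂ ((C : K →+* MvPolynomial σ K).comp φ) pt G).totalDegree ≤ e := by
  classical
  rw [eval₂_eq']
  refine (totalDegree_finsetSum_le (d := e) fun γ hγ => ?_)
  refine (totalDegree_mul _ _).trans ?_
  rw [RingHom.comp_apply, totalDegree_C, zero_add]
  refine (totalDegree_finsetProd _ _).trans ?_
  have h1 : ∀ i ∈ Finset.univ, (pt i ^ γ i).totalDegree ≤ γ i := fun i _ => by
    refine (totalDegree_pow _ _).trans ?_
    calc γ i * (pt i).totalDegree ≤ γ i * 1 := Nat.mul_le_mul_left _ (hpt i)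
      _ = γ i := mul_one _
  refine (Finset.sum_le_sum h1).trans ?_
  have h2 := hG (mem_support_iff.1 hγ)
  rw [← h2, Finsupp.weight_apply]
  rw [Finsupp.sum_fintype _ _ (by simp)]
  simp

end P6

theorem exists_point {κ : Type} [Field κ] {p : ℕ} [Fact p.Prime] [CharP κ p] {ι σ : Type}
    [Fintype ι] [Fintype σ] (hcard : Fintype.card σ < Fintype.card ι) (e : σ → ℕ)
    (he : ∀ m, 0 < e m) (hep : ∀ m, ¬ p ∣ e m) (G : σ → MvPolynomial ι (Polynomial κ))
    (hG : ∀ m, (G m).IsHomogeneous (e m)) :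
    ∃ A₀ : ℕ, ∀ A ≥ A₀, ∃ (E : Type) (_ : Field E) (f : Polynomial κ →+* E)
      (ν : Valuation E (WithZero (Multiplicative ℤ))) (c : ι → E) (b : σ → ι) (q : ℕ),
      Function.Injective f ∧
      (∃ j, c j ≠ 0) ∧
      (∀ m, eval₂ f c (G m) = f Polynomial.X ^ A * c (b m) ^ e m) ∧
      (∀ g, ν (f g) ≤ 1) ∧ 0 < q ∧ ¬ p ∣ q ∧ ν (f Polynomial.X) = WithZero.exp (-(q : ℤ)) ∧
      ∃ y : E, ν y = WithZero.exp (-1 : ℤ) := by
  classical
  have hp : p.Prime := Fact.out
  obtain ⟨emb⟩ : Nonempty (Option σ ↪ ι) := by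
    refine Function.Embedding.nonempty_of_card_le ?_
    rw [Fintype.card_option]
    exact hcard
  set F := RatFunc κ with hF
  set φ : Polynomial κ →+* F := algebraMap (Polynomial κ) F with hφ
  set pt : ι → MvPolynomial σ F :=
    Function.extend emb (fun o => Option.elim o 1 X) 0 with hpt
  have pt_none : pt (emb none) = 1 := by
    rw [hpt, emb.injective.extend_apply]
    rfl
  have pt_some : ∀ m, pt (emb (some m)) = X m := fun m => by
    rw [hpt, emb.injective.extend_apply]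
    rfl
  have pt_deg : ∀ i, (pt i).totalDegree ≤ 1 := by
    intro i
    by_cases h : ∃ o, emb o = i
    · obtain ⟨o, rfl⟩ := h
      rcases o with _ | m
      · rw [pt_none]; simp
      · rw [pt_some, totalDegree_X]
    · rw [hpt, Function.extend_apply' _ _ _ h]
      simp
  set H : σ → MvPolynomial σ F :=
    fun m => eval₂ ((C : F →+* MvPolynomial σ F).comp φ) pt (G m) with hH
  set ν₀ := RatFunc.inftyValuation κ with hν₀
  choose N hN using P6.exists_lt_exp
  refine ⟨Finset.univ.sup fun m => (H m).support.sup fun γ => N (ν₀ (coeff γ (H m))),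
    fun A hA => ?_⟩
  set h : σ → MvPolynomial σ F := fun m => C ((RatFunc.X : F)⁻¹ ^ A) * H m with hh
  have hdeg : ∀ m, (h m).totalDegree ≤ e m := fun m => by
    refine (totalDegree_mul _ _).trans ?_
    rw [totalDegree_C, zero_add]
    exact P6.totalDegree_eval₂_le φ pt pt_deg (G m) (e m) (hG m)
  have hX : ν₀ ((RatFunc.X : F)⁻¹ ^ A) = (WithZero.exp (A : ℤ))⁻¹ := by
    rw [map_pow, map_inv₀, hν₀, RatFunc.inftyValuation.X, inv_pow, ← WithZero.exp_nsmul]
    simp
  have hcoef : ∀ m γ, ν₀ (coeff γ (h m)) < 1 := fun m γ => by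
    rw [hh]
    simp only
    rw [coeff_C_mul, map_mul, hX]
    by_cases hγ : γ ∈ (H m).support
    · have h1 : N (ν₀ (coeff γ (H m))) ≤ A :=
        ((Finset.le_sup (f := fun γ => N (ν₀ (coeff γ (H m)))) hγ).trans
          (Finset.le_sup (f := fun m => (H m).support.sup fun γ => N (ν₀ (coeff γ (H m))))
            (Finset.mem_univ m))).trans hA
      have h2 := hN (ν₀ (coeff γ (H m))) A h1
      have h3 : (0 : WithZero (Multiplicative ℤ)) < WithZero.exp (A : ℤ) := WithZero.exp_pos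
      rw [inv_mul_lt_iff₀ h3, mul_one]
      exact h2
    · rw [notMem_support_iff.1 hγ, map_zero, mul_zero]
      exact zero_lt_one
  obtain ⟨hfd, hrank⟩ := finrank_quotient ν₀ e he h hdeg hcoef
  set J : Ideal (MvPolynomial σ F) := Ideal.span (Set.range fun m => X m ^ e m - h m) with hJ
  have hnd : ¬ p ∣ Module.finrank F (MvPolynomial σ F ⧸ J) := by
    rw [hrank, hp.prime.dvd_finsetProd_iff]
    rintro ⟨m, -, hm⟩
    exact hep m hm
  obtain ⟨I, hI, hnd'⟩ := exists_maximal (F := F) hnd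
  let _inst : Field ((MvPolynomial σ F ⧸ J) ⧸ I) := Ideal.Quotient.field I
  have _fd : FiniteDimensional F ((MvPolynomial σ F ⧸ J) ⧸ I) := by
    exact Module.Finite.of_surjective
      ((Ideal.Quotient.mkₐ F I).toLinearMap : (MvPolynomial σ F ⧸ J) →ₗ[F] _)
      (Ideal.Quotient.mkₐ_surjective F I)
  obtain ⟨ν, q, hq, hpq, hint, hνX, y, hy⟩ :=
    exists_place (κ := κ) (p := p) (E := (MvPolynomial σ F ⧸ J) ⧸ I) hnd'
  set π : MvPolynomial σ F →+* ((MvPolynomial σ F ⧸ J) ⧸ I) :=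
    (Ideal.Quotient.mk I).comp (Ideal.Quotient.mk J) with hπ
  have hπC : ∀ a : F, π (C a) = algebraMap F ((MvPolynomial σ F ⧸ J) ⧸ I) a := fun a => rfl
  have hπJ : ∀ m, π (X m) ^ e m = π (h m) := fun m => by
    rw [← map_pow, ← sub_eq_zero, ← map_sub]
    have : X m ^ e m - h m ∈ J := Ideal.subset_span ⟨m, rfl⟩
    rw [hπ, RingHom.comp_apply, Ideal.Quotient.eq_zero_iff_mem.2 this, map_zero]
  set f : Polynomial κ →+* ((MvPolynomial σ F ⧸ J) ⧸ I) :=
    (algebraMap F ((MvPolynomial σ F ⧸ J) ⧸ I)).comp φ with hf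
  have hfX : f Polynomial.X = algebraMap F ((MvPolynomial σ F ⧸ J) ⧸ I) RatFunc.X := by
    rw [hf, RingHom.comp_apply, hφ, RatFunc.algebraMap_X]
  have hfX0 : f Polynomial.X ≠ 0 := by
    rw [hfX, Ne, map_eq_zero]
    exact RatFunc.X_ne_zero
  refine ⟨(MvPolynomial σ F ⧸ J) ⧸ I, inferInstance, f, ν, fun i => π (pt i),
    fun m => emb (some m), q, ?_, ⟨emb none, ?_⟩, ?_, ?_, hq, hpq, ?_, y, hy⟩
  · exact (algebraMap F ((MvPolynomial σ F ⧸ J) ⧸ I)).injective.comp
      (IsFractionRing.injective (Polynomial κ) (RatFunc κ))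
  · simp only [pt_none, map_one]
    exact one_ne_zero
  · intro m
    have h1 : eval₂ f (fun i => π (pt i)) (G m) = π (H m) := by
      rw [hH]
      simp only
      rw [eval₂_comp_left π]
      rfl
    simp only [pt_some]
    rw [h1, hπJ, hh]
    simp only
    rw [map_mul, hπC, map_pow, map_inv₀, ← hfX, inv_pow, ← mul_assoc,
      mul_inv_cancel₀ (pow_ne_zero A hfX0), one_mul]
  · intro g
    exact hint g
  · rw [hfX]
    exact hνX

end Pool.Agent.Helper21.PD
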