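import Pool.Agent.Helper21.PD.SRing

/-! # Project PD, piece 7: the ring `S = E[s]/(s^p - t)` -/

namespace Pool.Agent.Helper21.PD

section RingS

variable {E : Type} [Field E]

namespace P7

open Polynomial

lemma cast_p {p : ℕ} [CharP E p] (t : E) : ((p : ℕ) : SRing p t) = 0 := by
  have h : ((p : ℕ) : E) = 0 := CharP.cast_eq_zero E p
  have : ofE p t ((p : ℕ) : E) = 0 := by rw [h, map_zero]
  rwa [map_natCast] at this

lemma s_pow (p : ℕ) (t : E) : sElt p t ^ p = ofE p t t := by
  have h := AdjoinRoot.eval₂_root (X ^ p - C t)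
  rw [eval₂_sub, eval₂_X_pow, eval₂_C, sub_eq_zero] at h
  exact h

/-- the dual number homomorphism -/
noncomputable def dualHom {p : ℕ} [CharP E p] (t : E) :
    SRing p t →+* TrivSqZeroExt (SRing p t) (SRing p t) :=
  AdjoinRoot.lift ((TrivSqZeroExt.inlHom (SRing p t) (SRing p t)).comp (ofE p t))
    (TrivSqZeroExt.inl (sElt p t) + TrivSqZeroExt.inr (ofE p t t⁻¹)) (by
      rw [eval₂_sub, eval₂_X_pow, eval₂_C, sub_eq_zero]
      ext
      · rw [TrivSqZeroExt.fst_pow, TrivSqZeroExt.fst_add, TrivSqZeroExt.fst_inl,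
          TrivSqZeroExt.fst_inr, add_zero, s_pow]
        rfl
      · rw [TrivSqZeroExt.snd_pow, nsmul_eq_mul, cast_p, zero_mul]
        rfl)

lemma dualHom_fst {p : ℕ} [CharP E p] (t : E) (a : SRing p t) : (dualHom t a).fst = a := by
  have : (TrivSqZeroExt.fstHom ℤ (SRing p t) (SRing p t)).toRingHom.comp (dualHom t) =
      RingHom.id _ := by
    apply AdjoinRoot.ringHom_ext
    · ext x
      rw [RingHom.comp_apply, RingHom.comp_apply, dualHom, AdjoinRoot.lift_of]
      rfl
    · rw [RingHom.comp_apply, dualHom, AdjoinRoot.lift_root]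
      simp
  exact RingHom.congr_fun this a

end P7

/-- The derivation of `S` over `E` with `δ s = 1/t`. -/
theorem exists_derivation {p : ℕ} [Fact p.Prime] [CharP E p] (t : E) (ht : t ≠ 0) :
    ∃ δ : Der (SRing p t), (∀ a : E, δ (ofE p t a) = 0) ∧ δ (sElt p t) = ofE p t t⁻¹ := by
  refine ⟨Der.ofHom (P7.dualHom t) (P7.dualHom_fst t), ?_, ?_⟩
  · intro a
    change (P7.dualHom t (ofE p t a)).snd = 0
    rw [P7.dualHom, AdjoinRoot.lift_of]
    rfl
  · change (P7.dualHom t (sElt p t)).snd = _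
    rw [P7.dualHom, AdjoinRoot.lift_root, TrivSqZeroExt.snd_add, TrivSqZeroExt.snd_inl,
      TrivSqZeroExt.snd_inr, zero_add]

/-- The Frobenius homomorphism `S → E`, `∑ a_k s^k ↦ ∑ a_k^p t^k`. -/
theorem exists_frobeniusHom {p : ℕ} [Fact p.Prime] [CharP E p] (t : E) :
    ∃ ρ : SRing p t →+* E, (∀ a : E, ρ (ofE p t a) = a ^ p) ∧ ρ (sElt p t) = t := by
  refine ⟨AdjoinRoot.lift (frobenius E p) t ?_, ?_, ?_⟩
  · rw [Polynomial.eval₂_sub, Polynomial.eval₂_X_pow, Polynomial.eval₂_C, frobenius_def, sub_self]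
  · intro a
    rw [AdjoinRoot.lift_of, frobenius_def]
  · rw [AdjoinRoot.lift_root]

/-- The valuation of `S`: the terms `a_k s^k` have different values. -/
theorem valuation_le_iff {p : ℕ} [Fact p.Prime] [CharP E p] (t : E)
    (ν : Valuation E (WithZero (Multiplicative ℤ))) (q : ℕ) (hq : ¬ p ∣ q)
    (ht : ν t = WithZero.exp (-(q : ℤ))) (ρ : SRing p t →+* E)
    (hρ : ∀ a : E, ρ (ofE p t a) = a ^ p) (hρs : ρ (sElt p t) = t) (a : Fin p → E)
    (y : WithZero (Multiplicative ℤ)) :
    ν (ρ (∑ k, ofE p t (a k) * sElt p t ^ (k : ℕ))) ≤ y ↔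
      ∀ k, ν (a k) ^ p * ν t ^ (k : ℕ) ≤ y := by
  classical
  have hp : p.Prime := Fact.out
  have e1 : ρ (∑ k, ofE p t (a k) * sElt p t ^ (k : ℕ)) = ∑ k, a k ^ p * t ^ (k : ℕ) := by
    rw [map_sum]
    refine Finset.sum_congr rfl (fun k _ => ?_)
    rw [map_mul, map_pow, hρ, hρs]
  rw [e1]
  have hv : ∀ k, ν (a k ^ p * t ^ (k : ℕ)) = ν (a k) ^ p * ν t ^ (k : ℕ) := by
    intro k
    rw [map_mul, map_pow, map_pow]
  set v : Fin p → WithZero (Multiplicative ℤ) := fun k => ν (a k) ^ p * ν t ^ (k : ℕ) with hvdef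
  constructor
  · intro h k
    have : Nonempty (Fin p) := ⟨⟨0, hp.pos⟩⟩
    obtain ⟨k0, _, hk0⟩ := Finset.exists_max_image Finset.univ v Finset.univ_nonempty
    have hmax : ∀ k, v k ≤ v k0 := fun k => hk0 k (Finset.mem_univ k)
    refine le_trans (hmax k) ?_
    by_cases hz : v k0 = 0
    · rw [hz]; exact zero_le
    · -- distinct values
      have hne : ∀ k, k ≠ k0 → v k < v k0 := by
        intro k hk
        refine lt_of_le_of_ne (hmax k) ?_
        intro heq
        have hak : ν (a k) ≠ 0 := by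
          intro h0
          apply hz
          rw [← heq, hvdef]
          simp only [h0]
          rw [zero_pow hp.ne_zero, zero_mul]
        have hak0 : ν (a k0) ≠ 0 := by
          intro h0
          apply hz
          rw [hvdef]
          simp only [h0]
          rw [zero_pow hp.ne_zero, zero_mul]
        simp only [hvdef] at heq
        rw [ht, ← WithZero.exp_log hak, ← WithZero.exp_log hak0, ← WithZero.exp_nsmul,
          ← WithZero.exp_nsmul, ← WithZero.exp_nsmul, ← WithZero.exp_nsmul, ← WithZero.exp_add,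
          ← WithZero.exp_add, WithZero.exp_inj] at heq
        simp only [nsmul_eq_mul] at heq
        have h2 : (p : ℤ) ∣ (q : ℤ) * ((k : ℕ) - (k0 : ℕ) : ℤ) := by
          refine ⟨WithZero.log (ν (a k)) - WithZero.log (ν (a k0)), ?_⟩
          linarith
        have hpp : Prime (p : ℤ) := Nat.prime_iff_prime_int.mp hp
        rcases hpp.dvd_or_dvd h2 with h3 | h3
        · exact hq (by exact_mod_cast h3)
        · have hk1 := k.2
          have hk2 := k0.2
          have h4 : ((k : ℕ) : ℤ) - (k0 : ℕ) = 0 := by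
            apply Int.eq_zero_of_abs_lt_dvd h3
            rw [abs_lt]
            constructor <;> omega
          apply hk
          apply Fin.ext
          omega
      have hsum : ν (∑ k, a k ^ p * t ^ (k : ℕ)) = v k0 := by
        rw [← Finset.add_sum_erase Finset.univ _ (Finset.mem_univ k0)]
        have h5 : ν (∑ x ∈ Finset.univ.erase k0, a x ^ p * t ^ (x : ℕ)) < ν (a k0 ^ p * t ^ (k0 : ℕ)) := by
          rw [hv k0]
          refine ν.map_sum_lt hz (fun i hi => ?_)
          rw [hv i]
          exact hne i (Finset.ne_of_mem_erase hi)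
        rw [ν.map_add_eq_of_lt_left h5, hv k0]
      rw [hsum] at h
      exact h
  · intro h
    exact ν.map_sum_le (fun k _ => by rw [hv k]; exact h k)

end RingS

end Pool.Agent.Helper21.PD
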