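import Mathlib
import Pool.Agent.Helper21.PD.Defs

/-! # The ring `S = E[s]/(s^p - t)` (project PD): common definitions for PD-7, PD-8, PD-9 -/

namespace Pool.Agent.Helper21.PD

section RingS

variable {E : Type} [Field E]

/-- `S = E[s]/(s^p - t)`. -/
abbrev SRing (p : ℕ) (t : E) : Type := AdjoinRoot (Polynomial.X ^ p - Polynomial.C t)

/-- The element `s` of `S`. -/
noncomputable abbrev sElt (p : ℕ) (t : E) : SRing p t :=
  AdjoinRoot.root (Polynomial.X ^ p - Polynomial.C t)

/-- The inclusion `E → S`. -/
noncomputable abbrev ofE (p : ℕ) (t : E) : E →+* SRing p t :=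
  AdjoinRoot.of (Polynomial.X ^ p - Polynomial.C t)

end RingS

end Pool.Agent.Helper21.PD
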