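import Mathlib
import Pool.Agent.Helper21.PD.Defs
import Pool.Agent.Helper21.PD.SRing

/-! # PD-8: the forms `G_k` -/

open MvPolynomial

namespace Pool.Agent.Helper21.PD

namespace P8

/-- `s ^ p = t` -/
theorem sElt_pow {E : Type} [Field E] (p : ℕ) (t : E) : sElt p t ^ p = ofE p t t := by
  have h := AdjoinRoot.eval₂_root (Polynomial.X ^ p - Polynomial.C t)
  rw [Polynomial.eval₂_sub, Polynomial.eval₂_pow, Polynomial.eval₂_X, Polynomial.eval₂_C] at h
  exact sub_eq_zero.1 h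

section split

variable {κ : Type} [Field κ] (p : ℕ)

/-- `q(s) = ∑ s^k q_k(s^p)`; this is `q_k` -/
noncomputable def part (k : ℕ) (q : Polynomial κ) : Polynomial κ :=
  ∑ n ∈ q.support, if n % p = k then Polynomial.monomial (n / p) (q.coeff n) else 0

variable {E : Type} [Field E] (f : Polynomial κ →+* E) (t : E)

/-- the homomorphism `κ[s] → S` -/
noncomputable def Phi : Polynomial κ →+* SRing p t :=
  Polynomial.eval₂RingHom ((ofE p t).comp (f.comp Polynomial.C)) (sElt p t)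

theorem Phi_C (a : κ) : Phi p f t (Polynomial.C a) = ofE p t (f (Polynomial.C a)) := by
  simp [Phi]

theorem Phi_X : Phi p f t Polynomial.X = sElt p t := by
  simp [Phi]

theorem Phi_monomial (hf : f Polynomial.X = t) (n : ℕ) (a : κ) :
    Phi p f t (Polynomial.monomial n a) =
      ofE p t (f (Polynomial.monomial (n / p) a)) * sElt p t ^ (n % p) := by
  rw [← Polynomial.C_mul_X_pow_eq_monomial, ← Polynomial.C_mul_X_pow_eq_monomial, map_mul,
    map_mul f, map_mul (ofE p t), map_pow, map_pow f, map_pow (ofE p t), Phi_C, Phi_X, hf,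
    ← sElt_pow, ← pow_mul, mul_assoc, ← pow_add, Nat.div_add_mod]

theorem Phi_eq (hp : 0 < p) (hf : f Polynomial.X = t) (q : Polynomial κ) :
    Phi p f t q = ∑ k : Fin p, ofE p t (f (part p k q)) * sElt p t ^ (k : ℕ) := by
  have h1 : Phi p f t q = ∑ n ∈ q.support, Phi p f t (Polynomial.monomial n (q.coeff n)) := by
    rw [← map_sum]
    congr 1
    exact q.as_sum_support
  rw [h1]
  unfold part
  simp only [map_sum, Finset.sum_mul]
  rw [Finset.sum_comm]
  refine Finset.sum_congr rfl (fun n _ => ?_)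
  rw [Phi_monomial p f t hf]
  have h2 : ∀ k : Fin p,
      ofE p t (f (if n % p = (k : ℕ) then Polynomial.monomial (n / p) (q.coeff n) else 0)) *
        sElt p t ^ (k : ℕ) =
      if k = (⟨n % p, Nat.mod_lt n hp⟩ : Fin p) then
        ofE p t (f (Polynomial.monomial (n / p) (q.coeff n))) * sElt p t ^ (n % p) else 0 := by
    intro k
    by_cases hk : n % p = (k : ℕ)
    · rw [if_pos hk, if_pos (Fin.ext hk.symm), hk]
    · rw [if_neg hk, if_neg (fun h => hk (by rw [h])), map_zero, map_zero, zero_mul]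
  rw [Finset.sum_congr rfl (fun k _ => h2 k), Finset.sum_ite_eq' Finset.univ, if_pos (Finset.mem_univ _)]

end split

section form

variable {κ : Type} [Field κ] (p : ℕ) {ι : Type}

/-- the linear form of `z^l x_j^(l)` -/
noncomputable def lin (w : ι × ℕ) : MvPolynomial (ι × Fin p) (Polynomial κ) :=
  ∑ k : Fin p, C (Polynomial.C (((k : ℕ).descFactorial w.2 : ℕ) : κ) * Polynomial.X ^ (k : ℕ)) *
    X (w.1, k)

theorem lin_hom (w : ι × ℕ) : (lin (κ := κ) p w).IsHomogeneous 1 := by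
  refine IsHomogeneous.sum _ _ _ (fun k _ => ?_)
  have := (isHomogeneous_C (ι × Fin p) (Polynomial.C (((k : ℕ).descFactorial w.2 : ℕ) : κ) *
    Polynomial.X ^ (k : ℕ))).mul (isHomogeneous_X (Polynomial κ) ((w.1, k) : ι × Fin p))
  simpa using this

/-- the form `Q` -/
noncomputable def form (v : MvPolynomial (ι × ℕ) (Polynomial κ)) :
    MvPolynomial (ι × Fin p) (Polynomial κ) :=
  ∑ γ ∈ v.support, C (Polynomial.X ^ ((p + 1) * (p - wt γ)) *
    (coeff γ v).comp (Polynomial.X ^ (p + 1))) * ∏ w ∈ γ.support, lin p w ^ γ w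

theorem form_hom (e : ℕ) (v : MvPolynomial (ι × ℕ) (Polynomial κ)) (hv : v.IsHomogeneous e) :
    (form p v).IsHomogeneous e := by
  refine IsHomogeneous.sum _ _ _ (fun γ hγ => ?_)
  have h1 : (∏ w ∈ γ.support, lin (κ := κ) p w ^ γ w).IsHomogeneous (∑ w ∈ γ.support, 1 * γ w) :=
    IsHomogeneous.prod _ _ _ (fun w _ => (lin_hom p w).pow (γ w))
  have h2 : ∑ w ∈ γ.support, 1 * γ w = e := by
    have := hv (mem_support_iff.1 hγ)
    rw [← this, Finsupp.weight_apply, Finsupp.sum]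
    exact Finset.sum_congr rfl (fun w _ => by simp)
  rw [h2] at h1
  have := (isHomogeneous_C (ι × Fin p) (Polynomial.X ^ ((p + 1) * (p - wt γ)) *
    (coeff γ v).comp (Polynomial.X ^ (p + 1)))).mul h1
  simpa using this

/-- the form `G_k` -/
noncomputable def gk (k : ℕ) (Q : MvPolynomial (ι × Fin p) (Polynomial κ)) :
    MvPolynomial (ι × Fin p) (Polynomial κ) :=
  ∑ γ ∈ Q.support, monomial γ (part p k (coeff γ Q))

theorem gk_hom (k : ℕ) (e : ℕ) (Q : MvPolynomial (ι × Fin p) (Polynomial κ))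
    (hQ : Q.IsHomogeneous e) : (gk p k Q).IsHomogeneous e := by
  refine IsHomogeneous.sum _ _ _ (fun γ hγ => ?_)
  refine isHomogeneous_monomial _ ?_
  have := hQ (mem_support_iff.1 hγ)
  rw [← this, Finsupp.weight_apply, Finsupp.degree_apply, Finsupp.sum]
  exact Finset.sum_congr rfl (fun w _ => by simp)

end form

section eval

variable {κ : Type} [Field κ] (p : ℕ) {ι : Type} {E : Type} [Field E]
  (f : Polynomial κ →+* E) (t : E)

theorem eval_gk (hp : 0 < p) (hf : f Polynomial.X = t)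
    (Q : MvPolynomial (ι × Fin p) (Polynomial κ)) (c : ι × Fin p → E) :
    eval₂ (Phi p f t) (fun u => ofE p t (c u)) Q =
      ∑ k : Fin p, ofE p t (eval₂ f c (gk p k Q)) * sElt p t ^ (k : ℕ) := by
  unfold gk
  rw [eval₂_eq]
  simp only [eval₂_sum, eval₂_monomial, map_sum, Finset.sum_mul]
  rw [Finset.sum_comm]
  refine Finset.sum_congr rfl (fun γ _ => ?_)
  rw [Phi_eq p f t hp hf, Finset.sum_mul]
  refine Finset.sum_congr rfl (fun k _ => ?_)
  rw [map_mul, Finsupp.prod, map_prod]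
  simp only [map_pow]
  ring

variable {t}

theorem delta_iter (δ : Der (SRing p t)) (h0 : ∀ a : E, δ (ofE p t a) = 0)
    (h1 : δ (sElt p t) = ofE p t t⁻¹) (c : Fin p → E) (l : ℕ) :
    (δ)^[l] (∑ k : Fin p, ofE p t (c k) * sElt p t ^ (k : ℕ)) =
      ∑ k : Fin p, ofE p t (c k * (((k : ℕ).descFactorial l : ℕ) : E) * t⁻¹ ^ l) *
        sElt p t ^ ((k : ℕ) - l) := by
  induction l with
  | zero => simp
  | succ l ih =>
    rw [Function.iterate_succ_apply', ih, Der.sum]
    refine Finset.sum_congr rfl (fun k _ => ?_)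
    rw [Der.mul, h0, mul_zero, add_zero, Der.pow, h1, Nat.descFactorial_succ, Nat.sub_sub]
    push_cast
    simp only [map_mul, map_pow, map_natCast]
    ring

theorem z_delta_iter (ht : t ≠ 0) (δ : Der (SRing p t)) (h0 : ∀ a : E, δ (ofE p t a) = 0)
    (h1 : δ (sElt p t) = ofE p t t⁻¹) (c : Fin p → E) (l : ℕ) :
    (ofE p t t * sElt p t) ^ l * (δ)^[l] (∑ k : Fin p, ofE p t (c k) * sElt p t ^ (k : ℕ)) =
      ∑ k : Fin p, (((k : ℕ).descFactorial l : ℕ) : SRing p t) * ofE p t (c k) *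
        sElt p t ^ (k : ℕ) := by
  rw [delta_iter p δ h0 h1, Finset.mul_sum]
  refine Finset.sum_congr rfl (fun k _ => ?_)
  rcases lt_or_ge (k : ℕ) l with hk | hk
  · rw [Nat.descFactorial_of_lt hk]
    simp
  · have h2 : ofE p t t ^ l * ofE p t t⁻¹ ^ l = 1 := by
      rw [← mul_pow, ← map_mul, mul_inv_cancel₀ ht, map_one, one_pow]
    have h3 : sElt p t ^ l * sElt p t ^ ((k : ℕ) - l) = sElt p t ^ (k : ℕ) := by
      rw [← pow_add, Nat.add_sub_cancel' hk]
    simp only [map_mul, map_pow, map_natCast]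
    calc _ = (ofE p t t ^ l * ofE p t t⁻¹ ^ l) * (sElt p t ^ l * sElt p t ^ ((k : ℕ) - l)) *
          ((((k : ℕ).descFactorial l : ℕ) : SRing p t) * ofE p t (c k)) := by ring
      _ = _ := by rw [h2, h3]; ring

theorem eval_lin (ht : t ≠ 0) (δ : Der (SRing p t)) (h0 : ∀ a : E, δ (ofE p t a) = 0)
    (h1 : δ (sElt p t) = ofE p t t⁻¹) (c : ι × Fin p → E) (w : ι × ℕ) :
    eval₂ (Phi p f t) (fun u => ofE p t (c u)) (lin p w) =
      (ofE p t t * sElt p t) ^ w.2 *
        (δ)^[w.2] (∑ k : Fin p, ofE p t (c (w.1, k)) * sElt p t ^ (k : ℕ)) := by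
  rw [z_delta_iter p ht δ h0 h1 (fun k => c (w.1, k)) w.2]
  unfold lin
  rw [eval₂_sum]
  refine Finset.sum_congr rfl (fun k _ => ?_)
  rw [eval₂_mul, eval₂_C, eval₂_X, map_mul, map_pow, Phi_C, Phi_X]
  simp only [map_natCast]
  ring

theorem F_eq (F : Polynomial κ →+* SRing p t)
    (hF : ∀ a : κ, F (Polynomial.C a) = ofE p t (f (Polynomial.C a)))
    (hX : F Polynomial.X = ofE p t t * sElt p t) (q : Polynomial κ) :
    Phi p f t (q.comp (Polynomial.X ^ (p + 1))) = F q := by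
  have h : (Phi p f t).comp (Polynomial.compRingHom (Polynomial.X ^ (p + 1))) = F := by
    refine Polynomial.ringHom_ext (fun a => ?_) ?_
    · rw [hF, RingHom.comp_apply, Polynomial.coe_compRingHom_apply, Polynomial.C_comp, Phi_C]
    · rw [hX, RingHom.comp_apply, Polynomial.coe_compRingHom_apply, Polynomial.X_comp, map_pow,
        Phi_X, pow_succ, sElt_pow]
  rw [← h]
  rfl

theorem eval_form (ht : t ≠ 0) (F : Polynomial κ →+* SRing p t)
    (hF : ∀ a : κ, F (Polynomial.C a) = ofE p t (f (Polynomial.C a)))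
    (hX : F Polynomial.X = ofE p t t * sElt p t)
    (δ : Der (SRing p t)) (h0 : ∀ a : E, δ (ofE p t a) = 0)
    (h1 : δ (sElt p t) = ofE p t t⁻¹) (v : MvPolynomial (ι × ℕ) (Polynomial κ)) (hw : HasWt p v)
    (c : ι × Fin p → E) :
    eval₂ (Phi p f t) (fun u => ofE p t (c u)) (form p v) =
      F Polynomial.X ^ p *
        ev F δ (fun j => ∑ k : Fin p, ofE p t (c (j, k)) * sElt p t ^ (k : ℕ)) v := by
  unfold form ev
  rw [eval₂_sum, coe_eval₂Hom, eval₂_eq, Finset.mul_sum]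
  refine Finset.sum_congr rfl (fun γ hγ => ?_)
  have hz : Phi p f t (Polynomial.X ^ (p + 1)) = F Polynomial.X := by
    rw [← F_eq p f F hF hX, Polynomial.X_comp]
  rw [eval₂_mul, eval₂_C, map_mul, F_eq p f F hF hX, pow_mul, map_pow, hz, eval₂_prod]
  have h3 : F Polynomial.X ^ p = F Polynomial.X ^ (p - wt γ) *
      ∏ w ∈ γ.support, (F Polynomial.X ^ w.2) ^ γ w := by
    have h4 : ∏ w ∈ γ.support, (F Polynomial.X ^ w.2) ^ γ w = F Polynomial.X ^ wt γ := by
      unfold wt
      rw [Finsupp.sum, ← Finset.prod_pow_eq_pow_sum]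
      exact Finset.prod_congr rfl (fun w _ => by rw [← pow_mul, mul_comm])
    rw [h4, ← pow_add, Nat.sub_add_cancel (hw γ hγ)]
  have h5 : ∀ w ∈ γ.support, eval₂ (Phi p f t) (fun u => ofE p t (c u)) (lin p w ^ γ w) =
      (F Polynomial.X ^ w.2) ^ γ w *
        ((δ)^[w.2] (∑ k : Fin p, ofE p t (c (w.1, k)) * sElt p t ^ (k : ℕ))) ^ γ w := by
    intro w _
    rw [eval₂_pow, eval_lin p f ht δ h0 h1, mul_pow, hX]
  rw [Finset.prod_congr rfl h5, Finset.prod_mul_distrib, h3]
  ring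

end eval

end P8

theorem exists_forms {κ : Type} [Field κ] {p : ℕ} [Fact p.Prime] [CharP κ p] {ι : Type}
    [Fintype ι] (e : ℕ) (v : MvPolynomial (ι × ℕ) (Polynomial κ)) (hv : v.IsHomogeneous e)
    (hw : HasWt p v) :
    ∃ G : Fin p → MvPolynomial (ι × Fin p) (Polynomial κ), (∀ k, (G k).IsHomogeneous e) ∧
      ∀ (E : Type) [Field E] [CharP E p] (f : Polynomial κ →+* E) (t : E),
        f Polynomial.X = t → t ≠ 0 → ∀ (F : Polynomial κ →+* SRing p t) (δ : Der (SRing p t)),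
        (∀ a : κ, F (Polynomial.C a) = ofE p t (f (Polynomial.C a))) →
        F Polynomial.X = ofE p t t * sElt p t →
        (∀ a : E, δ (ofE p t a) = 0) → δ (sElt p t) = ofE p t t⁻¹ →
        ∀ c : ι × Fin p → E,
          F Polynomial.X ^ p *
              ev F δ (fun j => ∑ k : Fin p, ofE p t (c (j, k)) * sElt p t ^ (k : ℕ)) v =
            ∑ k : Fin p, ofE p t (eval₂ f c (G k)) * sElt p t ^ (k : ℕ) := by
  have hp : 0 < p := (Fact.out : p.Prime).pos
  refine ⟨fun k => P8.gk p k (P8.form p v), fun k => P8.gk_hom p k e _ (P8.form_hom p e v hv), ?_⟩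
  intro E _ _ f t hf ht F δ hF hX h0 h1 c
  rw [← P8.eval_form p f ht F hF hX δ h0 h1 v hw c, P8.eval_gk p f t hp hf]

end Pool.Agent.Helper21.PD
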