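import Mathlib
import Pool.Agent.Helper21.PD.Defs
import Pool.Agent.Helper21.PD.SRing
import Pool.Agent.Helper21.PD.P6
import Pool.Agent.Helper21.PD.P7
import Pool.Agent.Helper21.PD.P8

open MvPolynomial

namespace Pool.Agent.Helper21.PD.P9

variable {E : Type} [Field E]

/-- The element `∑ a_k s^k` of `S`. -/
noncomputable def elt (p : ℕ) (t : E) (a : ℕ → E) : SRing p t :=
  ∑ k ∈ Finset.range p, ofE p t (a k) * sElt p t ^ k

theorem elt_eq_fin (p : ℕ) (t : E) (a : ℕ → E) :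
    elt p t a = ∑ k : Fin p, ofE p t (a k) * sElt p t ^ (k : ℕ) := by
  rw [elt, ← Fin.sum_univ_eq_sum_range (fun k => ofE p t (a k) * sElt p t ^ k)]

theorem sElt_pow (p : ℕ) (t : E) : sElt p t ^ p = ofE p t t := by
  have h := AdjoinRoot.eval₂_root (Polynomial.X ^ p - Polynomial.C t)
  rw [Polynomial.eval₂_sub, Polynomial.eval₂_pow, Polynomial.eval₂_X, Polynomial.eval₂_C,
    sub_eq_zero] at h
  exact h

/-- `y = ∑ a_k s^k` with `ν(a_k)^p ν(t)^k ≤ T`. -/
def Bd (p : ℕ) (t : E) (ν : Valuation E (WithZero (Multiplicative ℤ)))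
    (T : WithZero (Multiplicative ℤ)) (y : SRing p t) : Prop :=
  ∃ a : ℕ → E, y = elt p t a ∧ ∀ k < p, ν (a k) ^ p * ν t ^ k ≤ T

theorem Bd.der {p : ℕ} [Fact p.Prime] [CharP E p] {t : E} (ht : t ≠ 0)
    {ν : Valuation E (WithZero (Multiplicative ℤ))} {q : ℕ}
    (hνt : ν t = WithZero.exp (-(q : ℤ)))
    (δ : Der (SRing p t)) (hδE : ∀ a : E, δ (ofE p t a) = 0)
    (hδs : δ (sElt p t) = ofE p t t⁻¹) {T : WithZero (Multiplicative ℤ)} {y : SRing p t}
    (hy : Bd p t ν T y) : Bd p t ν (T * WithZero.exp ((q : ℤ) * (p + 1))) (δ y) := by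
  obtain ⟨a, rfl, ha⟩ := hy
  obtain ⟨p', hp'⟩ : ∃ p', p = p' + 1 := ⟨p - 1, by have := (Fact.out : p.Prime).pos; omega⟩
  refine ⟨fun k => if k < p' then ((k + 1 : ℕ) : E) * a (k + 1) * t⁻¹ else 0, ?_, ?_⟩
  · rw [elt, δ.sum, elt]
    have h1 : ∀ k, δ (ofE p t (a k) * sElt p t ^ k) =
        ofE p t (a k * (k : E) * t⁻¹) * sElt p t ^ (k - 1) := by
      intro k
      rw [δ.mul, hδE, δ.pow, hδs, map_mul, map_mul, map_natCast]
      ring
    rw [Finset.sum_congr rfl (fun k _ => h1 k)]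
    have h2 : Finset.range p = Finset.range (p' + 1) := by rw [hp']
    rw [h2, Finset.sum_range_succ', Finset.sum_range_succ]
    simp only [lt_self_iff_false, if_false, map_zero, zero_mul, add_zero, Nat.cast_zero, mul_zero,
      Nat.add_sub_cancel]
    refine Finset.sum_congr rfl fun k hk => ?_
    rw [if_pos (Finset.mem_range.1 hk)]
    congr 2
    ring
  · intro k hk
    by_cases hk' : k < p'
    · simp only [if_pos hk']
      have h1 : ν (((k + 1 : ℕ) : E)) ≤ 1 := by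
        have : ∀ n : ℕ, ν (n : E) ≤ 1 := by
          intro n
          induction n with
          | zero => simp
          | succ n ih => rw [Nat.cast_succ]; exact ν.map_add_le ih (by simp)
        exact this _
      have h2 := ha (k + 1) (by omega)
      have hνt0 : ν t ≠ 0 := by rw [hνt]; exact WithZero.exp_ne_zero
      calc ν (((k + 1 : ℕ) : E) * a (k + 1) * t⁻¹) ^ p * ν t ^ k
          = ν (((k + 1 : ℕ) : E)) ^ p * ((ν (a (k + 1)) ^ p * ν t ^ (k + 1)) *
              (ν t)⁻¹ ^ (p + 1)) := by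
            have h3 : ν t ^ (k + 1) * (ν t)⁻¹ ^ (p + 1) = (ν t)⁻¹ ^ p * ν t ^ k := by
              rw [pow_succ, pow_succ]
              calc ν t ^ k * ν t * ((ν t)⁻¹ ^ p * (ν t)⁻¹)
                  = (ν t)⁻¹ ^ p * ν t ^ k * (ν t * (ν t)⁻¹) := by ac_rfl
                _ = _ := by rw [mul_inv_cancel₀ hνt0, mul_one]
            rw [map_mul, map_mul, map_inv₀, mul_pow, mul_pow, mul_assoc (ν (a (k + 1)) ^ p), h3]
            simp only [mul_assoc]
        _ ≤ 1 * (T * WithZero.exp ((q : ℤ) * (p + 1))) := by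
            refine mul_le_mul' (pow_le_one' h1 _) (mul_le_mul' h2 ?_)
            rw [hνt, ← WithZero.exp_neg, neg_neg, ← WithZero.exp_nsmul, WithZero.exp_le_exp,
              nsmul_eq_mul]
            push_cast
            linarith
        _ = _ := one_mul _
    · simp only [if_neg hk', map_zero]
      rw [zero_pow (Fact.out : p.Prime).ne_zero, zero_mul]
      exact zero_le

theorem Bd.der_iterate {p : ℕ} [Fact p.Prime] [CharP E p] {t : E} (ht : t ≠ 0)
    {ν : Valuation E (WithZero (Multiplicative ℤ))} {q : ℕ}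
    (hνt : ν t = WithZero.exp (-(q : ℤ)))
    (δ : Der (SRing p t)) (hδE : ∀ a : E, δ (ofE p t a) = 0)
    (hδs : δ (sElt p t) = ofE p t t⁻¹) {T : WithZero (Multiplicative ℤ)} {y : SRing p t}
    (hy : Bd p t ν T y) (l : ℕ) :
    Bd p t ν (T * WithZero.exp (l * ((q : ℤ) * (p + 1)))) ((δ)^[l] y) := by
  induction l with
  | zero => simpa using hy
  | succ l ih =>
    rw [Function.iterate_succ_apply']
    have := ih.der ht hνt δ hδE hδs
    rw [mul_assoc, ← WithZero.exp_add] at this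
    convert this using 3
    push_cast
    ring

theorem Bd.le {p : ℕ} [Fact p.Prime] [CharP E p] {t : E}
    {ν : Valuation E (WithZero (Multiplicative ℤ))} {q : ℕ} (hq : ¬ p ∣ q)
    (hνt : ν t = WithZero.exp (-(q : ℤ))) (ρ : SRing p t →+* E)
    (hρ : ∀ a : E, ρ (ofE p t a) = a ^ p) (hρs : ρ (sElt p t) = t)
    {T : WithZero (Multiplicative ℤ)} {y : SRing p t}
    (hy : Bd p t ν T y) : ν (ρ y) ≤ T := by
  obtain ⟨a, rfl, ha⟩ := hy
  rw [elt_eq_fin]
  exact (valuation_le_iff t ν q hq hνt ρ hρ hρs (fun k : Fin p => a k) T).2 fun k => ha k k.2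

end P9

open P9

theorem exists_model {κ : Type} [Field κ] {p : ℕ} [Fact p.Prime] [CharP κ p] {ι σ : Type}
    [Fintype ι] [Fintype σ] (hcard : Fintype.card σ < Fintype.card ι) (e : σ → ℕ)
    (he : ∀ m, 0 < e m) (hep : ∀ m, e m < p)
    (v : σ → MvPolynomial (ι × ℕ) (Polynomial κ)) (hv : ∀ m, (v m).IsHomogeneous (e m))
    (hw : ∀ m, HasWt p (v m)) (B : ℕ) :
    ∃ (S : Type) (_ : CommRing S) (f : Polynomial κ →+* S) (δ : Der S)
      (w : Valuation S (WithZero (Multiplicative ℤ))) (x : ι → S) (W : ℤ),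
      0 < W ∧ (∀ g, δ (f g) = f (ddz κ g)) ∧ (∀ g, w (f g) ≤ 1) ∧
      w (f Polynomial.X) = WithZero.exp (-W) ∧
      (∀ s : Polynomial κ, s.coeff 0 ≠ 0 → w (f s) = 1) ∧
      (∃ j, WithZero.exp (-W) < w (x j)) ∧
      (∀ j (l : ℕ), w ((δ)^[l] (x j)) ≤ WithZero.exp (l * W)) ∧
      (∀ m (l : ℕ), w ((δ)^[l] (ev f δ x (v m))) ≤ WithZero.exp ((l - B) * W)) := by
  classical
  have hp : p.Prime := Fact.out
  choose G hG1 hG2 using fun m => exists_forms (p := p) (e m) (v m) (hv m) (hw m)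
  obtain ⟨A₀, hA₀⟩ := exists_point (κ := κ) (p := p) (ι := ι × Fin p) (σ := σ × Fin p)
    (by
      rw [Fintype.card_prod, Fintype.card_prod, Fintype.card_fin]
      exact Nat.mul_lt_mul_of_pos_right hcard hp.pos)
    (fun m => e m.1) (fun m => he m.1)
    (fun m h => absurd (Nat.le_of_dvd (he m.1) h) (by have := hep m.1; omega))
    (fun m => G m.1 m.2) (fun m => hG1 m.1 m.2)
  obtain ⟨E, _, f, ν, c, b, q, hf, ⟨j₀, hj₀⟩, hcG, hνf, hq0, hq, hνt, y₀, hy₀⟩ :=
    hA₀ (A₀ + (p + 1 + (∑ m, e m) + 2 * B)) (by omega)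
  set A := A₀ + (p + 1 + (∑ m, e m) + 2 * B) with hA
  have : CharP E p := charP_of_injective_ringHom hf p
  set t : E := f Polynomial.X with ht
  have hνt0 : ν t ≠ 0 := by rw [hνt]; exact WithZero.exp_ne_zero
  have ht0 : t ≠ 0 := by
    intro h
    rw [h, map_zero] at hνt0
    exact hνt0 rfl
  obtain ⟨δ, hδE, hδs⟩ := exists_derivation (p := p) t ht0
  obtain ⟨ρ, hρ, hρs⟩ := exists_frobeniusHom (p := p) t
  -- the homomorphism `κ[z] → S`
  let F : Polynomial κ →+* SRing p t :=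
    Polynomial.eval₂RingHom ((ofE p t).comp (f.comp Polynomial.C)) (ofE p t t * sElt p t)
  have hFC : ∀ a : κ, F (Polynomial.C a) = ofE p t (f (Polynomial.C a)) := fun a => by
    simp [F]
  have hFX : F Polynomial.X = ofE p t t * sElt p t := by simp [F]
  -- scaling
  obtain ⟨a₀, ⟨j₁, hj₁⟩, hmax⟩ : ∃ a₀ : ℤ, (∃ j : ι × Fin p,
      ν (c j) ^ p * ν t ^ (j.2 : ℕ) = WithZero.exp (-a₀)) ∧
      ∀ j : ι × Fin p, ν (c j) ^ p * ν t ^ (j.2 : ℕ) ≤ WithZero.exp (-a₀) := by
    obtain ⟨j₁, -, hj₁⟩ := Finset.exists_max_image (Finset.univ : Finset (ι × Fin p))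
      (fun j => ν (c j) ^ p * ν t ^ (j.2 : ℕ)) ⟨j₀, Finset.mem_univ _⟩
    have hne : ν (c j₁) ^ p * ν t ^ (j₁.2 : ℕ) ≠ 0 := by
      have h1 : ν (c j₀) ^ p * ν t ^ (j₀.2 : ℕ) ≠ 0 :=
        mul_ne_zero (pow_ne_zero _ ((Valuation.ne_zero_iff ν).2 hj₀)) (pow_ne_zero _ hνt0)
      exact fun h => h1 (le_zero_iff.1 (h ▸ hj₁ j₀ (Finset.mem_univ _)))
    refine ⟨-WithZero.log (ν (c j₁) ^ p * ν t ^ (j₁.2 : ℕ)), ⟨j₁, ?_⟩, fun j => ?_⟩
    · rw [neg_neg, WithZero.exp_log hne]
    · rw [neg_neg, WithZero.exp_log hne]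
      exact hj₁ j (Finset.mem_univ _)
  set μ : E := y₀ ^ (-(a₀ / (p : ℤ))) with hμ
  have hνμ : ν μ = WithZero.exp (a₀ / (p : ℤ)) := by
    rw [hμ, map_zpow₀, hy₀, ← WithZero.exp_zsmul]
    congr 1
    simp
  have hνμp : ν μ ^ p = WithZero.exp ((p : ℤ) * (a₀ / (p : ℤ))) := by
    rw [hνμ, ← WithZero.exp_nsmul, nsmul_eq_mul]
  set c' : ι × Fin p → E := fun j => μ * c j with hc'
  have hval : ∀ j : ι × Fin p, ν (c' j) ^ p * ν t ^ (j.2 : ℕ) =
      WithZero.exp ((p : ℤ) * (a₀ / (p : ℤ))) * (ν (c j) ^ p * ν t ^ (j.2 : ℕ)) := by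
    intro j
    rw [hc']
    simp only
    rw [map_mul, mul_pow, hνμp, mul_assoc]
  have hc'le : ∀ j : ι × Fin p, ν (c' j) ^ p * ν t ^ (j.2 : ℕ) ≤
      WithZero.exp (-(a₀ % (p : ℤ))) := by
    intro j
    rw [hval]
    calc _ ≤ WithZero.exp ((p : ℤ) * (a₀ / (p : ℤ))) * WithZero.exp (-a₀) :=
          mul_le_mul' le_rfl (hmax j)
      _ = _ := by
          rw [← WithZero.exp_add]
          congr 1
          have := Int.mul_ediv_add_emod a₀ (p : ℤ)
          linarith
  have hc'eq : ν (c' j₁) ^ p * ν t ^ (j₁.2 : ℕ) = WithZero.exp (-(a₀ % (p : ℤ))) := by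
    rw [hval, hj₁, ← WithZero.exp_add]
    congr 1
    have := Int.mul_ediv_add_emod a₀ (p : ℤ)
    linarith
  have hp0 : (0 : ℤ) < p := by exact_mod_cast hp.pos
  have hmod0 : 0 ≤ a₀ % (p : ℤ) := Int.emod_nonneg _ hp0.ne'
  have hmodp : a₀ % (p : ℤ) < p := Int.emod_lt_of_pos _ hp0
  have hq1 : (1 : ℤ) ≤ q := by exact_mod_cast hq0
  -- the point
  let x : ι → SRing p t := fun j => ∑ k : Fin p, ofE p t (c' (j, k)) * sElt p t ^ (k : ℕ)
  have hxBd : ∀ j, Bd p t ν 1 (x j) := by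
    intro j
    refine ⟨fun k => if h : k < p then c' (j, ⟨k, h⟩) else 0, ?_, ?_⟩
    · rw [elt_eq_fin]
      refine Finset.sum_congr rfl fun k _ => ?_
      simp only [Fin.is_lt, dif_pos, Fin.eta]
    · intro k hk
      simp only [dif_pos hk]
      calc _ ≤ WithZero.exp (-(a₀ % (p : ℤ))) := hc'le (j, ⟨k, hk⟩)
        _ ≤ 1 := by
          rw [← WithZero.exp_zero, WithZero.exp_le_exp]
          linarith
  have hvBd : ∀ m, Bd p t ν (WithZero.exp (-(B : ℤ) * ((q : ℤ) * (p + 1)))) (ev F δ x (v m)) := by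
    intro m
    have h1 := hG2 m E f t ht.symm ht0 F δ hFC hFX hδE hδs c'
    have h2 : ∀ k, eval₂ f c' (G m k) = t ^ A * c' (b (m, k)) ^ e m := by
      intro k
      have h3 : eval₂ f c' (G m k) = μ ^ e m * eval₂ f c (G m k) := by
        rw [eval₂_eq', eval₂_eq', Finset.mul_sum]
        refine Finset.sum_congr rfl fun γ hγ => ?_
        have h4 : ∑ i, γ i = e m := by
          have := hG1 m k (mem_support_iff.1 hγ)
          rw [← this, Finsupp.weight_apply, Finsupp.sum_fintype]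
          · simp
          · simp
        simp only [hc', mul_pow, Finset.prod_mul_distrib]
        rw [Finset.prod_pow_eq_pow_sum, h4]
        ring
      rw [h3, hcG (m, k)]
      simp only [hc']
      ring
    have hzp : F Polynomial.X ^ p = ofE p t (t ^ (p + 1)) := by
      rw [hFX, mul_pow, sElt_pow, ← map_pow, ← map_mul, ← pow_succ]
    have hpA : p + 1 ≤ A := by omega
    have h5 : ev F δ x (v m) = elt p t (fun k => if h : k < p then
        t ^ (A - (p + 1)) * c' (b (m, ⟨k, h⟩)) ^ e m else 0) := by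
      have h6 : IsUnit (F Polynomial.X ^ p) := by
        rw [hzp]
        exact (isUnit_iff_ne_zero.2 (pow_ne_zero _ ht0)).map _
      refine h6.mul_left_cancel ?_
      rw [h1, hzp, elt_eq_fin, Finset.mul_sum]
      refine Finset.sum_congr rfl fun k _ => ?_
      simp only [Fin.is_lt, dif_pos, Fin.eta]
      rw [h2, ← mul_assoc, ← map_mul]
      congr 2
      rw [← mul_assoc, ← pow_add]
      congr 2
      omega
    refine ⟨_, h5, ?_⟩
    intro k hk
    simp only [dif_pos hk]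
    set jb := b (m, ⟨k, hk⟩) with hjb
    have h7 : ν (c' jb) ^ p ≤ WithZero.exp ((q : ℤ) * p) := by
      have h8 := hc'le jb
      have h9 : ν (c' jb) ^ p * ν t ^ (jb.2 : ℕ) ≤ 1 := by
        refine h8.trans ?_
        rw [← WithZero.exp_zero, WithZero.exp_le_exp]
        linarith
      calc ν (c' jb) ^ p = (ν (c' jb) ^ p * ν t ^ (jb.2 : ℕ)) * (ν t ^ (jb.2 : ℕ))⁻¹ := by
            rw [mul_assoc, mul_inv_cancel₀ (pow_ne_zero _ hνt0), mul_one]
        _ ≤ 1 * (ν t ^ (jb.2 : ℕ))⁻¹ := mul_le_mul' h9 le_rfl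
        _ ≤ WithZero.exp ((q : ℤ) * p) := by
            rw [one_mul, hνt, ← WithZero.exp_nsmul, ← WithZero.exp_neg, WithZero.exp_le_exp,
              nsmul_eq_mul]
            have : ((jb.2 : ℕ) : ℤ) ≤ p := by exact_mod_cast jb.2.2.le
            nlinarith
    have hem : e m ≤ ∑ m, e m :=
      Finset.single_le_sum (f := e) (fun i _ => Nat.zero_le _) (Finset.mem_univ m)
    calc ν (t ^ (A - (p + 1)) * c' jb ^ e m) ^ p * ν t ^ k
        = (ν t ^ ((A - (p + 1)) * p)) * (ν (c' jb) ^ p) ^ e m * ν t ^ k := by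
          rw [map_mul, map_pow, map_pow, mul_pow, ← pow_mul, ← pow_mul, ← pow_mul,
            mul_comm (e m) p]
      _ ≤ (ν t ^ ((A - (p + 1)) * p)) * (WithZero.exp ((q : ℤ) * p)) ^ e m * 1 := by
          refine mul_le_mul' (mul_le_mul' le_rfl (pow_le_pow_left' h7 _)) ?_
          refine pow_le_one' ?_ _
          rw [hνt, ← WithZero.exp_zero, WithZero.exp_le_exp]
          linarith
      _ ≤ WithZero.exp (-(B : ℤ) * ((q : ℤ) * (p + 1))) := by
          rw [mul_one, hνt, ← WithZero.exp_nsmul, ← WithZero.exp_nsmul, ← WithZero.exp_add,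
            WithZero.exp_le_exp, nsmul_eq_mul, nsmul_eq_mul]
          have h10 : A - (p + 1) = A₀ + (∑ m, e m) + 2 * B := by omega
          rw [h10]
          have h11 : ((e m : ℕ) : ℤ) ≤ ((∑ m, e m : ℕ) : ℤ) := by exact_mod_cast hem
          have h12 : (1 : ℤ) ≤ p := by exact_mod_cast hp.one_le
          have h13 : (0 : ℤ) ≤ B := by positivity
          have h14 : (0 : ℤ) ≤ A₀ := by positivity
          push_cast at h11 ⊢
          have h15 : (0 : ℤ) ≤ (q : ℤ) * p := by positivity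
          nlinarith [mul_nonneg h15 h14, mul_nonneg h15 (sub_nonneg.2 h11),
            mul_nonneg (mul_nonneg (by linarith : (0:ℤ) ≤ q) h13) (by linarith : (0:ℤ) ≤ (p:ℤ) - 1)]
  have hW : (0 : ℤ) < (q : ℤ) * (p + 1) := by positivity
  have hwz : (ν.comap ρ) (F Polynomial.X) = WithZero.exp (-((q : ℤ) * (p + 1))) := by
    rw [Valuation.comap_apply, hFX, map_mul, hρ, hρs, map_mul, map_pow, hνt,
      ← WithZero.exp_nsmul, ← WithZero.exp_add]
    congr 1
    simp only [nsmul_eq_mul]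
    ring
  have hwC : ∀ a : κ, a ≠ 0 → (ν.comap ρ) (F (Polynomial.C a)) = 1 := by
    intro a ha
    rw [Valuation.comap_apply, hFC, hρ, map_pow]
    have h1 := hνf (Polynomial.C a)
    have h2 := hνf (Polynomial.C a⁻¹)
    have h3 : ν (f (Polynomial.C a)) * ν (f (Polynomial.C a⁻¹)) = 1 := by
      rw [← map_mul, ← map_mul, ← map_mul, mul_inv_cancel₀ ha, map_one, map_one, map_one]
    have h4 : ν (f (Polynomial.C a)) = 1 := by
      refine le_antisymm h1 ?_
      calc (1 : WithZero (Multiplicative ℤ)) =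
            ν (f (Polynomial.C a)) * ν (f (Polynomial.C a⁻¹)) := h3.symm
        _ ≤ ν (f (Polynomial.C a)) * 1 := mul_le_mul' le_rfl h2
        _ = _ := mul_one _
    rw [h4, one_pow]
  have hwz1 : (ν.comap ρ) (F Polynomial.X) < 1 := by
    rw [hwz, ← WithZero.exp_zero, WithZero.exp_lt_exp]
    linarith
  have hwF : ∀ g, (ν.comap ρ) (F g) ≤ 1 := by
    intro g
    induction g using Polynomial.induction_on' with
    | add g h hg hh =>
      rw [map_add]
      exact Valuation.map_add_le _ hg hh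
    | monomial n a =>
      rw [← Polynomial.C_mul_X_pow_eq_monomial, map_mul, map_mul, map_pow, map_pow]
      refine mul_le_one' ?_ (pow_le_one' hwz1.le _)
      by_cases ha : a = 0
      · rw [ha]; simp
      · exact (hwC a ha).le
  refine ⟨SRing p t, inferInstance, F, δ, ν.comap ρ, x, (q : ℤ) * (p + 1), hW, ?_, hwF, hwz, ?_,
    ⟨j₁.1, ?_⟩, ?_, ?_⟩
  · intro g
    have hδz : δ (F Polynomial.X) = 1 := by
      rw [hFX, δ.mul, hδE, hδs, mul_zero, add_zero, ← map_mul, mul_inv_cancel₀ ht0, map_one]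
    induction g using Polynomial.induction_on' with
    | add g h hg hh =>
      rw [map_add, δ.add, hg, hh, (ddz κ).add, map_add]
    | monomial n a =>
      rw [← Polynomial.C_mul_X_pow_eq_monomial, map_mul, δ.mul, hFC, hδE, mul_zero, add_zero,
        map_pow, δ.pow, hδz]
      change _ = F (Polynomial.derivative _)
      rw [Polynomial.derivative_C_mul, Polynomial.derivative_X_pow, map_mul, map_mul, map_pow,
        hFC, map_natCast, map_natCast]
      ring
  · intro s hs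
    have h1 : s = Polynomial.X * s.divX + Polynomial.C (s.coeff 0) := (Polynomial.X_mul_divX_add s).symm
    rw [h1, map_add, map_mul, add_comm]
    have h2 := hwC (s.coeff 0) hs
    have h3 : (ν.comap ρ) (F Polynomial.X * F s.divX) < 1 := by
      rw [map_mul]
      calc _ ≤ (ν.comap ρ) (F Polynomial.X) * 1 := mul_le_mul' le_rfl (hwF _)
        _ < 1 := by rwa [mul_one]
    rw [← h2] at h3 ⊢
    exact Valuation.map_add_eq_of_lt_left _ h3
  · by_contra hcon
    rw [not_lt] at hcon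
    have h1 := (valuation_le_iff t ν q hq hνt ρ hρ hρs (fun k => c' (j₁.1, k)) _).1 hcon j₁.2
    have h2 : ν (c' j₁) ^ p * ν t ^ (j₁.2 : ℕ) ≤ WithZero.exp (-((q : ℤ) * (p + 1))) := h1
    rw [hc'eq, WithZero.exp_le_exp] at h2
    nlinarith
  · intro j l
    have h1 := ((hxBd j).der_iterate ht0 hνt δ hδE hδs l).le hq hνt ρ hρ hρs
    rw [one_mul] at h1
    exact h1
  · intro m l
    have h1 := ((hvBd m).der_iterate ht0 hνt δ hδE hδs l).le hq hνt ρ hρ hρs
    rw [← WithZero.exp_add] at h1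
    rw [Valuation.comap_apply]
    refine h1.trans ?_
    rw [WithZero.exp_le_exp]
    linarith

end Pool.Agent.Helper21.PD
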