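import Mathlib
import Pool.Agent.Helper21.PD.Defs
import Pool.Agent.Helper21.PD.P2
import Pool.Agent.Helper21.PD.P9

open MvPolynomial

namespace Pool.Agent.Helper21.PD.P10

variable {κ : Type} [Field κ] {ι : Type} {S : Type} [CommRing S]


/-- bound for the value of a differential polynomial of weight at most `Ω` at an integral point -/
theorem ev_le (f : Polynomial κ →+* S) (δ : Der S) (w : Valuation S (WithZero (Multiplicative ℤ)))
    (x : ι → S) (W : ℤ) (hW : 0 < W) (hf : ∀ g, w (f g) ≤ 1)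
    (hx : ∀ j (l : ℕ), w ((δ)^[l] (x j)) ≤ WithZero.exp (l * W)) (Ω : ℕ)
    (v : MvPolynomial (ι × ℕ) (Polynomial κ)) (hv : HasWt Ω v) :
    w (ev f δ x v) ≤ WithZero.exp (Ω * W) := by
  classical
  conv_lhs => rw [v.as_sum, map_sum]
  refine w.map_sum_le fun γ hγ => ?_
  rw [MvPolynomial.monomial_eq, map_mul, ev_C, map_mul, Finsupp.prod, map_prod, map_prod]
  have h1 : ∏ v ∈ γ.support, w (ev f δ x (X v ^ γ v)) ≤
      ∏ v ∈ γ.support, WithZero.exp ((γ v : ℤ) * v.2 * W) := by
    refine Finset.prod_le_prod' fun v _ => ?_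
    rw [map_pow, map_pow, ev_X]
    calc w ((δ)^[v.2] (x v.1)) ^ γ v ≤ (WithZero.exp ((v.2 : ℤ) * W)) ^ γ v :=
          pow_le_pow_left' (hx _ _) _
      _ = WithZero.exp ((γ v : ℤ) * v.2 * W) := by
          rw [← WithZero.exp_nsmul]
          congr 1
          simp only [nsmul_eq_mul]
          ring
  have h2 : ∏ v ∈ γ.support, WithZero.exp ((γ v : ℤ) * v.2 * W) =
      WithZero.exp ((wt γ : ℤ) * W) := by
    rw [wt, Finsupp.sum, Nat.cast_sum, Finset.sum_mul]
    induction γ.support using Finset.induction_on with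
    | empty => simp
    | insert a s ha ih =>
      rw [Finset.prod_insert ha, Finset.sum_insert ha, WithZero.exp_add, ih]
      push_cast
      rfl
  calc w (f (coeff γ v)) * ∏ v ∈ γ.support, w (ev f δ x (X v ^ γ v))
      ≤ 1 * WithZero.exp ((wt γ : ℤ) * W) := by
        rw [← h2]
        exact mul_le_mul' (hf _) h1
    _ ≤ WithZero.exp (Ω * W) := by
        rw [one_mul, WithZero.exp_le_exp]
        have := hv γ hγ
        gcongr

end P10

open P10

theorem not_all_nilpotent {R : Type} [CommRing R] [IsDomain R] [CharZero R] (d : Der R)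
    {ι σ : Type} [Fintype ι] [Fintype σ] (hcard : Fintype.card σ < Fintype.card ι)
    (u : σ → MvPolynomial (ι × ℕ) R) (e : σ → ℕ) (he : ∀ m, 0 < e m)
    (hu : ∀ m, (u m).IsHomogeneous (e m)) (r : R) (hr : r ≠ 0) (N : ℕ) :
    ¬ ∀ j : ι, C r * X (j, 0) ^ N ∈ diffIdeal d u := by
  classical
  intro h
  obtain ⟨M, Ω, H⟩ := exists_transfer d u e hu r hr N h
  obtain ⟨p, κ, _, _, hp, hpN, v, s, a, g, hv, hs, hwv, hwa, hwg, hid⟩ :=
    H (Ω + M + N + 1) (Ω + ∑ m, e m)
  have : Fact p.Prime := ⟨hp⟩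
  obtain ⟨S, _, f, δ, w, x, W, hW, hδ, hf, hfX, hfs, ⟨j, hj⟩, hx, hvx⟩ :=
    exists_model (p := p) hcard e he (fun m => by
      have := Finset.single_le_sum (f := e) (fun i _ => Nat.zero_le _) (Finset.mem_univ m)
      omega) v hv (fun m γ hγ => (hwv m γ hγ).trans (by omega)) (Ω + M + N + 1)
  have key := congrArg (ev f δ x) (hid j)
  have hδ' : ∀ a, f (ddz κ a) = δ (f a) := fun a => (hδ a).symm
  rw [map_mul, ev_C, map_pow, ev_X, map_add, map_mul, ev_C, map_pow, map_sum] at key
  simp only [Function.iterate_zero, id_eq] at key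
  have h1 : w (f s * x j ^ N) ≤ WithZero.exp (-((N : ℤ) + 1) * W) := by
    rw [key]
    refine w.map_add_le (w.map_sum_le fun m _ => ?_) ?_
    · rw [map_sum]
      refine w.map_sum_le fun l hl => ?_
      rw [map_mul, map_mul, ev_dext_iterate f δ x (ddz κ) hδ']
      calc w (ev f δ x (a j m l)) * w ((δ)^[l] (ev f δ x (v m)))
          ≤ WithZero.exp (Ω * W) *
            WithZero.exp (((l : ℤ) - ((Ω + M + N + 1 : ℕ) : ℤ)) * W) :=
            mul_le_mul' (ev_le f δ w x W hW hf hx Ω _ (hwa j m l)) (hvx m l)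
        _ ≤ WithZero.exp (-((N : ℤ) + 1) * W) := by
            rw [← WithZero.exp_add, WithZero.exp_le_exp]
            have := Finset.mem_range.1 hl
            push_cast
            nlinarith
    · rw [map_mul, map_pow, hfX, ← WithZero.exp_nsmul]
      calc WithZero.exp ((Ω + M + N + 1) • -W) * w (ev f δ x (g j))
          ≤ WithZero.exp ((Ω + M + N + 1) • -W) * WithZero.exp (Ω * W) :=
            mul_le_mul' le_rfl (ev_le f δ w x W hW hf hx Ω _ (hwg j))
        _ ≤ WithZero.exp (-((N : ℤ) + 1) * W) := by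
            rw [← WithZero.exp_add, WithZero.exp_le_exp, nsmul_eq_mul]
            push_cast
            nlinarith
  rw [map_mul, hfs s hs, one_mul, map_pow] at h1
  have h2 : WithZero.exp (-((N : ℤ)) * W) ≤ w (x j) ^ N := by
    calc WithZero.exp (-((N : ℤ)) * W) = (WithZero.exp (-W)) ^ N := by
          rw [← WithZero.exp_nsmul, nsmul_eq_mul]
          congr 1
          ring
      _ ≤ w (x j) ^ N := pow_le_pow_left' hj.le _
  have h3 := h2.trans h1
  rw [WithZero.exp_le_exp] at h3
  nlinarith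

end Pool.Agent.Helper21.PD
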