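import Pool.Agent.Helper21.PD.Defs

/-!
# PD-11: minimal primes over differential ideals of `ℚ`-algebras are differential
-/

namespace Pool.Agent.Helper21.PD

namespace P11

/-- Leibniz formula for iterated derivations. -/
theorem iterate_mul {A : Type*} [CommRing A] (D : Der A) (f g : A) (n : ℕ) :
    (D)^[n] (f * g) = ∑ ij ∈ Finset.HasAntidiagonal.antidiagonal n,
      (n.choose ij.1 : A) * ((D)^[ij.1] f * (D)^[ij.2] g) := by
  induction n with
  | zero => simp
  | succ n ih =>
    rw [Function.iterate_succ_apply', ih, D.sum,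
      Finset.sum_antidiagonal_choose_succ_mul (fun i j => (D)^[i] f * (D)^[j] g) n,
      ← Finset.sum_add_distrib]
    refine Finset.sum_congr rfl fun ij hij => ?_
    have h : n.choose ij.2 = n.choose ij.1 := by
      rw [Finset.HasAntidiagonal.mem_antidiagonal] at hij
      rw [← hij]
      exact Nat.choose_symm_add.symm
    rw [D.mul, D.mul, D.natCast, h]
    simp only [Function.iterate_succ_apply']
    ring

end P11

theorem minimalPrimes_differential {A : Type*} [CommRing A] [Algebra ℚ A] (D : Der A)
    (I : Ideal A) (hI : ∀ f ∈ I, D f ∈ I) (P : Ideal A) (hP : P ∈ I.minimalPrimes) :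
    ∀ f ∈ P, D f ∈ P := by
  classical
  obtain ⟨⟨hPp, hIP⟩, hmin⟩ := hP
  let Q : Ideal A :=
    { carrier := {f | ∀ k : ℕ, (D)^[k] f ∈ P}
      add_mem' := by
        intro a b ha hb k
        rw [D.iterate_add]
        exact P.add_mem (ha k) (hb k)
      zero_mem' := by
        intro k
        rw [D.iterate_zero]
        exact P.zero_mem
      smul_mem' := by
        intro c f hf k
        rw [smul_eq_mul, P11.iterate_mul]
        exact P.sum_mem fun ij _ => P.mul_mem_left _ (P.mul_mem_left _ (hf ij.2)) }
  have hQ : ∀ f, f ∈ Q ↔ ∀ k : ℕ, (D)^[k] f ∈ P := fun f => Iff.rfl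
  have hQP : Q ≤ P := fun f hf => by simpa using (hQ f).1 hf 0
  have hIQ : I ≤ Q := by
    intro f hf
    rw [hQ]
    intro k
    apply hIP
    induction k with
    | zero => simpa using hf
    | succ k ih =>
      rw [Function.iterate_succ_apply']
      exact hI _ ih
  have hQprime : Q.IsPrime := by
    refine ⟨fun h => hPp.ne_top (top_le_iff.1 (h ▸ hQP)), ?_⟩
    intro f g hfg
    by_contra hcon
    rw [not_or] at hcon
    obtain ⟨hf, hg⟩ := hcon
    have hf' : ∃ k : ℕ, (D)^[k] f ∉ P := by
      by_contra h
      push Not at h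
      exact hf ((hQ f).2 h)
    have hg' : ∃ k : ℕ, (D)^[k] g ∉ P := by
      by_contra h
      push Not at h
      exact hg ((hQ g).2 h)
    have ha := Nat.find_spec hf'
    have ha' := fun {m} => Nat.find_min (H := hf') (m := m)
    have hb := Nat.find_spec hg'
    have hb' := fun {m} => Nat.find_min (H := hg') (m := m)
    generalize Nat.find hf' = a at ha ha'
    generalize Nat.find hg' = b at hb hb'
    have h1 := (hQ _).1 hfg (a + b)
    rw [P11.iterate_mul, ← Finset.add_sum_erase _ _
      (Finset.HasAntidiagonal.mem_antidiagonal.2 (rfl : (a, b).1 + (a, b).2 = a + b))] at h1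
    have h2 : ∑ ij ∈ (Finset.HasAntidiagonal.antidiagonal (a + b)).erase (a, b),
        (((a + b).choose ij.1 : A) * ((D)^[ij.1] f * (D)^[ij.2] g)) ∈ P := by
      refine P.sum_mem fun ij hij => P.mul_mem_left _ ?_
      rw [Finset.mem_erase, Finset.HasAntidiagonal.mem_antidiagonal] at hij
      obtain ⟨hne, hsum⟩ := hij
      rcases lt_trichotomy ij.1 a with h | h | h
      · refine P.mul_mem_right _ ?_
        by_contra hc
        exact ha' h hc
      · exfalso
        apply hne
        ext
        · exact h
        · simp only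
          omega
      · refine P.mul_mem_left _ ?_
        by_contra hc
        exact hb' (by omega : ij.2 < b) hc
    have h3 := (P.add_mem_iff_left h2).1 h1
    have hunit : IsUnit (((a + b).choose a : ℕ) : A) := by
      have h4 : (((a + b).choose a : ℕ) : A) = algebraMap ℚ A (((a + b).choose a : ℕ) : ℚ) := by
        rw [map_natCast]
      rw [h4]
      refine IsUnit.map _ (isUnit_iff_ne_zero.2 ?_)
      exact_mod_cast (Nat.choose_pos (Nat.le_add_right a b)).ne'
    rcases hPp.mem_or_mem h3 with h | h
    · exact hPp.ne_top (P.eq_top_of_isUnit_mem h hunit)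
    · rcases hPp.mem_or_mem h with h | h
      · exact ha h
      · exact hb h
  intro f hf
  have := hmin ⟨hQprime, hIQ⟩ hQP hf
  exact ((hQ f).1 this 1)

end Pool.Agent.Helper21.PD
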