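import Mathlib
import Pool.Agent.Helper21.PD.Defs

/-!
PD-12 (MP_2c9d0b_al): growth of the derivatives of a differentially algebraic element.
-/

open MvPolynomial

namespace Pool.Agent.Helper21.PD

namespace P12

variable {L : Type} [Field L]

theorem alg_iff (E : Subfield L) (x : L) :
    IsAlgebraic E x ↔ ∃ p : Polynomial L, p ≠ 0 ∧ (∀ n, p.coeff n ∈ E) ∧ p.eval x = 0 := by
  constructor
  · rintro ⟨p, hp, hx⟩
    refine ⟨p.map (algebraMap E L), ?_, ?_, ?_⟩
    · exact (Polynomial.map_ne_zero_iff (algebraMap E L).injective).2 hp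
    · intro n
      rw [Polynomial.coeff_map]
      exact (p.coeff n).2
    · rw [Polynomial.eval_map]
      exact hx
  · rintro ⟨p, hp, hc, hx⟩
    have h1 : p ∈ Polynomial.lifts (algebraMap E L) := by
      rw [Polynomial.lifts_iff_coeff_lifts]
      intro n
      exact ⟨⟨p.coeff n, hc n⟩, rfl⟩
    obtain ⟨q, hq⟩ := (Polynomial.mem_lifts p).1 h1
    refine ⟨q, ?_, ?_⟩
    · rintro rfl
      rw [Polynomial.map_zero] at hq
      exact hp hq.symm
    · rw [Polynomial.aeval_def, ← Polynomial.eval_map, hq, hx]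

theorem alg_mono {E E' : Subfield L} (h : E ≤ E') {x : L} (hx : IsAlgebraic E x) :
    IsAlgebraic E' x := by
  rw [alg_iff] at hx ⊢
  obtain ⟨p, hp, hc, hx⟩ := hx
  exact ⟨p, hp, fun n => h (hc n), hx⟩

/-- the algebraic closure of a subfield -/
noncomputable def ac (E : Subfield L) : Subfield L := (algebraicClosure E L).toSubfield

theorem mem_ac {E : Subfield L} {x : L} : x ∈ ac E ↔ IsAlgebraic E x :=
  mem_algebraicClosure_iff

theorem le_ac (E : Subfield L) : E ≤ ac E := fun x hx =>
  mem_ac.2 (isAlgebraic_algebraMap (⟨x, hx⟩ : E))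

theorem ac_mono {E E' : Subfield L} (h : E ≤ E') : ac E ≤ ac E' := fun _ hx =>
  mem_ac.2 (alg_mono h (mem_ac.1 hx))

theorem der_inv (D : Der L) {a : L} (ha : a ≠ 0) : D a⁻¹ = -(D a * a⁻¹ * a⁻¹) := by
  have h := D.mul a a⁻¹
  rw [mul_inv_cancel₀ ha, D.one] at h
  have h2 : a * D a⁻¹ = -(a⁻¹ * D a) := by linear_combination -h
  calc D a⁻¹ = a⁻¹ * (a * D a⁻¹) := by rw [← mul_assoc, inv_mul_cancel₀ ha, one_mul]
    _ = _ := by rw [h2]; ring

/-- the derivative of a closure -/
theorem der_closure (D : Der L) (S : Set L) (G : Subfield L) (hS : S ⊆ G)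
    (h : ∀ a ∈ S, D a ∈ G) (x : L) (hx : x ∈ Subfield.closure S) : D x ∈ G := by
  have hSG : Subfield.closure S ≤ G := Subfield.closure_le.2 hS
  induction hx using Subfield.closure_induction with
  | mem a ha => exact h a ha
  | one => rw [D.one]; exact G.zero_mem
  | add a b ha hb iha ihb => rw [D.add]; exact G.add_mem iha ihb
  | neg a ha iha => rw [D.neg]; exact G.neg_mem iha
  | inv a ha iha =>
    by_cases h0 : a = 0
    · rw [h0, inv_zero, D.zero]; exact G.zero_mem
    · rw [der_inv D h0]
      exact G.neg_mem (G.mul_mem (G.mul_mem iha (G.inv_mem (hSG ha))) (G.inv_mem (hSG ha)))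
  | mul a b ha hb iha ihb =>
    rw [D.mul]
    exact G.add_mem (G.mul_mem (hSG ha) ihb) (G.mul_mem (hSG hb) iha)

/-- the derivative of the value of a polynomial -/
theorem der_eval (D : Der L) (p : Polynomial L) (x : L) :
    D (p.eval x) = p.sum (fun n a => D a * x ^ n) + p.derivative.eval x * D x := by
  rw [Polynomial.eval_eq_sum, Polynomial.sum_def, D.sum, Polynomial.derivative_eval,
    Polynomial.sum_def, Polynomial.sum_def, Finset.sum_mul, ← Finset.sum_add_distrib]
  refine Finset.sum_congr rfl fun n _ => ?_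
  rw [D.mul, D.pow]
  ring

/-- the derivatives of elements algebraic over `E` -/
theorem der_ac [CharZero L] (D : Der L) (E E' : Subfield L) (hE : E ≤ E')
    (h : ∀ a ∈ E, D a ∈ ac E') (x : L) (hx : x ∈ ac E) : D x ∈ ac E' := by
  have hx' : IsAlgebraic E x := mem_ac.1 hx
  have hint : IsIntegral E x := hx'.isIntegral
  set q := minpoly E x with hq
  set p : Polynomial L := q.map (algebraMap E L) with hp
  have hc : ∀ n, p.coeff n ∈ E := by
    intro n
    rw [hp, Polynomial.coeff_map]
    exact (q.coeff n).2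
  have hev : p.eval x = 0 := by
    rw [hp, Polynomial.eval_map]
    exact minpoly.aeval E x
  have hder : p.derivative.eval x ≠ 0 := by
    rw [hp, Polynomial.derivative_map, Polynomial.eval_map]
    have hsep : q.Separable := (minpoly.irreducible hint).separable
    have := hsep.aeval_derivative_ne_zero (x := x) (minpoly.aeval E x)
    exact this
  have hxE' : x ∈ ac E' := ac_mono hE hx
  have h0 := der_eval D p x
  rw [hev, D.zero] at h0
  have h1 : D x = -(p.sum (fun n a => D a * x ^ n)) * (p.derivative.eval x)⁻¹ := by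
    field_simp
    linear_combination -h0
  rw [h1]
  refine (ac E').mul_mem ((ac E').neg_mem ?_) ((ac E').inv_mem ?_)
  · rw [Polynomial.sum_def]
    exact (ac E').sum_mem fun n _ => (ac E').mul_mem (h _ (hc n)) ((ac E').pow_mem hxE' n)
  · rw [Polynomial.eval_eq_sum, Polynomial.sum_def]
    refine (ac E').sum_mem fun n _ => (ac E').mul_mem ?_ ((ac E').pow_mem hxE' n)
    rw [Polynomial.coeff_derivative]
    refine (ac E').mul_mem (le_ac E' (hE (hc _))) ?_
    exact (ac E').add_mem (natCast_mem _ _) (ac E').one_mem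

end P12

open P12

theorem exists_growth {L : Type} [Field L] [CharZero L] (D : Der L) (K : Subfield L)
    (hK : ∀ a ∈ K, D a ∈ K) {τ : Type} [Finite τ] (t : τ → L) (y : L)
    (h : ¬ AlgebraicIndependent (dClosure D K t) (fun k : ℕ => (D)^[k] y)) :
    ∃ (c : ℕ) (Z : Finset L), ∀ k : ℕ, IsAlgebraic (dClosureLE D K t (k + c) Z) ((D)^[k] y) := by
  classical
  -- the order
  have h1 : ∃ r : ℕ, IsAlgebraic (Algebra.adjoin (dClosure D K t)
      ((fun k : ℕ => (D)^[k] y) '' Set.Iio r)) ((D)^[r] y) := by
    by_contra hcon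
    push Not at hcon
    apply h
    have h2 : ∀ r : ℕ, AlgebraicIndepOn (dClosure D K t) (fun k : ℕ => (D)^[k] y)
        (Set.Iio r) := by
      intro r
      induction r with
      | zero =>
        have : IsEmpty (Set.Iio 0) := by
          rw [Set.isEmpty_coe_sort]
          ext x
          simp
        exact algebraicIndependent_empty_type_iff.2 (algebraMap (dClosure D K t) L).injective
      | succ r ih =>
        have h3 := ih.insert (hcon r)
        have h4 : insert r (Set.Iio r) = Set.Iio (r + 1) := by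
          ext x
          simp only [Set.mem_insert_iff, Set.mem_Iio]
          omega
        rwa [h4] at h3
    refine algebraicIndependent_of_finite_type fun s hs => ?_
    obtain ⟨M, hM⟩ := hs.bddAbove
    exact (h2 (M + 1)).mono fun x hx => Nat.lt_succ_of_le (hM hx)
  obtain ⟨r, hr⟩ := h1
  set Z : Finset L := (Finset.range r).image (fun k : ℕ => (D)^[k] y) with hZ
  have hmono : Monotone fun c : ℕ => dClosureLE D K t c Z := by
    intro c c' hc
    refine Subfield.closure_mono ?_
    refine Set.union_subset_union_left _ (Set.union_subset_union_right _ (Set.image_mono ?_))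
    intro v hv
    exact le_trans hv hc
  set U : Subfield L := ⨆ c : ℕ, dClosureLE D K t c Z with hU
  have memU : ∀ x, x ∈ U ↔ ∃ c, x ∈ dClosureLE D K t c Z := fun x =>
    Subfield.mem_iSup_of_directed hmono.directed_le
  have hFU : dClosure D K t ≤ U := by
    refine Subfield.closure_le.2 ?_
    rintro x (hx | ⟨v, rfl⟩)
    · exact (memU x).2 ⟨0, Subfield.subset_closure (Or.inl (Or.inl hx))⟩
    · exact (memU _).2 ⟨v.2, Subfield.subset_closure (Or.inl (Or.inr ⟨v, le_refl v.2, rfl⟩))⟩
  have hZmem : ∀ k < r, ∀ c, (D)^[k] y ∈ dClosureLE D K t c Z := by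
    intro k hk c
    refine Subfield.subset_closure (Or.inr ?_)
    rw [hZ, Finset.coe_image]
    exact ⟨k, by simpa using hk, rfl⟩
  have hAU : ∀ x ∈ Algebra.adjoin (dClosure D K t) ((fun k : ℕ => (D)^[k] y) '' Set.Iio r),
      x ∈ U := by
    intro x hx
    induction hx using Algebra.adjoin_induction with
    | mem x hx =>
      obtain ⟨k, hk, rfl⟩ := hx
      exact (memU _).2 ⟨0, hZmem k hk 0⟩
    | algebraMap a => exact hFU a.2
    | add x y _ _ hx hy => exact U.add_mem hx hy
    | mul x y _ _ hx hy => exact U.mul_mem hx hy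
  -- the constant `c`
  obtain ⟨c, hc⟩ : ∃ c, IsAlgebraic (dClosureLE D K t c Z) ((D)^[r] y) := by
    obtain ⟨p, hp, hx⟩ := hr
    have h2 : ∀ n, ∃ c, ((p.coeff n : _) : L) ∈ dClosureLE D K t c Z := fun n =>
      (memU _).1 (hAU _ (p.coeff n).2)
    choose c hc using h2
    refine ⟨p.support.sup c, (alg_iff _ _).2 ⟨p.map (algebraMap _ L), ?_, ?_, ?_⟩⟩
    · exact (Polynomial.map_ne_zero_iff Subtype.val_injective).2 hp
    · intro n
      rw [Polynomial.coeff_map]
      by_cases hn : n ∈ p.support
      · exact hmono (Finset.le_sup (f := c) hn) (hc n)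
      · rw [Polynomial.notMem_support_iff.1 hn, map_zero]
        exact Subfield.zero_mem _
    · rw [Polynomial.eval_map]
      exact hx
  refine ⟨c, Z, ?_⟩
  set E : ℕ → Subfield L := fun k => dClosureLE D K t (k + c) Z with hE
  have hEmono : ∀ k, E k ≤ E (k + 1) := fun k => hmono (by simp [add_right_comm])
  have hr0 : ∀ k, (D)^[r] y ∈ ac (E k) := by
    intro k
    exact mem_ac.2 (alg_mono (hmono (Nat.le_add_left c k)) hc)
  have hDE : ∀ k, ∀ a ∈ E k, D a ∈ ac (E (k + 1)) := by
    intro k
    refine der_closure D _ (ac (E (k + 1))) ?_ ?_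
    · intro a ha
      exact le_ac _ (hEmono k (Subfield.subset_closure ha))
    · rintro a ((ha | ⟨v, hv, rfl⟩) | ha)
      · exact le_ac _ (Subfield.subset_closure (Or.inl (Or.inl (hK a ha))))
      · refine le_ac _ (Subfield.subset_closure (Or.inl (Or.inr ⟨(v.1, v.2 + 1), ?_, ?_⟩)))
        · simp only [Set.mem_ofPred_eq] at hv ⊢
          omega
        · simp only [Function.iterate_succ_apply']
      · rw [hZ, Finset.coe_image] at ha
        obtain ⟨l, hl, rfl⟩ := ha
        have hl' : l < r := by simpa using hl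
        simp only [← Function.iterate_succ_apply' (f := D) l y]
        rcases Nat.lt_or_ge (l + 1) r with h3 | h3
        · exact le_ac _ (hZmem _ h3 _)
        · have : l + 1 = r := by omega
          rw [Nat.succ_eq_add_one, this]
          exact hr0 _
  have hmain : ∀ k, (D)^[r + k] y ∈ ac (E k) := by
    intro k
    induction k with
    | zero => exact hr0 0
    | succ k ih =>
      rw [← Nat.add_assoc, Function.iterate_succ_apply']
      exact der_ac D (E k) (E (k + 1)) (hEmono k) (hDE k) _ ih
  intro k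
  rcases Nat.lt_or_ge k r with hk | hk
  · exact mem_ac.1 (le_ac _ (hZmem k hk _))
  · obtain ⟨j, rfl⟩ := Nat.exists_eq_add_of_le hk
    exact alg_mono (hmono (by omega)) (mem_ac.1 (hmain j))

end Pool.Agent.Helper21.PD
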