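import Mathlib
import Pool.Agent.Helper21.PD.Defs

open MvPolynomial

namespace Pool.Agent.Helper21.PD

namespace P13

theorem count {α : Type*} (M : Matroid α) {G₀ G₁ W : Set α} (hI : M.Indep (G₀ ∪ G₁))
    (hd : Disjoint G₀ G₁) (hW : G₁ ⊆ M.closure (G₀ ∪ W)) : G₁.encard ≤ W.encard := by
  have hI0 : M.Indep G₀ := hI.subset Set.subset_union_left
  have h1 : (M.contract G₀).Indep G₁ :=
    hI0.contract_indep_iff.mpr ⟨hd.symm, by rwa [Set.union_comm]⟩
  have h2 : G₁ ⊆ (M.contract G₀).closure W := by
    rw [Matroid.contract_closure_eq, Set.union_comm W]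
    exact fun x hx => ⟨hW hx, fun hx0 => Set.disjoint_left.mp hd hx0 hx⟩
  calc G₁.encard = (M.contract G₀).eRk G₁ := h1.eRk_eq_encard.symm
    _ ≤ (M.contract G₀).eRk ((M.contract G₀).closure W) := Matroid.eRk_mono _ h2
    _ = (M.contract G₀).eRk W := Matroid.eRk_closure_eq ..
    _ ≤ W.encard := Matroid.eRk_le_encard ..

variable {L : Type} [Field L]

theorem D_inv (D : Der L) (a : L) : D a⁻¹ = - (a⁻¹ ^ 2 * D a) := by
  by_cases ha : a = 0
  · simp [ha]
  · have h := D.mul a a⁻¹
    rw [mul_inv_cancel₀ ha, D.one] at h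
    field_simp
    field_simp at h
    linear_combination -h

/-- A derivation maps the closure of `s` into a subfield `F` if it maps `s` into it. -/
theorem D_closure (D : Der L) (s : Set L) (F : Subfield L) (hs : s ⊆ F)
    (hD : ∀ x ∈ s, D x ∈ F) {x : L} (hx : x ∈ Subfield.closure s) : D x ∈ F := by
  have hle : Subfield.closure s ≤ F := Subfield.closure_le.mpr hs
  induction hx using Subfield.closure_induction with
  | mem x hx => exact hD x hx
  | one => rw [D.one]; exact zero_mem _
  | add x y _ _ hx hy => rw [D.add]; exact add_mem hx hy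
  | neg x _ hx => rw [D.neg]; exact neg_mem hx
  | inv x hx' hx => rw [D_inv]; exact neg_mem (mul_mem (pow_mem (inv_mem (hle hx')) _) hx)
  | mul x y hx' hy' hx hy =>
    rw [D.mul]; exact add_mem (mul_mem (hle hx') hy) (mul_mem (hle hy') hx)

/-- Elements algebraic over the field generated by `s` over `K` are in the matroid closure of `s`. -/
theorem mem_closure (K : Subfield L) (s : Set L) (E : Subfield L)
    (hE : E ≤ Subfield.closure ((K : Set L) ∪ s)) {x : L} (hx : IsAlgebraic E x) :
    x ∈ (AlgebraicIndependent.matroid K L).closure s := by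
  rw [AlgebraicIndependent.matroid_closure_eq, SetLike.mem_coe, Subalgebra.mem_algebraicClosure]
  have h1 : ∀ z ∈ Subfield.closure ((K : Set L) ∪ s), IsAlgebraic (Algebra.adjoin K s) z := by
    intro z hz
    induction hz using Subfield.closure_induction with
    | mem z hz =>
      rcases hz with hz | hz
      · exact isAlgebraic_algebraMap (A := L) (R := Algebra.adjoin K s)
          (algebraMap K (Algebra.adjoin K s) ⟨z, hz⟩)
      · exact isAlgebraic_algebraMap (A := L) (R := Algebra.adjoin K s)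
          (⟨z, Algebra.subset_adjoin hz⟩ : Algebra.adjoin K s)
    | one => exact isAlgebraic_one
    | add x y _ _ hx hy => exact hx.add hy
    | neg x _ hx => exact hx.neg
    | inv x _ hx => exact hx.inv
    | mul x y _ _ hx hy => exact hx.mul hy
  have h2 : IsAlgebraic (Algebra.adjoin K (E : Set L)) x := by
    let f : E →+* Algebra.adjoin K (E : Set L) :=
      { toFun := fun z => ⟨z, Algebra.subset_adjoin z.2⟩
        map_one' := rfl
        map_mul' := fun _ _ => rfl
        map_zero' := rfl
        map_add' := fun _ _ => rfl }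
    exact hx.ringHom_of_comp_eq f (RingHom.id L) f.injective (by ext; rfl)
  exact h2.adjoin_of_forall_isAlgebraic fun z hz => h1 z (hE hz.1)

end P13

open P13 in
/-- The relation theorem, with the growth of the derivatives of the `y γ` (PD-12) as a hypothesis.
If the `g (s, γ)` are differentially algebraically independent over `K`, all the `y γ` are
differentially algebraic over the field generated by fewer than `card S` elements and
`∑ γ, g (s, γ) * y γ = 0` for all `s`, then all `y γ` are zero. -/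
theorem generic_relation_of_growth {L : Type} [Field L] [CharZero L] (D : Der L) (K : Subfield L)
    (hK : ∀ a ∈ K, D a ∈ K) {Γ S τ : Type} [Fintype Γ] [Fintype S] [Fintype τ]
    (g : S × Γ → L) (y : Γ → L) (t : τ → L)
    (hg : AlgebraicIndependent K (fun v : (S × Γ) × ℕ => (D)^[v.2] (g v.1)))
    (hcard : Fintype.card τ < Fintype.card S)
    (hy : ∀ γ, ∃ (c : ℕ) (Z : Finset L), ∀ k : ℕ,
      IsAlgebraic (dClosureLE D K t (k + c) Z) ((D)^[k] (y γ)))
    (h : ∀ s, ∑ γ, g (s, γ) * y γ = 0) (γ : Γ) : y γ = 0 := by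
  classical
  by_contra hγ0
  choose c Z hcZ using hy
  obtain ⟨c', hc'⟩ : ∃ c' : ℕ, ∀ γ', c γ' ≤ c' :=
    ⟨∑ γ', c γ', fun γ' => Finset.single_le_sum (fun _ _ => Nat.zero_le _) (Finset.mem_univ γ')⟩
  obtain ⟨Z', hZ'⟩ : ∃ Z' : Finset L, ∀ γ', Z γ' ⊆ Z' :=
    ⟨Finset.univ.biUnion Z, fun γ' => Finset.subset_biUnion_of_mem Z (Finset.mem_univ γ')⟩
  obtain ⟨T, hT⟩ : ∃ T : ℕ, T = Fintype.card τ * c' + Z'.card := ⟨_, rfl⟩
  let fam : (S × Γ) × ℕ → L := fun v => (D)^[v.2] (g v.1)
  let G₀ : Set L := fam '' {v | v.1.2 ≠ γ}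
  let e₁ : S × Fin (T + 1) → (S × Γ) × ℕ := fun v => ((v.1, γ), v.2)
  let G₁ : Set L := Set.range (fam ∘ e₁)
  let W₁ : Set L := Set.range (fun v : τ × Fin (T + c' + 1) => (D)^[(v.2 : ℕ)] (t v.1))
  let Y : ℕ → Set L := fun k => {x | ∃ l ≤ k, ∃ γ', x = (D)^[l] (y γ')}
  let E : ℕ → Subfield L := fun k => Subfield.closure ((K : Set L) ∪ (G₀ ∪ Y k))
  have hinj : Function.Injective fam := hg.injective
  have he₁ : Function.Injective e₁ := by
    rintro ⟨a, b⟩ ⟨a', b'⟩ hab
    simp only [e₁, Prod.mk.injEq] at hab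
    exact Prod.ext hab.1.1 (Fin.ext hab.2)
  have hYmono : ∀ k, Y k ⊆ Y (k + 1) := fun k x ⟨l, hl, hx⟩ => ⟨l, hl.trans (Nat.le_succ k), hx⟩
  -- the derivatives of `g (s, γ)` are in the fields `E k`
  have hE : ∀ s k, (D)^[k] (g (s, γ)) ∈ E k := by
    intro s k
    induction k with
    | zero =>
      have h1 : g (s, γ) = - (∑ γ' ∈ Finset.univ.erase γ, g (s, γ') * y γ') * (y γ)⁻¹ := by
        have h2 := h s
        rw [← Finset.add_sum_erase _ _ (Finset.mem_univ γ)] at h2
        rw [eq_mul_inv_iff_mul_eq₀ hγ0]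
        linear_combination h2
      rw [Function.iterate_zero, id, h1]
      have hyE : ∀ γ', y γ' ∈ E 0 := fun γ' =>
        Subfield.subset_closure (Or.inr (Or.inr ⟨0, le_rfl, γ', rfl⟩))
      refine mul_mem (neg_mem (sum_mem fun γ' hγ' => mul_mem ?_ (hyE γ'))) (inv_mem (hyE γ))
      exact Subfield.subset_closure
        (Or.inr (Or.inl ⟨((s, γ'), 0), (Finset.mem_erase.mp hγ').1, rfl⟩))
    | succ k ih =>
      rw [Function.iterate_succ_apply']
      refine D_closure D _ (E (k + 1)) ?_ ?_ ih
      · refine fun x hx => Subfield.subset_closure ?_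
        rcases hx with hx | hx | hx
        · exact Or.inl hx
        · exact Or.inr (Or.inl hx)
        · exact Or.inr (Or.inr (hYmono k hx))
      · rintro x (hx | ⟨v, hv, rfl⟩ | ⟨l, hl, γ', rfl⟩)
        · exact Subfield.subset_closure (Or.inl (hK x hx))
        · refine Subfield.subset_closure (Or.inr (Or.inl ⟨(v.1, v.2 + 1), hv, ?_⟩))
          simp only [fam, Function.iterate_succ_apply']
        · exact Subfield.subset_closure (Or.inr (Or.inr
            ⟨l + 1, Nat.succ_le_succ hl, γ', (Function.iterate_succ_apply' _ _ _).symm⟩))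
  have hind : (AlgebraicIndependent.matroid K L).Indep (Set.range fam) :=
    AlgebraicIndependent.matroid_indep_iff.mpr hg.to_subtype_range
  have hsub : G₀ ∪ G₁ ⊆ Set.range fam := by
    rintro x (⟨v, -, rfl⟩ | ⟨v, rfl⟩)
    · exact ⟨v, rfl⟩
    · exact ⟨e₁ v, rfl⟩
  have hdisj : Disjoint G₀ G₁ := by
    rw [Set.disjoint_left]
    rintro x ⟨v, hv, rfl⟩ ⟨w, hw⟩
    have := hinj hw
    exact hv (by rw [← this])
  have hclosure : G₁ ⊆ (AlgebraicIndependent.matroid K L).closure (G₀ ∪ (W₁ ∪ Z')) := by
    rintro x ⟨⟨s, k⟩, rfl⟩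
    have h1 : (D)^[(k : ℕ)] (g (s, γ)) ∈
        (AlgebraicIndependent.matroid K L).closure (G₀ ∪ Y k) :=
      mem_closure K _ (E k) le_rfl
        (isAlgebraic_algebraMap (A := L) (⟨_, hE s k⟩ : E k))
    refine Matroid.closure_subset_closure_of_subset_closure (M := AlgebraicIndependent.matroid K L) ?_ h1
    refine Set.union_subset ?_ ?_
    · exact Set.subset_union_left.trans (Matroid.subset_closure _ _ (Set.subset_univ _))
    · rintro x ⟨l, hl, γ', rfl⟩
      refine Matroid.closure_subset_closure _ Set.subset_union_right ?_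
      refine mem_closure K _ _ ?_ (hcZ γ' l)
      refine Subfield.closure_mono ?_
      rintro z ((hz | ⟨v, hv, rfl⟩) | hz)
      · exact Or.inl hz
      · refine Or.inr (Or.inl ⟨(v.1, ⟨v.2, ?_⟩), rfl⟩)
        have := hc' γ'
        have := k.2
        have : v.2 ≤ l + c γ' := hv
        omega
      · exact Or.inr (Or.inr (hZ' γ' hz))
  have hcount := P13.count _ (hind.subset hsub) hdisj hclosure
  have h1 : G₁.encard = Fintype.card S * (T + 1) := by
    rw [show G₁ = (fam ∘ e₁) '' Set.univ from Set.image_univ.symm,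
      (hinj.comp he₁).encard_image, Set.encard_univ, ENat.card_eq_coe_fintype_card]
    simp
  have h2 : (W₁ ∪ Z').encard ≤ Fintype.card τ * (T + c' + 1) + Z'.card := by
    refine (Set.encard_union_le _ _).trans (add_le_add ?_ ?_)
    · rw [show W₁ = _ '' Set.univ from Set.image_univ.symm]
      refine (Set.encard_image_le _ _).trans ?_
      rw [Set.encard_univ, ENat.card_eq_coe_fintype_card]
      simp
    · rw [Set.encard_coe_eq_coe_finsetCard]
  have h3 : Fintype.card S * (T + 1) ≤ Fintype.card τ * (T + c' + 1) + Z'.card := by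
    have := h1 ▸ (hcount.trans h2)
    exact_mod_cast this
  have h4 : (Fintype.card τ + 1) * (T + 1) ≤ Fintype.card S * (T + 1) :=
    Nat.mul_le_mul_right _ hcard
  nlinarith

end Pool.Agent.Helper21.PD
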