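import Mathlib
import Pool.Agent.Helper21.PD.Defs
import Pool.Agent.Helper21.PD.P12
import Pool.Agent.Helper21.PD.P13Core

namespace Pool.Agent.Helper21.PD

/-- If the `g (s, γ)` are differentially algebraically independent over `K`, all the `y γ` are
differentially algebraic over the field generated by fewer than `card S` elements and
`∑ γ, g (s, γ) * y γ = 0` for all `s`, then all `y γ` are zero. -/
theorem generic_relation {L : Type} [Field L] [CharZero L] (D : Der L) (K : Subfield L)
    (hK : ∀ a ∈ K, D a ∈ K) {Γ S τ : Type} [Fintype Γ] [Fintype S] [Fintype τ]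
    (g : S × Γ → L) (y : Γ → L) (t : τ → L)
    (hg : AlgebraicIndependent K (fun v : (S × Γ) × ℕ => (D)^[v.2] (g v.1)))
    (hcard : Fintype.card τ < Fintype.card S)
    (hy : ∀ γ, ¬ AlgebraicIndependent (dClosure D K t) (fun k : ℕ => (D)^[k] (y γ)))
    (h : ∀ s, ∑ γ, g (s, γ) * y γ = 0) (γ : Γ) : y γ = 0 :=
  generic_relation_of_growth D K hK g y t hg hcard
    (fun γ' => exists_growth D K hK t (y γ') (hy γ')) h γ

end Pool.Agent.Helper21.PD
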