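import Mathlib
import Pool.Agent.Helper21.PD.Defs

/-!
# Derivations of quotients and of fraction fields (PD-14, `MP_2c9d0b_al`)
-/

open MvPolynomial

namespace Pool.Agent.Helper21.PD

theorem exists_der_quotient {A : Type*} [CommRing A] (D : Der A) (I : Ideal A)
    (hI : ∀ f ∈ I, D f ∈ I) :
    ∃ D' : Der (A ⧸ I), ∀ a, D' (Ideal.Quotient.mk I a) = Ideal.Quotient.mk I (D a) := by
  have hs := Ideal.Quotient.mk_surjective (I := I)
  let F : A ⧸ I → A ⧸ I := fun q => Ideal.Quotient.mk I (D (Function.surjInv hs q))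
  have hF : ∀ a, F (Ideal.Quotient.mk I a) = Ideal.Quotient.mk I (D a) := by
    intro a
    change Ideal.Quotient.mk I (D (Function.surjInv hs (Ideal.Quotient.mk I a))) = _
    rw [Ideal.Quotient.eq, ← D.sub]
    apply hI
    rw [← Ideal.Quotient.eq]
    exact Function.surjInv_eq hs _
  refine ⟨⟨F, ?_, ?_⟩, hF⟩
  · intro a b
    obtain ⟨a, rfl⟩ := hs a
    obtain ⟨b, rfl⟩ := hs b
    rw [← map_add, hF, hF, hF, D.add, map_add]
  · intro a b
    obtain ⟨a, rfl⟩ := hs a
    obtain ⟨b, rfl⟩ := hs b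
    rw [← map_mul, hF, hF, hF, D.mul, map_add, map_mul, map_mul]

theorem exists_der_fractionRing {A : Type*} [CommRing A] [IsDomain A] (D : Der A) :
    ∃ D' : Der (FractionRing A), ∀ a,
      D' (algebraMap A (FractionRing A) a) = algebraMap A (FractionRing A) (D a) := by
  set ι : A →+* FractionRing A := algebraMap A (FractionRing A) with hι
  have hinj : Function.Injective ι := IsFractionRing.injective A (FractionRing A)
  have hne : ∀ b : A, b ≠ 0 → ι b ≠ 0 := fun b hb h =>
    hb (hinj (by rw [h, map_zero]))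
  have hrep : ∀ x : FractionRing A, ∃ p : A × A, p.2 ≠ 0 ∧ x = ι p.1 / ι p.2 := by
    intro x
    obtain ⟨a, b, hb, h⟩ := IsFractionRing.div_surjective (A := A) x
    exact ⟨(a, b), nonZeroDivisors.ne_zero hb, h.symm⟩
  choose r hr0 hr using hrep
  let G : A → A → FractionRing A := fun a b => (ι b * ι (D a) - ι a * ι (D b)) / (ι b) ^ 2
  have hG : ∀ a b c d : A, b ≠ 0 → d ≠ 0 → ι a / ι b = ι c / ι d → G a b = G c d := by
    intro a b c d hb hd h
    have hb' := hne b hb
    have hd' := hne d hd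
    rw [div_eq_div_iff hb' hd', ← map_mul, ← map_mul] at h
    have h1 : a * d = c * b := hinj h
    have h2 : a * D d + d * D a = c * D b + b * D c := by
      rw [← D.mul, ← D.mul, h1]
    have h1' : ι a * ι d = ι c * ι b := by rw [← map_mul, h1, map_mul]
    have h2' : ι a * ι (D d) + ι d * ι (D a) = ι c * ι (D b) + ι b * ι (D c) := by
      rw [← map_mul, ← map_mul, ← map_add, h2, map_add, map_mul, map_mul]
    change (ι b * ι (D a) - ι a * ι (D b)) / (ι b) ^ 2 =
      (ι d * ι (D c) - ι c * ι (D d)) / (ι d) ^ 2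
    rw [div_eq_div_iff (pow_ne_zero 2 hb') (pow_ne_zero 2 hd')]
    linear_combination (ι d * ι b) * h2' - (ι d * ι (D b) + ι b * ι (D d)) * h1'
  let F : FractionRing A → FractionRing A := fun x => G (r x).1 (r x).2
  have hF : ∀ a b : A, b ≠ 0 → F (ι a / ι b) = G a b := by
    intro a b hb
    exact hG _ _ _ _ (hr0 _) hb (hr _).symm
  have hGadd : ∀ a b c d : A, b ≠ 0 → d ≠ 0 → G (a * d + c * b) (b * d) = G a b + G c d := by
    intro a b c d hb hd
    have hb' := hne b hb
    have hd' := hne d hd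
    change (ι (b * d) * ι (D (a * d + c * b)) - ι (a * d + c * b) * ι (D (b * d))) /
      (ι (b * d)) ^ 2 = (ι b * ι (D a) - ι a * ι (D b)) / (ι b) ^ 2 +
      (ι d * ι (D c) - ι c * ι (D d)) / (ι d) ^ 2
    rw [D.add, D.mul, D.mul, D.mul]
    simp only [map_add, map_mul]
    field_simp
    ring
  have hGmul : ∀ a b c d : A, b ≠ 0 → d ≠ 0 →
      G (a * c) (b * d) = ι a / ι b * G c d + ι c / ι d * G a b := by
    intro a b c d hb hd
    have hb' := hne b hb
    have hd' := hne d hd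
    change (ι (b * d) * ι (D (a * c)) - ι (a * c) * ι (D (b * d))) /
      (ι (b * d)) ^ 2 = ι a / ι b * ((ι d * ι (D c) - ι c * ι (D d)) / (ι d) ^ 2) +
      ι c / ι d * ((ι b * ι (D a) - ι a * ι (D b)) / (ι b) ^ 2)
    rw [D.mul, D.mul]
    simp only [map_add, map_mul]
    field_simp
    ring
  refine ⟨⟨F, ?_, ?_⟩, ?_⟩
  · intro x y
    rw [hr x, hr y]
    have hb := hne _ (hr0 x)
    have hd := hne _ (hr0 y)
    have e : ι (r x).1 / ι (r x).2 + ι (r y).1 / ι (r y).2 =
        ι ((r x).1 * (r y).2 + (r y).1 * (r x).2) / ι ((r x).2 * (r y).2) := by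
      simp only [map_add, map_mul]
      field_simp
    rw [e, hF _ _ (mul_ne_zero (hr0 x) (hr0 y)), hF _ _ (hr0 x), hF _ _ (hr0 y),
      hGadd _ _ _ _ (hr0 x) (hr0 y)]
  · intro x y
    rw [hr x, hr y]
    have hb := hne _ (hr0 x)
    have hd := hne _ (hr0 y)
    have e : ι (r x).1 / ι (r x).2 * (ι (r y).1 / ι (r y).2) =
        ι ((r x).1 * (r y).1) / ι ((r x).2 * (r y).2) := by
      simp only [map_mul]
      field_simp
    rw [e, hF _ _ (mul_ne_zero (hr0 x) (hr0 y)), hF _ _ (hr0 x), hF _ _ (hr0 y),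
      hGmul _ _ _ _ (hr0 x) (hr0 y)]
  · intro a
    have e : ι a = ι a / ι 1 := by rw [map_one, div_one]
    change F (ι a) = ι (D a)
    rw [e, hF _ _ one_ne_zero]
    change (ι 1 * ι (D a) - ι a * ι (D 1)) / (ι 1) ^ 2 = ι (D a)
    simp

end Pool.Agent.Helper21.PD
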