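import Mathlib
import Pool.Agent.Helper21.PD.Defs
import Pool.Agent.Helper21.PD.P10
import Pool.Agent.Helper21.PD.P11
import Pool.Agent.Helper21.PD.P13
import Pool.Agent.Helper21.PD.P14

open MvPolynomial

namespace Pool.Agent.Helper21.PD.P15

theorem diffIdeal_stable {R : Type*} [CommRing R] {ι σ : Type*} (d : Der R)
    (u : σ → MvPolynomial (ι × ℕ) R) : ∀ f ∈ diffIdeal d u, dext d f ∈ diffIdeal d u := by
  intro f hf
  unfold diffIdeal at hf
  refine Submodule.span_induction (p := fun f _ => dext d f ∈ diffIdeal d u) ?_ ?_ ?_ ?_ hf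
  · rintro _ ⟨⟨m, l⟩, rfl⟩
    refine Ideal.subset_span ⟨(m, l + 1), ?_⟩
    simp only [Function.iterate_succ_apply']
  · rw [(dext d).zero]
    exact Ideal.zero_mem _
  · intro a b _ _ ha hb
    rw [(dext d).add]
    exact Ideal.add_mem _ ha hb
  · intro a b hb hab
    rw [smul_eq_mul, (dext d).mul]
    exact Ideal.add_mem _ (Ideal.mul_mem_left _ _ hab) (Ideal.mul_mem_right _ _ hb)

section Theta

variable {K R : Type*} [CommRing K] [CommRing R] {ι Γ : Type*}

/-- The homomorphism `K{x} → R{y}` along `ψ : K → R` and `κ : ι → Γ`. -/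
noncomputable def theta (ψ : K →+* R) (κ : ι → Γ) :
    MvPolynomial (ι × ℕ) K →+* MvPolynomial (Γ × ℕ) R :=
  eval₂Hom (C.comp ψ) (fun v => X (κ v.1, v.2))

@[simp] theorem theta_C (ψ : K →+* R) (κ : ι → Γ) (a : K) :
    theta ψ κ (C a) = C (ψ a) := by
  simp [theta]

@[simp] theorem theta_X (ψ : K →+* R) (κ : ι → Γ) (v : ι × ℕ) :
    theta ψ κ (X v) = X (κ v.1, v.2) := by
  simp [theta]

theorem theta_dext (ψ : K →+* R) (κ : ι → Γ) (d : Der K) (d' : Der R)
    (h : ∀ a, ψ (d a) = d' (ψ a)) (f : MvPolynomial (ι × ℕ) K) :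
    theta ψ κ (dext d f) = dext d' (theta ψ κ f) := by
  refine derivation_ext (theta ψ κ) (fun f => theta ψ κ (dext d f))
    (fun f => dext d' (theta ψ κ f)) (by simp [Der.add]) (by simp [Der.add])
    (by simp [Der.mul]) (by simp [Der.mul]) ?_ ?_ f
  · intro a
    simp [h]
  · intro v
    simp

theorem theta_dext_iterate (ψ : K →+* R) (κ : ι → Γ) (d : Der K) (d' : Der R)
    (h : ∀ a, ψ (d a) = d' (ψ a)) (l : ℕ) (f : MvPolynomial (ι × ℕ) K) :
    theta ψ κ ((dext d)^[l] f) = (dext d')^[l] (theta ψ κ f) := by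
  induction l with
  | zero => rfl
  | succ l ih => rw [Function.iterate_succ_apply', Function.iterate_succ_apply',
      theta_dext ψ κ d d' h, ih]

theorem theta_homog (ψ : K →+* R) (κ : ι → Γ) {f : MvPolynomial (ι × ℕ) K} {e : ℕ}
    (hf : f.IsHomogeneous e) : (theta ψ κ f).IsHomogeneous e := by
  have := hf.eval₂ (C.comp ψ) (fun v : ι × ℕ => (X (κ v.1, v.2) : MvPolynomial (Γ × ℕ) R))
    (fun r => isHomogeneous_C _ _) (fun i => isHomogeneous_X _ _)
  rw [one_mul] at this
  exact this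

end Theta

theorem exists_base {L : Type} [Field L] (D : Der L) (KL : Subfield L) {n : ℕ} (y : Fin n → L)
    (q : ℕ) (hq : ∀ J : Finset (Fin n), AlgebraicIndependent KL
      (fun v : {v : Fin n × ℕ // v.1 ∈ J} => (D)^[v.1.2] (y v.1.1)) → J.card < q) :
    ∃ J : Finset (Fin n), J.card < q ∧ ∀ F : Subfield L, KL ≤ F →
      (∀ j ∈ J, ∀ k : ℕ, (D)^[k] (y j) ∈ F) →
      ∀ j, ¬ AlgebraicIndependent F (fun k : ℕ => (D)^[k] (y j)) := by
  classical
  let Ind : Finset (Fin n) → Prop := fun J => AlgebraicIndependent KL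
    (fun v : {v : Fin n × ℕ // v.1 ∈ J} => (D)^[v.1.2] (y v.1.1))
  have h0 : Ind ∅ := by
    have : IsEmpty {v : Fin n × ℕ // v.1 ∈ (∅ : Finset (Fin n))} := ⟨fun v => by simpa using v.2⟩
    exact algebraicIndependent_empty_type
  obtain ⟨J, hJ, hmax⟩ := Finset.exists_max_image ((Finset.univ : Finset (Finset (Fin n))).filter Ind)
    Finset.card ⟨∅, by simp [h0]⟩
  rw [Finset.mem_filter] at hJ
  refine ⟨J, hq J hJ.2, ?_⟩
  intro F hKF hJF j hj
  by_cases hjJ : j ∈ J
  · have h1 : Transcendental F ((D)^[0] (y j)) := hj.transcendental 0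
    exact h1 (isAlgebraic_algebraMap (⟨(D)^[0] (y j), hJF j hjJ 0⟩ : F))
  · letI : Algebra KL F := (Subfield.inclusion hKF).toAlgebra
    have : IsScalarTower KL F L := IsScalarTower.of_algebraMap_eq fun _ => rfl
    have h1 := AlgebraicIndependent.sumElim_of_tower (R := KL) (S := F) (A := L) hJ.2 (by
      rintro _ ⟨v, rfl⟩
      exact ⟨⟨_, hJF v.1.1 v.2 v.1.2⟩, rfl⟩) hj
    have h2 : Ind (insert j J) := by
      let φ : {v : Fin n × ℕ // v.1 ∈ insert j J} → ℕ ⊕ {v : Fin n × ℕ // v.1 ∈ J} := fun v =>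
        if h : v.1.1 = j then Sum.inl v.1.2 else
          Sum.inr ⟨v.1, (Finset.mem_insert.1 v.2).resolve_left h⟩
      have hφ : Function.Injective φ := by
        rintro ⟨v, hv⟩ ⟨w, hw⟩ hvw
        simp only [φ] at hvw
        apply Subtype.ext
        simp only
        by_cases h3 : v.1 = j
        · by_cases h4 : w.1 = j
          · rw [dif_pos h3, dif_pos h4] at hvw
            exact Prod.ext (h3.trans h4.symm) (Sum.inl.inj hvw)
          · rw [dif_pos h3, dif_neg h4] at hvw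
            simp at hvw
        · by_cases h4 : w.1 = j
          · rw [dif_neg h3, dif_pos h4] at hvw
            simp at hvw
          · rw [dif_neg h3, dif_neg h4] at hvw
            exact congrArg Subtype.val (Sum.inr.inj hvw)
      have h5 := h1.comp φ hφ
      convert h5 using 1
      funext v
      simp only [Function.comp, φ]
      by_cases h3 : v.1.1 = j
      · rw [dif_pos h3, Sum.elim_inl, h3]
      · rw [dif_neg h3, Sum.elim_inr]
    have h6 := hmax (insert j J) (by simp [h2])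
    rw [Finset.card_insert_of_notMem hjJ] at h6
    omega

theorem exists_field {A : Type} [CommRing A] (DA : Der A) (Q : Ideal A) (hQ : Q.IsPrime)
    (hQD : ∀ f ∈ Q, DA f ∈ Q) :
    ∃ (L : Type) (_ : Field L) (D : Der L) (π : A →+* L),
      (∀ f, D (π f) = π (DA f)) ∧ ∀ f, π f = 0 ↔ f ∈ Q := by
  obtain ⟨D₁, hD₁⟩ := exists_der_quotient DA Q hQD
  obtain ⟨D, hD⟩ := exists_der_fractionRing D₁
  refine ⟨FractionRing (A ⧸ Q), inferInstance, D,
    (algebraMap (A ⧸ Q) (FractionRing (A ⧸ Q))).comp (Ideal.Quotient.mk Q), ?_, ?_⟩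
  · intro f
    rw [RingHom.comp_apply, hD, hD₁]
    rfl
  · intro f
    rw [RingHom.comp_apply, FaithfulSMul.algebraMap_eq_zero_iff,
      Ideal.Quotient.eq_zero_iff_mem]

end P15

open P15

theorem exists_component {K : Type} [Field K] [CharZero K] (d : Der K) {n i : ℕ} (hin : i < n)
    (u : Fin i → MvPolynomial (Fin n × ℕ) K) (e : Fin i → ℕ) (he : ∀ m, 0 < e m)
    (hu : ∀ m, (u m).IsHomogeneous (e m)) :
    ∃ P ∈ (diffIdeal d u).minimalPrimes, ∃ J : Finset (Fin n), J.card = n - i ∧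
      ∀ f ∈ MvPolynomial.supported K {v : Fin n × ℕ | v.1 ∈ J}, f ∈ P → f = 0 := by
  classical
  by_contra hneg
  push Not at hneg
  -- generic coefficients
  set q : ℕ := n - i with hqdef
  have hq : 1 ≤ q := by omega
  let S : Type := Fin (2 * (q - 1) + 1)
  let Γ : Type := Fin 2 × Fin n
  let R : Type := MvPolynomial ((S × Γ) × ℕ) K
  let dR : Der R := dext d
  let A : Type := MvPolynomial (Γ × ℕ) R
  let DA : Der A := dext dR
  let ψ : K →+* R := C
  have hψ : ∀ a, ψ (d a) = dR (ψ a) := fun a => (dext_C d a).symm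
  let θ : Fin 2 → MvPolynomial (Fin n × ℕ) K →+* A := fun c => theta ψ (fun j => (c, j))
  let u' : (Fin 2 × Fin i) ⊕ S → A := Sum.elim (fun cm => θ cm.1 (u cm.2))
    (fun s => ∑ γ : Γ, C (X ((s, γ), 0)) * X (γ, 0))
  let e' : (Fin 2 × Fin i) ⊕ S → ℕ := Sum.elim (fun cm => e cm.2) (fun _ => 1)
  have hcard : Fintype.card ((Fin 2 × Fin i) ⊕ S) < Fintype.card Γ := by
    simp only [S, Γ, Fintype.card_sum, Fintype.card_prod, Fintype.card_fin]
    omega
  have he' : ∀ m, 0 < e' m := by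
    rintro (⟨c, m⟩ | s)
    · exact he m
    · exact Nat.one_pos
  have hu' : ∀ m, (u' m).IsHomogeneous (e' m) := by
    rintro (⟨c, m⟩ | s)
    · exact theta_homog _ _ (hu m)
    · refine IsHomogeneous.sum _ _ _ fun γ _ => ?_
      have := (isHomogeneous_C (Γ × ℕ) (X ((s, γ), 0) : R)).mul
        (isHomogeneous_X R ((γ, 0) : Γ × ℕ))
      rwa [zero_add] at this
  set I : Ideal A := diffIdeal dR u' with hI
  -- some variable is not nilpotent, even generically
  obtain ⟨γ₀, hγ₀⟩ : ∃ γ₀ : Γ, ∀ r : R, r ≠ 0 → ∀ N : ℕ, C r * X (γ₀, 0) ^ N ∉ I := by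
    by_contra hcon
    push Not at hcon
    choose r hr N hN using hcon
    refine not_all_nilpotent dR hcard u' e' he' hu' (∏ γ, r γ)
      (Finset.prod_ne_zero_iff.2 fun γ _ => hr γ) (∑ γ, N γ) fun γ => ?_
    have h1 : (∏ γ, r γ) = (∏ γ' ∈ Finset.univ.erase γ, r γ') * r γ :=
      (Finset.prod_erase_mul _ _ (Finset.mem_univ γ)).symm
    have h2 : N γ ≤ ∑ γ, N γ :=
      Finset.single_le_sum (f := N) (fun _ _ => Nat.zero_le _) (Finset.mem_univ γ)
    obtain ⟨N', hN'⟩ := Nat.exists_eq_add_of_le h2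
    rw [h1, hN', C_mul, pow_add]
    have h3 : C (∏ γ' ∈ Finset.univ.erase γ, r γ') * C (r γ) *
        (X (γ, 0) ^ N γ * X (γ, 0) ^ N') =
        (C (∏ γ' ∈ Finset.univ.erase γ, r γ') * X (γ, 0) ^ N') *
          (C (r γ) * X (γ, 0) ^ N γ : A) := by ring
    rw [h3]
    exact Ideal.mul_mem_left _ _ (hN γ)
  -- a prime which avoids them
  let Mon : Submonoid A :=
    { carrier := {f | ∃ r : R, r ≠ 0 ∧ ∃ N : ℕ, f = C r * X (γ₀, 0) ^ N}
      one_mem' := ⟨1, one_ne_zero, 0, by simp⟩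
      mul_mem' := by
        rintro _ _ ⟨r, hr, N, rfl⟩ ⟨r', hr', N', rfl⟩
        refine ⟨r * r', mul_ne_zero hr hr', N + N', ?_⟩
        rw [C_mul, pow_add]
        ring }
  obtain ⟨Q₀, hQ₀, hIQ₀, hdis⟩ := Ideal.exists_le_prime_disjoint I Mon (by
    rw [Set.disjoint_left]
    rintro f hf ⟨r, hr, N, rfl⟩
    exact hγ₀ r hr N hf)
  obtain ⟨Q, hQ, hQQ₀⟩ := Ideal.exists_minimalPrimes_le hIQ₀
  have hQprime : Q.IsPrime := hQ.1.1
  have hIQ : I ≤ Q := hQ.1.2
  have hQM : ∀ r : R, r ≠ 0 → ∀ N : ℕ, C r * X (γ₀, 0) ^ N ∉ Q := fun r hr N h =>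
    Set.disjoint_left.1 hdis (hQQ₀ h) ⟨r, hr, N, rfl⟩
  have hQD : ∀ f ∈ Q, DA f ∈ Q :=
    minimalPrimes_differential DA I (diffIdeal_stable dR u') Q hQ
  -- the field `L`
  obtain ⟨L, _, D, π, hπD, hπ0⟩ := exists_field DA Q hQprime hQD
  have hπC : Function.Injective (π.comp (C : R →+* A)) := by
    rw [injective_iff_map_eq_zero]
    intro r hr
    by_contra hr0
    exact hQM r hr0 0 (by rw [pow_zero, mul_one]; exact (hπ0 _).1 hr)
  let κ₀ : K →+* L := (π.comp (C : R →+* A)).comp ψ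
  have hκD : ∀ a, D (κ₀ a) = κ₀ (d a) := by
    intro a
    change D (π (C (ψ a))) = π (C (ψ (d a)))
    rw [hπD, dext_C, hψ]
  have : CharZero L := charZero_of_injective_ringHom κ₀.injective
  let KL : Subfield L := κ₀.fieldRange
  have hKL : ∀ a ∈ KL, D a ∈ KL := by
    rintro _ ⟨a, rfl⟩
    rw [hκD]
    exact ⟨_, rfl⟩
  let κ₁ : K →+* KL := κ₀.rangeRestrictField
  have hκ₁ : ∀ a, ((κ₁ a : KL) : L) = κ₀ a := fun a => rfl
  have hκ₁s : Function.Surjective κ₁ := by
    rintro ⟨_, a, rfl⟩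
    exact ⟨a, rfl⟩
  let g : S × Γ → L := fun v => π (C (X (v, 0)))
  let y : Γ → L := fun γ => π (X (γ, 0))
  have hgk : ∀ v (k : ℕ), (D)^[k] (g v) = π (C (X (v, k))) := by
    intro v k
    induction k with
    | zero => rfl
    | succ k ih =>
      rw [Function.iterate_succ_apply', ih, hπD, dext_C, dext_X]
  have hyk : ∀ γ (k : ℕ), (D)^[k] (y γ) = π (X (γ, k)) := by
    intro γ k
    induction k with
    | zero => rfl
    | succ k ih =>
      rw [Function.iterate_succ_apply', ih, hπD, dext_X]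
  -- `g` is generic
  have hg : AlgebraicIndependent KL (fun v : (S × Γ) × ℕ => (D)^[v.2] (g v.1)) := by
    have h1 : AlgebraicIndependent K (X : (S × Γ) × ℕ → R) := algebraicIndependent_X _ _
    have h2 := h1.ringHom_of_comp_eq (S := KL) (B := L) κ₁ (π.comp (C : R →+* A)) hκ₁s hπC (by
      ext a
      rfl)
    convert h2 using 1
    funext v
    exact hgk v.1 v.2
  have hyγ₀ : y γ₀ ≠ 0 := by
    intro h
    refine hQM 1 one_ne_zero 1 ?_
    rw [C_1, one_mul, pow_one]
    exact (hπ0 _).1 h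
  -- bases
  have hbase : ∀ c : Fin 2, ∃ J : Finset (Fin n), J.card < q ∧ ∀ F : Subfield L, KL ≤ F →
      (∀ j ∈ J, ∀ k : ℕ, (D)^[k] (y (c, j)) ∈ F) →
      ∀ j, ¬ AlgebraicIndependent F (fun k : ℕ => (D)^[k] (y (c, j))) := by
    intro c
    refine exists_base D KL (fun j => y (c, j)) q ?_
    intro J hJ
    by_contra hJq
    obtain ⟨J', hJ'J, hJ'⟩ := Finset.exists_subset_card_eq (not_lt.1 hJq)
    -- a minimal prime below the prime of `y`
    have hprime : ((Q.comap (θ c)).IsPrime) := inferInstance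
    have hle : diffIdeal d u ≤ Q.comap (θ c) := by
      unfold diffIdeal
      rw [Ideal.span_le]
      rintro _ ⟨⟨m, l⟩, rfl⟩
      change θ c ((dext d)^[l] (u m)) ∈ Q
      rw [theta_dext_iterate ψ _ d dR hψ]
      exact hIQ (Ideal.subset_span ⟨(Sum.inl (c, m), l), rfl⟩)
    obtain ⟨P, hP, hPle⟩ := Ideal.exists_minimalPrimes_le hle
    obtain ⟨f, hfs, hfP, hf0⟩ := hneg P hP J' hJ'
    apply hf0
    -- `f` vanishes at the independent family
    obtain ⟨f', rfl⟩ : ∃ f' : MvPolynomial {v : Fin n × ℕ // v.1 ∈ J} K,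
        rename Subtype.val f' = f := by
      have h1 : f ∈ MvPolynomial.supported K {v : Fin n × ℕ | v.1 ∈ J} :=
        MvPolynomial.supported_mono (s := {v : Fin n × ℕ | v.1 ∈ J'})
          (t := {v : Fin n × ℕ | v.1 ∈ J}) (fun v hv => hJ'J hv) hfs
      rw [MvPolynomial.supported_eq_range_rename] at h1
      exact h1
    have h2 : π (θ c (rename Subtype.val f')) = 0 := (hπ0 _).2 (hPle hfP)
    have h3 : π (θ c (rename Subtype.val f')) =
        aeval (fun v : {v : Fin n × ℕ // v.1 ∈ J} => (D)^[v.1.2] (y (c, v.1.1)))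
          (MvPolynomial.map κ₁ f') := by
      have h4 : ((π.comp (θ c)).comp
          (rename (Subtype.val : {v : Fin n × ℕ // v.1 ∈ J} → Fin n × ℕ)).toRingHom :
            MvPolynomial {v : Fin n × ℕ // v.1 ∈ J} K →+* L) =
          ((aeval (R := KL) (fun v : {v : Fin n × ℕ // v.1 ∈ J} =>
            (D)^[v.1.2] (y (c, v.1.1)))).toRingHom.comp (MvPolynomial.map κ₁)) := by
        refine MvPolynomial.ringHom_ext ?_ ?_
        · intro a
          simp only [RingHom.comp_apply, AlgHom.toRingHom_eq_coe, RingHom.coe_coe, rename_C,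
            map_C, algHom_C]
          change π (θ c (C a)) = κ₀ a
          rw [theta_C]
          rfl
        · intro v
          simp only [RingHom.comp_apply, AlgHom.toRingHom_eq_coe, RingHom.coe_coe, rename_X,
            map_X, aeval_X]
          rw [theta_X, hyk]
      exact RingHom.congr_fun h4 f'
    rw [h3] at h2
    have h5 := hJ.eq_zero_of_aeval_eq_zero _ h2
    have h6 : f' = 0 := MvPolynomial.map_injective κ₁ κ₁.injective (by rw [h5, map_zero])
    rw [h6, map_zero]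
  choose J hJcard hJ using hbase
  -- the contradiction
  let τ : Type := Σ c : Fin 2, {j : Fin n // j ∈ J c}
  let t : τ → L := fun cj => y (cj.1, cj.2.1)
  refine hyγ₀ (generic_relation D KL hKL g y t hg ?_ ?_ ?_ γ₀)
  · simp only [τ, S, Fintype.card_sigma, Fintype.card_coe, Fintype.card_fin, Fin.sum_univ_two]
    have h0 := hJcard 0
    have h1 := hJcard 1
    omega
  · rintro ⟨c, j⟩
    refine hJ c (dClosure D KL t) ?_ ?_ j
    · intro a ha
      exact Subfield.subset_closure (Or.inl ha)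
    · intro j' hj' k
      exact Subfield.subset_closure (Or.inr ⟨(⟨c, ⟨j', hj'⟩⟩, k), rfl⟩)
  · intro s
    have h1 : π (u' (Sum.inr s)) = 0 :=
      (hπ0 _).2 (hIQ (Ideal.subset_span ⟨(Sum.inr s, 0), rfl⟩))
    have h2 : π (u' (Sum.inr s)) = ∑ γ : Γ, g (s, γ) * y γ := by
      change π (∑ γ : Γ, C (X ((s, γ), 0)) * X (γ, 0)) = _
      rw [map_sum]
      exact Finset.sum_congr rfl fun γ _ => map_mul _ _ _
    rw [← h2, h1]

end Pool.Agent.Helper21.PD
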