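import Mathlib
import Pool.Agent.Helper21.PD.Defs
import Pool.Agent.Helper21.PD.P15

open MvPolynomial

namespace Pool.Agent.Helper21.PD

namespace P16

section Weights

variable {R : Type*} [CommRing R] {ι : Type*}

/-- The weight of a variable `(x j)^(k)` is the weight of `j`. -/
abbrev wv (w : ι → ℕ) : ι × ℕ → ℕ := fun v => w v.1

theorem q_mul {w : ι → ℕ} {d : Der R} {f g : MvPolynomial (ι × ℕ) R} {m n : ℕ}
    (hf : f.IsWeightedHomogeneous (wv w) m ∧ (dext d f).IsWeightedHomogeneous (wv w) m)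
    (hg : g.IsWeightedHomogeneous (wv w) n ∧ (dext d g).IsWeightedHomogeneous (wv w) n) :
    (f * g).IsWeightedHomogeneous (wv w) (m + n) ∧
      (dext d (f * g)).IsWeightedHomogeneous (wv w) (m + n) := by
  refine ⟨hf.1.mul hg.1, ?_⟩
  rw [(dext d).mul]
  refine (hf.1.mul hg.2).add ?_
  have := hg.1.mul hf.2
  rwa [add_comm n m] at this

theorem dext_whomog {w : ι → ℕ} {d : Der R} {f : MvPolynomial (ι × ℕ) R} {m : ℕ}
    (hf : f.IsWeightedHomogeneous (wv w) m) :
    (dext d f).IsWeightedHomogeneous (wv w) m := by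
  classical
  refine IsWeightedHomogeneous.induction_on (R := R) (w := wv w) (m := m)
    (motive := fun p _ => (dext d p).IsWeightedHomogeneous (wv w) m) ?_ ?_ ?_ hf
  · rw [(dext d).zero]
    exact isWeightedHomogeneous_zero _ _ _
  · intro p q _ _ hp hq
    rw [(dext d).add]
    exact hp.add hq
  · intro γ r hr
    have key : ∀ s : Finset (ι × ℕ),
        ((∏ v ∈ s, (X v : MvPolynomial (ι × ℕ) R) ^ γ v).IsWeightedHomogeneous (wv w)
          (∑ v ∈ s, γ v * w v.1)) ∧
        ((dext d (∏ v ∈ s, (X v : MvPolynomial (ι × ℕ) R) ^ γ v)).IsWeightedHomogeneous (wv w)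
          (∑ v ∈ s, γ v * w v.1)) := by
      intro s
      have hpow : ∀ (v : ι × ℕ) (k : ℕ),
          ((X v : MvPolynomial (ι × ℕ) R) ^ k).IsWeightedHomogeneous (wv w) (k * w v.1) ∧
          (dext d ((X v : MvPolynomial (ι × ℕ) R) ^ k)).IsWeightedHomogeneous (wv w)
            (k * w v.1) := by
        intro v k
        induction k with
        | zero =>
          rw [pow_zero, (dext d).one, zero_mul]
          exact ⟨isWeightedHomogeneous_one _ _, isWeightedHomogeneous_zero _ _ _⟩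
        | succ k ih =>
          rw [pow_succ, add_mul, one_mul]
          refine q_mul ih ⟨isWeightedHomogeneous_X _ _ _, ?_⟩
          rw [dext_X]
          exact isWeightedHomogeneous_X R (wv w) (v.1, v.2 + 1)
      induction s using Finset.induction_on with
      | empty =>
        rw [Finset.prod_empty, Finset.sum_empty, (dext d).one]
        exact ⟨isWeightedHomogeneous_one _ _, isWeightedHomogeneous_zero _ _ _⟩
      | insert v s hv ih =>
        rw [Finset.prod_insert hv, Finset.sum_insert hv]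
        exact q_mul (hpow v _) ih
    have h1 := q_mul (w := w) (d := d) (f := C r) (m := 0)
      ⟨isWeightedHomogeneous_C _ _, by rw [dext_C]; exact isWeightedHomogeneous_C _ _⟩
      (key γ.support)
    have h2 : 0 + ∑ v ∈ γ.support, γ v * w v.1 = m := by
      rw [zero_add, ← hr, Finsupp.weight_apply, Finsupp.sum]
      rfl
    rw [h2] at h1
    rw [monomial_eq]
    exact h1.2

theorem dext_iterate_whomog {w : ι → ℕ} {d : Der R} {f : MvPolynomial (ι × ℕ) R} {m : ℕ}
    (hf : f.IsWeightedHomogeneous (wv w) m) (l : ℕ) :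
    ((dext d)^[l] f).IsWeightedHomogeneous (wv w) m := by
  induction l with
  | zero => exact hf
  | succ l ih =>
    rw [Function.iterate_succ_apply']
    exact dext_whomog ih

end Weights

section Vertex

variable {K : Type*} [Field K] {ι σ : Type*}

attribute [local instance] MvPolynomial.weightedGradedAlgebra

theorem minimalPrimes_le_vertex (w : ι → ℕ) (hw : ∀ j, 0 < w j) (d : Der K)
    (u : σ → MvPolynomial (ι × ℕ) K) (e : σ → ℕ)
    (hu : ∀ m, (u m).IsWeightedHomogeneous (wv w) (e m)) (P : Ideal (MvPolynomial (ι × ℕ) K))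
    (hP : P ∈ (diffIdeal d u).minimalPrimes) : P ≤ Ideal.span (Set.range X) := by
  classical
  have hhom : (diffIdeal d u).IsHomogeneous (weightedHomogeneousSubmodule K (wv w)) := by
    refine Ideal.homogeneous_span _ _ ?_
    rintro _ ⟨⟨m, l⟩, rfl⟩
    exact ⟨e m, dext_iterate_whomog (hu m) l⟩
  have hPp : P.IsPrime := hP.1.1
  have hcore : (P.homogeneousCore (weightedHomogeneousSubmodule K (wv w))).toIdeal.IsPrime :=
    hPp.homogeneousCore
  have hle : diffIdeal d u ≤
      (P.homogeneousCore (weightedHomogeneousSubmodule K (wv w))).toIdeal :=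
    hhom.toIdeal_homogeneousCore_eq_self.symm.trans_le (Ideal.homogeneousCore_mono _ hP.1.2)
  have h1 := hP.2 ⟨hcore, hle⟩ (Ideal.toIdeal_homogeneousCore_le _ P)
  have hPhom : P.IsHomogeneous (weightedHomogeneousSubmodule K (wv w)) := by
    have h2 : P = (P.homogeneousCore (weightedHomogeneousSubmodule K (wv w))).toIdeal :=
      le_antisymm h1 (Ideal.toIdeal_homogeneousCore_le _ P)
    rw [h2]
    exact (P.homogeneousCore (weightedHomogeneousSubmodule K (wv w))).isHomogeneous
  intro f hf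
  have h3 := weightedHomogeneousComponent_mem_of_mem K (wv w) hPhom hf 0
  rw [weightedHomogeneousComponent_zero f (fun v => (hw v.1).ne')] at h3
  have h4 : coeff 0 f = 0 := by
    by_contra h
    exact hPp.ne_top (Ideal.eq_top_of_isUnit_mem _ h3 ((isUnit_iff_ne_zero.2 h).map C))
  rw [← Set.image_univ, mem_ideal_span_X_image]
  intro γ hγ
  have h5 : γ ≠ 0 := by
    rintro rfl
    exact (mem_support_iff.1 hγ) h4
  obtain ⟨v, hv⟩ := Finsupp.ne_iff.1 h5
  exact ⟨v, Set.mem_univ _, hv⟩

end Vertex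

section Substitution

variable {K : Type} [Field K] {n : ℕ}

/-- The substitution `x j ↦ (x j) ^ (w j)`. -/
noncomputable def sub (d : Der K) (w : Fin n → ℕ) :
    MvPolynomial (Fin n × ℕ) K →+* MvPolynomial (Fin n × ℕ) K :=
  ev C (dext d) (fun j => X (j, 0) ^ w j)

theorem sub_dext (d : Der K) (w : Fin n → ℕ) (f : MvPolynomial (Fin n × ℕ) K) :
    sub d w (dext d f) = dext d (sub d w f) :=
  ev_dext C (dext d) _ d (fun a => (dext_C d a).symm) f

theorem sub_dext_iterate (d : Der K) (w : Fin n → ℕ) (l : ℕ) (f : MvPolynomial (Fin n × ℕ) K) :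
    sub d w ((dext d)^[l] f) = (dext d)^[l] (sub d w f) :=
  ev_dext_iterate C (dext d) _ d (fun a => (dext_C d a).symm) l f

theorem sub_X (d : Der K) (w : Fin n → ℕ) (v : Fin n × ℕ) :
    sub d w (X v) = (dext d)^[v.2] (X (v.1, 0) ^ w v.1) := by
  simp [sub]

theorem one_homog (d : Der K) (w : Fin n → ℕ) (v : Fin n × ℕ) :
    (sub d w (X v)).IsHomogeneous (w v.1) := by
  rw [sub_X]
  have h : ((X (v.1, 0) : MvPolynomial (Fin n × ℕ) K) ^ w v.1).IsWeightedHomogeneous
      (wv (fun _ : Fin n => 1)) (w v.1) := by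
    have := (isWeightedHomogeneous_X K (wv (fun _ : Fin n => 1)) (v.1, 0)).pow (w v.1)
    simpa using this
  exact dext_iterate_whomog h v.2

theorem sub_homog (d : Der K) (w : Fin n → ℕ) {f : MvPolynomial (Fin n × ℕ) K} {e : ℕ}
    (hf : f.IsWeightedHomogeneous (wv w) e) : (sub d w f).IsHomogeneous e := by
  have h1 : sub d w f = ∑ γ ∈ f.support, C (coeff γ f) * ∏ v ∈ γ.support, sub d w (X v) ^ γ v := by
    conv_lhs => rw [f.as_sum, map_sum]
    refine Finset.sum_congr rfl fun γ _ => ?_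
    rw [monomial_eq, map_mul, Finsupp.prod, map_prod]
    congr 1
    · simp [sub]
    · exact Finset.prod_congr rfl fun v _ => map_pow _ _ _
  rw [h1]
  refine IsHomogeneous.sum _ _ _ fun γ hγ => ?_
  have h2 : e = 0 + ∑ v ∈ γ.support, w v.1 * γ v := by
    have := hf (mem_support_iff.1 hγ)
    rw [zero_add, ← this, Finsupp.weight_apply, Finsupp.sum]
    exact Finset.sum_congr rfl fun v _ => by simp [mul_comm]
  rw [h2]
  refine (isHomogeneous_C _ _).mul (IsHomogeneous.prod _ _ _ fun v _ => ?_)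
  exact (one_homog d w v).pow _

theorem supported_dext (d : Der K) (j : Fin n) (k : ℕ) {f : MvPolynomial (Fin n × ℕ) K}
    (hf : f ∈ supported K {v : Fin n × ℕ | v.1 = j ∧ v.2 < k}) :
    dext d f ∈ supported K {v : Fin n × ℕ | v.1 = j ∧ v.2 < k + 1} := by
  have hmono : supported K {v : Fin n × ℕ | v.1 = j ∧ v.2 < k} ≤
      supported K {v : Fin n × ℕ | v.1 = j ∧ v.2 < k + 1} :=
    supported_mono (fun v hv => ⟨hv.1, hv.2.trans (Nat.lt_succ_self k)⟩)
  refine Algebra.adjoin_induction (p := fun f _ =>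
    dext d f ∈ supported K {v : Fin n × ℕ | v.1 = j ∧ v.2 < k + 1}) ?_ ?_ ?_ ?_ hf
  · rintro _ ⟨v, hv, rfl⟩
    rw [dext_X]
    exact X_mem_supported.2 ⟨hv.1, Nat.succ_lt_succ hv.2⟩
  · intro a
    rw [algebraMap_eq, dext_C]
    exact Subalgebra.algebraMap_mem _ _
  · intro f g _ _ hf hg
    rw [(dext d).add]
    exact Subalgebra.add_mem _ hf hg
  · intro f g hf' hg' hf hg
    rw [(dext d).mul]
    exact Subalgebra.add_mem _ (Subalgebra.mul_mem _ (hmono hf') hg)
      (Subalgebra.mul_mem _ (hmono hg') hf)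

theorem sub_X_zero (d : Der K) (w : Fin n → ℕ) (j : Fin n) :
    sub d w (X (j, 0)) = X (j, 0) ^ w j := by
  rw [sub_X]
  rfl

theorem sub_X_succ (d : Der K) (w : Fin n → ℕ) (j : Fin n) (k : ℕ) :
    ∃ r ∈ supported K {v : Fin n × ℕ | v.1 = j ∧ v.2 < k + 1},
      sub d w (X (j, k + 1)) = (w j : MvPolynomial (Fin n × ℕ) K) * X (j, 0) ^ (w j - 1) *
        X (j, k + 1) + r := by
  induction k with
  | zero =>
    refine ⟨0, Subalgebra.zero_mem _, ?_⟩
    rw [sub_X, add_zero]
    simp only [Function.iterate_succ_apply', Function.iterate_zero, id_eq]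
    rw [(dext d).pow, dext_X]
  | succ k ih =>
    obtain ⟨r, hr, h⟩ := ih
    have h0 : sub d w (X (j, k + 1 + 1)) = dext d (sub d w (X (j, k + 1))) := by
      rw [sub_X, sub_X]
      simp only [Function.iterate_succ_apply']
    refine ⟨(w j : MvPolynomial (Fin n × ℕ) K) * X (j, k + 1) *
      (((w j - 1 : ℕ) : MvPolynomial (Fin n × ℕ) K) * X (j, 0) ^ (w j - 1 - 1) * X (j, 1)) +
        dext d r, ?_, ?_⟩
    · refine Subalgebra.add_mem _ ?_ (supported_dext d j (k + 1) hr)
      have hX : ∀ l < k + 1 + 1, (X (j, l) : MvPolynomial (Fin n × ℕ) K) ∈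
          supported K {v : Fin n × ℕ | v.1 = j ∧ v.2 < k + 1 + 1} := fun l hl =>
        X_mem_supported.2 ⟨rfl, hl⟩
      exact Subalgebra.mul_mem _ (Subalgebra.mul_mem _ (natCast_mem _ _) (hX _ (by omega)))
        (Subalgebra.mul_mem _ (Subalgebra.mul_mem _ (natCast_mem _ _)
          (Subalgebra.pow_mem _ (hX _ (by omega)) _)) (hX _ (by omega)))
    · rw [h0, h, (dext d).add, (dext d).mul, (dext d).mul, (dext d).natCast, (dext d).pow, dext_X,
        dext_X]
      ring

theorem eval_congr_supported {s : Set (Fin n × ℕ)} {f : MvPolynomial (Fin n × ℕ) K}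
    (hf : f ∈ supported K s) (y y' : Fin n × ℕ → K) (h : ∀ v ∈ s, y v = y' v) :
    eval y f = eval y' f := by
  refine Algebra.adjoin_induction (p := fun f _ => eval y f = eval y' f) ?_ ?_ ?_ ?_ hf
  · rintro _ ⟨v, hv, rfl⟩
    rw [eval_X, eval_X, h v hv]
  · intro a
    rw [algebraMap_eq, eval_C, eval_C]
  · intro f g _ _ hf hg
    rw [map_add, map_add, hf, hg]
  · intro f g _ _ hf hg
    rw [map_mul, map_mul, hf, hg]

theorem X_mem_sup (j : Fin n) {k l : ℕ} (h : k < l) : (X (j, k) : MvPolynomial (Fin n × ℕ) K) ∈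
    supported K {v : Fin n × ℕ | v.1 = j ∧ v.2 < l} := by
  have h1 : (j, k) ∈ {v : Fin n × ℕ | v.1 = j ∧ v.2 < l} := ⟨rfl, h⟩
  exact Algebra.subset_adjoin ⟨(j, k), h1, rfl⟩

theorem sub_X_supported (d : Der K) (w : Fin n → ℕ) (v : Fin n × ℕ) :
    sub d w (X v) ∈ supported K {v' : Fin n × ℕ | v'.1 = v.1 ∧ v'.2 < v.2 + 1} := by
  obtain ⟨j, k⟩ := v
  rcases k with _ | k
  · rw [sub_X_zero]
    exact Subalgebra.pow_mem _ (X_mem_sup j Nat.one_pos) _
  · obtain ⟨r, hr, h⟩ := sub_X_succ d w j k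
    rw [h]
    refine Subalgebra.add_mem _ (Subalgebra.mul_mem _ (Subalgebra.mul_mem _ (natCast_mem _ _)
      (Subalgebra.pow_mem _ (X_mem_sup j (Nat.succ_pos _)) _))
      (X_mem_sup j (Nat.lt_succ_self _))) ?_
    refine supported_mono (s := {v : Fin n × ℕ | v.1 = j ∧ v.2 < k + 1})
      (t := {v : Fin n × ℕ | v.1 = j ∧ v.2 < k + 1 + 1}) ?_ hr
    intro v hv
    exact ⟨hv.1, lt_trans hv.2 (Nat.lt_succ_self _)⟩

theorem exists_values [CharZero K] (d : Der K) (w : Fin n → ℕ) (hw : ∀ j, 0 < w j) (b : Fin n × ℕ → K)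
    (c : Fin n → K) (hc : ∀ j, c j ≠ 0) (hb : ∀ j, b (j, 0) = c j ^ w j) (N : ℕ) :
    ∃ y : Fin n × ℕ → K, (∀ j, y (j, 0) = c j) ∧
      ∀ v : Fin n × ℕ, v.2 ≤ N → eval y (sub d w (X v)) = b v := by
  induction N with
  | zero =>
    refine ⟨fun v => c v.1, fun j => rfl, ?_⟩
    rintro ⟨j, k⟩ hk
    obtain rfl : k = 0 := Nat.le_zero.1 hk
    rw [sub_X_zero, map_pow, eval_X, hb]
  | succ N ih =>
    obtain ⟨y, hy0, hy⟩ := ih
    choose r hr hsub using fun j => sub_X_succ d w j N
    let y' : Fin n × ℕ → K := fun v => if v.2 = N + 1 then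
      (b v - eval y (r v.1)) / ((w v.1 : K) * c v.1 ^ (w v.1 - 1)) else y v
    have hyy' : ∀ v : Fin n × ℕ, v.2 < N + 1 → y' v = y v := fun v hv => if_neg (by omega)
    refine ⟨y', fun j => by rw [hyy' _ (Nat.succ_pos _), hy0], ?_⟩
    rintro ⟨j, k⟩ hk
    rcases Nat.lt_or_ge k (N + 1) with hk' | hk'
    · rw [← hy (j, k) (by simpa using Nat.lt_succ_iff.1 hk')]
      exact eval_congr_supported (sub_X_supported d w (j, k)) _ _
        (fun v hv => hyy' v (hv.2.trans_le (by simpa using hk')))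
    · obtain rfl : k = N + 1 := le_antisymm hk hk'
      have hne : (w j : K) * c j ^ (w j - 1) ≠ 0 :=
        mul_ne_zero (by exact_mod_cast (hw j).ne') (pow_ne_zero _ (hc j))
      have h1 : eval y' (r j) = eval y (r j) :=
        eval_congr_supported (hr j) _ _ (fun v hv => hyy' v hv.2)
      have h2 : y' (j, N + 1) = (b (j, N + 1) - eval y (r j)) / ((w j : K) * c j ^ (w j - 1)) :=
        if_pos rfl
      rw [hsub j, map_add, map_mul, map_mul, map_pow, eval_X, eval_X, map_natCast,
        hyy' (j, 0) (Nat.succ_pos _), hy0, h1, h2, mul_div_cancel₀ _ hne]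
      ring

theorem sub_injective [CharZero K] (d : Der K) (w : Fin n → ℕ) (hw : ∀ j, 0 < w j)
    (f : MvPolynomial (Fin n × ℕ) K) (hf : sub d w f = 0) : f = 0 := by
  classical
  let s : Fin n × ℕ → Set K := fun v => if v.2 = 0 then {a | ∃ c : K, c ≠ 0 ∧ a = c ^ w v.1}
    else Set.univ
  have hs : ∀ v, (s v).Infinite := by
    rintro ⟨j, k⟩
    simp only [s]
    split_ifs with h
    · refine Set.infinite_of_injective_forall_mem (f := fun m : ℕ => ((m + 1 : ℕ) : K) ^ w j) ?_ ?_
      · intro a b hab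
        simp only at hab
        have h1 : (a + 1) ^ w j = (b + 1) ^ w j := by exact_mod_cast hab
        have h2 := Nat.pow_left_injective (hw j).ne' h1
        simpa using h2
      · intro m
        exact ⟨((m + 1 : ℕ) : K), by exact_mod_cast Nat.succ_ne_zero m, rfl⟩
    · exact Set.infinite_univ
  refine funext_set s hs fun b hb => ?_
  rw [map_zero]
  have hb0 : ∀ j, ∃ c : K, c ≠ 0 ∧ b (j, 0) = c ^ w j := by
    intro j
    have := hb (j, 0) (Set.mem_univ _)
    simpa [s] using this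
  choose c hc hbc using hb0
  obtain ⟨N, hN⟩ : ∃ N : ℕ, ∀ v ∈ f.vars, v.2 ≤ N :=
    ⟨f.vars.sup Prod.snd, fun v hv => Finset.le_sup (f := Prod.snd) hv⟩
  obtain ⟨y, hy0, hy⟩ := exists_values d w hw b c hc hbc N
  have h1 : eval b f = eval (fun v => eval y (sub d w (X v))) f := by
    have h0 : f ∈ supported K (f.vars : Set (Fin n × ℕ)) := mem_supported_vars f
    refine eval_congr_supported h0 b (fun v => eval y (sub d w (X v))) ?_
    intro v hv
    exact (hy v (hN v hv)).symm
  have h2 : ∀ g : MvPolynomial (Fin n × ℕ) K,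
      eval (fun v => eval y (sub d w (X v))) g = eval y (sub d w g) := by
    intro g
    induction g using MvPolynomial.induction_on with
    | C a => simp [sub]
    | add f g hf hg => rw [map_add, map_add, map_add, hf, hg]
    | mul_X f v hf => rw [map_mul, map_mul, map_mul, hf, eval_X]
  rw [h1, h2, hf, map_zero]

theorem sub_supported (d : Der K) (w : Fin n → ℕ) (J : Finset (Fin n))
    {f : MvPolynomial (Fin n × ℕ) K} (hf : f ∈ supported K {v : Fin n × ℕ | v.1 ∈ J}) :
    sub d w f ∈ supported K {v : Fin n × ℕ | v.1 ∈ J} := by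
  refine Algebra.adjoin_induction (p := fun f _ => sub d w f ∈
    supported K {v : Fin n × ℕ | v.1 ∈ J}) ?_ ?_ ?_ ?_ hf
  · rintro _ ⟨v, hv, rfl⟩
    refine supported_mono (s := {v' : Fin n × ℕ | v'.1 = v.1 ∧ v'.2 < v.2 + 1}) ?_
      (sub_X_supported d w v)
    intro v' hv'
    have : v'.1 = v.1 := hv'.1
    change v'.1 ∈ J
    rw [this]
    exact hv
  · intro a
    have : sub d w (algebraMap K _ a) = algebraMap K _ a := by
      simp [sub, algebraMap_eq]
    rw [this]
    exact Subalgebra.algebraMap_mem _ _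
  · intro f g _ _ hf hg
    rw [map_add]
    exact Subalgebra.add_mem _ hf hg
  · intro f g _ _ hf hg
    rw [map_mul]
    exact Subalgebra.mul_mem _ hf hg

end Substitution

end P16

open P16

/-- Theorem A+ for weighted homogeneous systems. -/
theorem exists_component_weighted {K : Type} [Field K] [CharZero K] (d : Der K) {n i : ℕ}
    (hin : i < n) (u : Fin i → MvPolynomial (Fin n × ℕ) K) (w : Fin n → ℕ) (hw : ∀ j, 0 < w j)
    (e : Fin i → ℕ) (he : ∀ m, 0 < e m)
    (hu : ∀ m, (u m).IsWeightedHomogeneous (fun v : Fin n × ℕ => w v.1) (e m)) :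
    ∃ P ∈ (diffIdeal d u).minimalPrimes, P ≤ Ideal.span (Set.range X) ∧
      ∃ J : Finset (Fin n), J.card = n - i ∧
        ∀ f ∈ MvPolynomial.supported K {v : Fin n × ℕ | v.1 ∈ J}, f ∈ P → f = 0 := by
  obtain ⟨Q, hQ, J, hJ, hQJ⟩ := exists_component d hin (fun m => sub d w (u m)) e he
    (fun m => sub_homog d w (hu m))
  have hQp : Q.IsPrime := hQ.1.1
  have hle : diffIdeal d u ≤ Q.comap (sub d w) := by
    unfold diffIdeal
    rw [Ideal.span_le]
    rintro _ ⟨⟨m, l⟩, rfl⟩
    change sub d w ((dext d)^[l] (u m)) ∈ Q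
    rw [sub_dext_iterate]
    exact hQ.1.2 (Ideal.subset_span ⟨(m, l), rfl⟩)
  obtain ⟨P, hP, hPle⟩ := Ideal.exists_minimalPrimes_le hle
  refine ⟨P, hP, minimalPrimes_le_vertex w hw d u e hu P hP, J, hJ, fun f hf hfP => ?_⟩
  exact sub_injective d w hw f (hQJ _ (sub_supported d w J hf) (hPle hfP))

end Pool.Agent.Helper21.PD
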